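import Pool.Agent.Lib.MP_2b9f9a_al.DL.PB_43

/-!
# D2 (second copy): DC for an abelian action.
-/

set_option autoImplicit false

namespace Pool.Agent.DL17.AB17

open Pool.Agent.Lib.MP_2b9f9a_al
open PB43

variable {p : ℕ} {M V Γ : Type} [LieRing M] [AddCommGroup V] [Group Γ] [Fintype Γ]

/-- no choice of elements of `Γ` different from `1` leads from the weight `t` and the weights of the
letters to a weight in `S` -/
def Av (S : Finset (ZMod p)) (τ : Γ →* (ZMod p)ˣ) : List (ZMod p × M) → ZMod p → Prop
  | [], t => t ∉ S
  | q :: R, t => ∀ g : Γ, g ≠ 1 → Av S τ R (t + ((τ g : (ZMod p)ˣ) : ZMod p) * q.1)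

/-- if all letters have weight `b` -/
theorem av_const {S : Finset (ZMod p)} {τ : Γ →* (ZMod p)ˣ} {b : ZMod p} (R : List (ZMod p × M))
    (hR : ∀ q ∈ R, q.1 = b) : ∀ t : ZMod p,
    (∀ k : Fin R.length → Γ, (∀ i, k i ≠ 1) →
      t + ∑ i, ((τ (k i) : (ZMod p)ˣ) : ZMod p) * b ∉ S) → Av S τ R t := by
  induction R with
  | nil =>
    intro t h
    have := h (fun i => 1) (fun i => i.elim0)
    simpa [Av] using this
  | cons q R ih =>
    intro t h g hg
    rw [hR q List.mem_cons_self]
    refine ih (fun r hr => hR r (List.mem_cons_of_mem _ hr)) _ ?_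
    intro k hk
    have := h (Fin.cons g k : Fin (R.length + 1) → Γ) (by
      intro i
      refine Fin.cases ?_ ?_ i
      · simpa using hg
      · intro j; simpa using hk j)
    have e : (∑ i : Fin (R.length + 1),
        ((τ ((Fin.cons g k : Fin (R.length + 1) → Γ) i) : (ZMod p)ˣ) : ZMod p) * b) =
        ((τ g : (ZMod p)ˣ) : ZMod p) * b + ∑ i, ((τ (k i) : (ZMod p)ˣ) : ZMod p) * b := by
      rw [Fin.sum_univ_succ]
      simp only [Fin.cons_zero, Fin.cons_succ]
    change t + (∑ i : Fin (R.length + 1),
        ((τ ((Fin.cons g k : Fin (R.length + 1) → Γ) i) : (ZMod p)ˣ) : ZMod p) * b) ∉ S at this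
    rw [e] at this
    rwa [← add_assoc] at this

section

variable {S : Finset (ZMod p)} {τ : Γ →* (ZMod p)ˣ} {σ : Γ →* AddMonoid.End M}
  {T X U : Fam (ZMod p) M} {κ : M →+ V}

theorem kperm (hMD : MD S τ σ T X κ) (hU : Inv U T) (hκ : ∀ a, ∀ x ∈ U a, κ x = 0)
    (hc : ∀ a b c x y z, x ∈ X a → y ∈ T b → z ∈ T c → ⁅x, ⁅y, z⁆⁆ ∈ U (a + (b + c)))
    {l l' : List (ZMod p × M)} (h : l.Perm l') {a : ZMod p} {x : M}
    (hl : ∀ q ∈ l, q.2 ∈ T q.1) (hx : x ∈ X a) : κ (wact l x) = κ (wact l' x) := by
  have := hκ _ _ (wact_perm hMD.inv hU hc h a x hl hx)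
  rw [map_sub] at this
  exact sub_eq_zero.mp this

theorem vanish (hMD : MD S τ σ T X κ) (hU : Inv U T) (hκ : ∀ a, ∀ x ∈ U a, κ x = 0)
    (hc : ∀ a b c x y z, x ∈ X a → y ∈ T b → z ∈ T c → ⁅x, ⁅y, z⁆⁆ ∈ U (a + (b + c)))
    (R : List (ZMod p × M)) : ∀ (l : List (ZMod p × M)) (a : ZMod p) (x : M),
      (∀ q ∈ l, q.2 ∈ T q.1) → (∀ q ∈ R, q.2 ∈ T q.1) → x ∈ X a → Av S τ R (a + wt l) →
      κ (wact (l ++ R) x) = 0 := by
  induction R with
  | nil =>
    intro l a x hl _ hx hA
    rw [List.append_nil]
    exact hMD.supp _ hA _ (wact_mem hMD.inv l a x hl hx)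
  | cons q R ih =>
    intro l a x hl hR hx hA
    have hq : q.2 ∈ T q.1 := hR q List.mem_cons_self
    have hR' : ∀ r ∈ R, r.2 ∈ T r.1 := fun r hr => hR r (List.mem_cons_of_mem _ hr)
    have hlR : ∀ r ∈ l ++ R, r.2 ∈ T r.1 := by
      intro r hr
      rcases List.mem_append.1 hr with h | h
      · exact hl r h
      · exact hR' r h
    -- the letters `σ g q`
    have hg : ∀ g : Γ, σ g q.2 ∈ T (((τ g : (ZMod p)ˣ) : ZMod p) * q.1) := fun g =>
      hMD.act.map g _ _ hq
    have hp : ∀ r : ZMod p × M, r.2 ∈ T r.1 →
        κ (wact (l ++ r :: R) x) = κ ⁅wact (l ++ R) x, r.2⁆ := by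
      intro r hr
      have hperm : (l ++ r :: R).Perm ((l ++ R) ++ [r]) := by
        rw [List.append_assoc]
        exact List.Perm.append_left l (List.perm_append_singleton r R).symm
      have hlr : ∀ s ∈ l ++ r :: R, s.2 ∈ T s.1 := by
        intro s hs
        rcases List.mem_append.1 hs with h | h
        · exact hl s h
        · rcases List.mem_cons.1 h with h | h
          · rw [h]; exact hr
          · exact hR' s h
      rw [kperm hMD hU hκ hc hperm hlr hx, wact_append]
      rfl
    have hk := hMD.kill _ q.1 _ _ (wact_mem hMD.inv (l ++ R) a x hlR hx) hq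
    unfold tr at hk
    rw [lie_sum, map_sum] at hk
    rw [hp q hq]
    rw [Finset.sum_eq_single (1 : Γ)] at hk
    · rw [map_one] at hk
      exact hk
    · intro g _ hg1
      have h1 := hp (((τ g : (ZMod p)ˣ) : ZMod p) * q.1, σ g q.2) (hg g)
      rw [← h1]
      have h2 := ih (l ++ [(((τ g : (ZMod p)ˣ) : ZMod p) * q.1, σ g q.2)]) a x
        (by
          intro s hs
          rcases List.mem_append.1 hs with h | h
          · exact hl s h
          · rw [List.mem_singleton.1 h]; exact hg g)
        hR' hx (by
          rw [wt_append, ← add_assoc]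
          have := hA g hg1
          simpa [wt] using this)
      rwa [List.append_assoc, List.singleton_append] at h2
    · intro h; exact absurd (Finset.mem_univ _) h

end

end AB17

open Pool.Agent.Lib.MP_2b9f9a_al in
open AB17 PB43 in
theorem stAB_17 (hNT : StNT) : StAB := by
  classical
  intro h N
  obtain ⟨r₀, p₀, H⟩ := hNT h N
  set q := r₀ + p₀ + 1 with hqdef
  refine ⟨(N * h) * q + 1, ?_⟩
  intro p _ M V Γ _ _ _ _ S τ σ T X U κ hcard hS hMD hUX hU hκ hc a₀ z hz
  have hz' := iter_words _ a₀ hz
  clear hz
  induction hz' using AddSubgroup.closure_induction with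
  | zero => rw [map_zero]
  | add u v _ _ hu hv => rw [map_add, hu, hv, add_zero]
  | neg u _ hu => rw [map_neg, hu, neg_zero]
  | mem z hz =>
    obtain ⟨l, a, x, hlen, hl, hx, hwt, rfl⟩ := hz
    by_contra hne
    set t := a + wt l with ht
    -- the bad values of one letter
    set B : Finset (ZMod p) := (S ×ˢ (Finset.univ : Finset Γ)).image
      (fun w => (w.1 - t) / (((τ w.2 : (ZMod p)ˣ) : ZMod p) - 1)) with hB
    have hBcard : B.card ≤ N * h := by
      refine Finset.card_image_le.trans ?_
      rw [Finset.card_product, Finset.card_univ, hcard]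
      exact Nat.mul_le_mul_right _ hS
    have hτ1 : ∀ g : Γ, g ≠ 1 → ((τ g : (ZMod p)ˣ) : ZMod p) - 1 ≠ 0 := by
      intro g hg h0
      apply hg
      apply hMD.inj
      rw [map_one]
      exact Units.ext (sub_eq_zero.1 h0)
    have hlet : ∀ r ∈ l, r.1 ∈ B := by
      intro r hr
      by_contra hrB
      apply hne
      obtain ⟨l', hl'⟩ : ∃ l', l.Perm (l' ++ [r]) :=
        ⟨l.erase r, (List.perm_cons_erase hr).trans (List.perm_append_singleton r _).symm⟩
      rw [kperm hMD hU hκ hc hl' hl hx]
      have hl2 : ∀ s ∈ l' ++ [r], s.2 ∈ T s.1 := fun s hs => hl s (hl'.mem_iff.mpr hs)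
      apply vanish hMD hU hκ hc [r] l' a x (fun s hs => hl2 s (List.mem_append_left _ hs))
        (fun s hs => hl2 s (List.mem_append_right _ hs)) hx
      intro g hg
      change _ ∉ S
      intro hin
      apply hrB
      rw [hB, Finset.mem_image]
      refine ⟨(a + wt l' + ((τ g : (ZMod p)ˣ) : ZMod p) * r.1, g), ?_, ?_⟩
      · rw [Finset.mem_product]; exact ⟨hin, Finset.mem_univ _⟩
      · have e : t = a + wt l' + r.1 := by
          rw [ht, wt_perm hl', wt_append]
          simp [wt, add_assoc]
        change (a + wt l' + ((τ g : (ZMod p)ˣ) : ZMod p) * r.1 - t) / _ = _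
        rw [e, div_eq_iff (hτ1 g hg)]
        ring
    -- pigeonhole
    obtain ⟨b, hb⟩ : ∃ b : ZMod p, q ≤ (l.filter (fun r => r.1 = b)).length := by
      by_contra hcon
      push Not at hcon
      have h1 : l.length = ∑ b ∈ B, (l.filter (fun r => r.1 = b)).length := by
        clear hlen hl hwt hne hcon
        have : ∀ l : List (ZMod p × M), (∀ r ∈ l, r.1 ∈ B) →
            l.length = ∑ b ∈ B, (l.filter (fun r => r.1 = b)).length := by
          intro l
          induction l with
          | nil => intro _; simp
          | cons r l ih =>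
            intro hr
            have h2 : ∀ b ∈ B, ((r :: l).filter (fun r => r.1 = b)).length =
                (if r.1 = b then 1 else 0) + (l.filter (fun r => r.1 = b)).length := by
              intro b _
              by_cases hrb : r.1 = b
              · rw [List.filter_cons_of_pos (by simpa using hrb), if_pos hrb, List.length_cons]
                ring
              · rw [List.filter_cons_of_neg (by simpa using hrb), if_neg hrb, zero_add]
            rw [Finset.sum_congr rfl h2, Finset.sum_add_distrib, Finset.sum_ite_eq,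
              if_pos (hr r List.mem_cons_self), ← ih (fun s hs => hr s (List.mem_cons_of_mem _ hs)),
              List.length_cons]
            ring
        exact this l hlet
      have h2 : ∑ b ∈ B, (l.filter (fun r => r.1 = b)).length ≤ B.card * q := by
        rw [← smul_eq_mul]
        exact Finset.sum_le_card_nsmul _ _ _ (fun b _ => (hcon b).le)
      have h3 : B.card * q ≤ (N * h) * q := Nat.mul_le_mul_right _ hBcard
      omega
    -- the letters of weight `b` go to the end
    set R := l.filter (fun r => r.1 = b) with hR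
    set l₁ := l.filter (fun r => ¬ r.1 = b) with hl₁
    have hperm : l.Perm (l₁ ++ R) := by
      have h1 := List.filter_append_perm (fun r : ZMod p × M => decide (r.1 = b)) l
      have h2 : l.filter (fun r => ¬ r.1 = b) = l.filter (fun r => !decide (r.1 = b)) := by
        simp
      rw [hl₁, h2]
      exact (h1.symm).trans List.perm_append_comm
    have hRb : ∀ r ∈ R, r.1 = b := by
      intro r hr
      rw [hR, List.mem_filter] at hr
      simpa using hr.2
    have hTall : ∀ s ∈ l₁ ++ R, s.2 ∈ T s.1 := fun s hs => hl s (hperm.mem_iff.mpr hs)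
    have hT1 : ∀ s ∈ l₁, s.2 ∈ T s.1 := fun s hs => hTall s (List.mem_append_left _ hs)
    have hTR : ∀ s ∈ R, s.2 ∈ T s.1 := fun s hs => hTall s (List.mem_append_right _ hs)
    apply hne
    rw [kperm hMD hU hκ hc hperm hl hx]
    have hzero : ∀ (j : ℕ), j ≤ R.length → a + wt l₁ + (j : ZMod p) * b = 0 →
        wact (l₁ ++ R) x = 0 := by
      intro j hj h0
      have e : l₁ ++ R = (l₁ ++ R.take j) ++ R.drop j := by
        rw [List.append_assoc, List.take_append_drop]
      rw [e, wact_append]
      have h1 : wact (l₁ ++ R.take j) x ∈ X (a + wt (l₁ ++ R.take j)) := by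
        apply wact_mem hMD.inv _ _ _ _ hx
        intro s hs
        rcases List.mem_append.1 hs with h | h
        · exact hT1 s h
        · exact hTR s (List.mem_of_mem_take h)
      have h2 : a + wt (l₁ ++ R.take j) = 0 := by
        rw [wt_append, wt_const (b := b) (R.take j) (fun s hs => hRb s (List.mem_of_mem_take hs)),
          List.length_take, min_eq_left hj, ← add_assoc, h0]
      rw [h2] at h1
      rw [hMD.zero _ h1, wact_zero]
    by_cases hb0 : b = 0
    · -- a letter of weight zero
      have hpos : 0 < R.length := by omega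
      have hmem : R[0] ∈ R := List.getElem_mem hpos
      have h1 : R[0].2 = 0 := by
        apply hMD.sub.zero
        have := hTR _ hmem
        rwa [hRb _ hmem, hb0] at this
      have e : l₁ ++ R = l₁ ++ (R[0] :: R.drop 1) := by
        congr 1
        rw [← List.drop_eq_getElem_cons hpos, List.drop_zero]
      rw [e, wact_append, wact_cons, h1, lie_zero, wact_zero, map_zero]
    by_cases hpq : p ≤ q
    · have hlt := ZMod.val_lt (-(a + wt l₁) / b)
      have h0 : a + wt l₁ + (((-(a + wt l₁) / b).val : ℕ) : ZMod p) * b = 0 := by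
        rw [ZMod.natCast_val, ZMod.cast_id', id_eq, div_mul_cancel₀ _ hb0]
        ring
      rw [hzero _ (by omega) h0, map_zero]
    · -- large `p`
      have hS' : (S.image (fun s => (s - t) / b)).card ≤ N := Finset.card_image_le.trans hS
      have hRange : Nat.card τ.range = h := by
        rw [← hcard, ← Nat.card_eq_fintype_card]
        exact (Nat.card_congr (MonoidHom.ofInjective hMD.inj).toEquiv).symm
      obtain ⟨r, hr1, hr2, hr3⟩ := H p Fact.out (by omega) τ.range hRange _ hS'
      have hrR : r ≤ R.length := by omega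
      have e : l₁ ++ R = (l₁ ++ R.take (R.length - r)) ++ R.drop (R.length - r) := by
        rw [List.append_assoc, List.take_append_drop]
      have hlast : (R.drop (R.length - r)).length = r := by
        rw [List.length_drop]; omega
      rw [e]
      apply vanish hMD hU hκ hc
      · intro s hs
        rcases List.mem_append.1 hs with h | h
        · exact hT1 s h
        · exact hTR s (List.mem_of_mem_take h)
      · intro s hs
        exact hTR s (List.mem_of_mem_drop hs)
      · exact hx
      · apply av_const (b := b) _ (fun s hs => hRb s (List.mem_of_mem_drop hs))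
        rw [hlast]
        intro k hk hin
        apply hr3 (fun i => τ (k i)) (fun i => ⟨⟨k i, rfl⟩, fun h1 => hk i (hMD.inj (by
          rw [map_one]; exact h1))⟩)
        rw [Finset.mem_image]
        refine ⟨_, hin, ?_⟩
        have e1 : t = a + wt (l₁ ++ R.take (R.length - r)) + (r : ZMod p) * b := by
          rw [ht, wt_perm hperm, e, wt_append _ (R.drop _),
            wt_const (b := b) (R.drop _) (fun s hs => hRb s (List.mem_of_mem_drop hs)), hlast]
          ring
        rw [div_eq_iff hb0, e1, Finset.sum_sub_distrib, Finset.sum_const, Finset.card_univ,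
          Fintype.card_fin, nsmul_eq_mul, mul_one, sub_mul, Finset.sum_mul]
        ring

end Pool.Agent.DL17
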