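import Pool.Agent.Lib.MP_2b9f9a_al.DL.D5_27

/-!
# D4 of DL17 (MP_2b9f9a): step (4) of DC, the combination
-/

set_option autoImplicit false

namespace Pool.Agent.DL17

open Pool.Agent.Lib.MP_2b9f9a_al

namespace Comb19

open D5h27

variable {p : ℕ} {M : Type} [LieRing M]

/-- The layers `X^j`. -/
def ly (A X K : Fam (ZMod p) M) : ℕ → Fam (ZMod p) M
  | 0 => K
  | j + 1 => lay A X (ly A X K j)

theorem ly_le {A X K : Fam (ZMod p) M} (hK : K ≤ X) : ∀ j, ly A X K j ≤ X
  | 0 => hK
  | _ + 1 => lay_le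

theorem ly_inv {A X K T : Fam (ZMod p) M} (hX : Inv X T) (hK : Inv K T) (hA : Inv A T) :
    ∀ j, Inv (ly A X K j) T
  | 0 => hK
  | j + 1 => lay_inv hX (ly_inv hX hK hA j) hA

theorem le_ly {A X K T : Fam (ZMod p) M} (hKX : K ≤ X) (hK : Inv K T) (hAT : A ≤ T) :
    ∀ j, K ≤ ly A X K j
  | 0 => le_rfl
  | j + 1 => fun a x hx =>
    ⟨hKX a hx, fun b y hy => le_ly hKX hK hAT j (a + b) (hK a b x y hx (hAT b hy))⟩

/-- The residuals: elements sent to `Z` by `k` letters of `T`. -/
def rs (T X Z : Fam (ZMod p) M) : ℕ → Fam (ZMod p) M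
  | 0 => Z
  | k + 1 => lay T X (rs T X Z k)

theorem le_rs {T X Z : Fam (ZMod p) M} (hZX : Z ≤ X) (hZ : Inv Z T) : ∀ k, Z ≤ rs T X Z k
  | 0 => le_rfl
  | k + 1 => fun a x hx =>
    ⟨hZX a hx, fun b y hy => le_rs hZX hZ k (a + b) (hZ a b x y hx hy)⟩

theorem le_rs_of_iter {T X Z : Fam (ZMod p) M} (hT : IsSub T) : ∀ (k : ℕ) (P : Fam (ZMod p) M),
    P ≤ X → Inv P T → iter P T k ≤ Z → P ≤ rs T X Z k
  | 0, _, _, _, h => h
  | k + 1, P, hPX, hP, h => by
    have h1 : iter P T 1 ≤ P := iter_le_self hP 1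
    have h2 : iter (iter P T 1) T k ≤ Z := by
      rw [← iter_add, Nat.add_comm]
      exact h
    have h3 := le_rs_of_iter hT k (iter P T 1) (h1.trans hPX) (inv_iter hP hT.lie 1) h2
    intro a x hx
    exact ⟨hPX a hx, fun b y hy => h3 (a + b) (mem_br hx hy)⟩

theorem step {T X A Z Q Y : Fam (ZMod p) M} {q m : ℕ} (hT : IsSub T) (hA : Inv A T)
    (hZX : Z ≤ X) (hZ : Inv Z T) (hQX : Q ≤ X) (hQ : Inv Q T) (hQZ : iter Q T m ≤ Z)
    (hYA : ∀ a b y u, y ∈ Y a → u ∈ A b → ⁅y, u⁆ ∈ Q (a + b))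
    (hYq : ∀ a b y u, y ∈ Y a → u ∈ iter A T q b → ⁅y, u⁆ ∈ Z (a + b)) :
    ∀ n s k, m + q ≤ n + s + k → ∀ a b y u, y ∈ iter Y T n a → u ∈ iter A T s b →
      ⁅y, u⁆ ∈ rs T X Z k (a + b) := by
  intro n
  induction n with
  | zero =>
    intro s k hsk a b y u hy hu
    by_cases hq : q ≤ s
    · have h1 : iter A T s ≤ iter A T q :=
        iter_le_of_le (inv_iter hA hT.lie q) le_rfl hq
      exact le_rs hZX hZ k (a + b) (hYq a b y u hy (h1 b hu))
    · have h1 : u ∈ A b := iter_le_self hA s b hu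
      have h2 : iter Q T k ≤ Z := iter_le_of_le hZ hQZ (by omega)
      exact le_rs_of_iter hT k Q hQX hQ h2 (a + b) (hYA a b y u hy h1)
  | succ n ih =>
    intro s k hsk a b y u hy hu
    refine br_lie_mem ?_ hy
    intro c d y' t hcd hy' ht
    rw [lie3]
    apply add_mem
    · have h1 := (ih s (k + 1) (by omega) c b y' u hy' hu).2 d t ht
      have e : c + b + d = a + b := by rw [← hcd]; abel
      rwa [e] at h1
    · have h0 : ⁅t, u⁆ ∈ iter A T (s + 1) (b + d) := by
        rw [← lie_skew]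
        exact neg_mem (mem_br hu ht)
      have h1 := ih (s + 1) k (by omega) c (b + d) y' ⁅t, u⁆ hy' h0
      have e : c + (b + d) = a + b := by rw [← hcd]; abel
      rwa [e] at h1

end Comb19

open D5h27 Comb19 in
/-- D4. -/
theorem stComb_19 : StComb := by
  intro q m₁ n₁
  refine ⟨n₁ * (m₁ + n₁ * q), ?_⟩
  intro p _ M _ T X A K hT hAT hA hX hKX hK hXAA h1 h2 h3
  have hly : ∀ j, ly A X K j ≤ X := ly_le hKX
  have hlyI : ∀ j, Inv (ly A X K j) T := ly_inv hX hK hA
  have hKly : ∀ j, K ≤ ly A X K j := le_ly hKX hK hAT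
  -- two layers are crossed by `A_q`
  have hii : ∀ j, ∀ a b x y, x ∈ ly A X K (j + 2) a → y ∈ iter A T q b →
      ⁅x, y⁆ ∈ ly A X K j (a + b) := by
    intro j
    induction j with
    | zero => exact h2
    | succ j ih =>
      intro a b x y hx hy
      have hyA : y ∈ A b := iter_le_self hA q b hy
      refine ⟨hX a b x y (hly _ a hx) (hAT b hyA), ?_⟩
      intro c z hz
      rw [lie3]
      apply add_mem
      · have := ih (a + c) b ⁅x, z⁆ y (hx.2 c z hz) hy
        have e : a + c + b = a + b + c := by abel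
        rwa [e] at this
      · have := hKly j _ (hXAA a b c x y z (hly _ a hx) hyA hz)
        have e : a + (b + c) = a + b + c := by abel
        rwa [e] at this
  -- one layer is crossed by many letters of `T`
  have hi : ∀ j, iter (ly A X K (j + 1)) T (m₁ + j * q) ≤ ly A X K j := by
    intro j
    induction j with
    | zero => rw [Nat.zero_mul, Nat.add_zero]; exact h1
    | succ j ih =>
      intro a x hx
      have hxX : x ∈ X a := hly _ a (iter_le_self (hlyI (j + 1 + 1)) _ a hx)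
      refine ⟨hxX, ?_⟩
      intro b u hu
      have := step (Y := ly A X K (j + 2)) (q := q) (m := m₁ + j * q) hT hA (hly j) (hlyI j)
        (hly (j + 1)) (hlyI (j + 1)) ih (fun a b y u hy hu => hy.2 b u hu) (hii j)
        (m₁ + (j + 1) * q) 0 0 (by
          have : (j + 1) * q = j * q + q := by ring
          omega) a b x u hx hu
      exact this
  -- `X` is the last layer
  have hiii : ∀ i j, i + j = n₁ → iter X A i ≤ ly A X K j := by
    intro i j
    induction j generalizing i with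
    | zero => intro hij; rw [Nat.add_zero] at hij; rw [hij]; exact h3
    | succ j ih =>
      intro hij a x hx
      have h4 := ih (i + 1) (by omega)
      exact ⟨iter_le_self (inv_mono hX hAT) i a hx, fun b y hy => h4 (a + b) (mem_br hx hy)⟩
  have hXn : X ≤ ly A X K n₁ := hiii 0 n₁ (Nat.zero_add n₁)
  have hch := iter_chain (X := X) (T := T) (R := fun i => ly A X K (n₁ - i))
    (m := m₁ + n₁ * q) hXn (by
      intro i
      by_cases hin : i < n₁
      · have e : n₁ - i = (n₁ - (i + 1)) + 1 := by omega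
        show iter (ly A X K (n₁ - i)) T (m₁ + n₁ * q) ≤ ly A X K (n₁ - (i + 1))
        rw [e]
        refine iter_le_of_le (hlyI _) (hi _) ?_
        exact Nat.add_le_add_left (Nat.mul_le_mul_right q (by omega)) _
      · have e : n₁ - i = 0 := by omega
        have e' : n₁ - (i + 1) = 0 := by omega
        show iter (ly A X K (n₁ - i)) T (m₁ + n₁ * q) ≤ ly A X K (n₁ - (i + 1))
        rw [e, e']
        exact iter_le_self (hlyI 0) _) n₁
  have e : n₁ - n₁ = 0 := Nat.sub_self n₁
  have hch' : iter X T (n₁ * (m₁ + n₁ * q)) ≤ ly A X K (n₁ - n₁) := hch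
  rw [e] at hch'
  exact hch'

end Pool.Agent.DL17
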