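import Pool.Agent.Lib.MP_2b9f9a_al.DL.Stmts17

/-!
# D5 of DL17 (MP_2b9f9a): DC from StAB, StKey, StComb
-/

set_option autoImplicit false

namespace Pool.Agent.DL17

open Pool.Agent.Lib.MP_2b9f9a_al

namespace D5h27

variable {p : ℕ} {M V Γ : Type} [LieRing M] [AddCommGroup V] [Group Γ]

theorem lie3 (x y z : M) : ⁅⁅x, y⁆, z⁆ = ⁅⁅x, z⁆, y⁆ + ⁅x, ⁅y, z⁆⁆ := by
  rw [leibniz_lie x y z, ← lie_skew ⁅x, z⁆ y]; abel

theorem inv_mono {X T A : Fam (ZMod p) M} (h : Inv X T) (hA : A ≤ T) : Inv X A :=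
  fun a b x y hx hy => h a b x y hx (hA b hy)

/-- The derived series is invariant. -/
theorem inv_der {T : Fam (ZMod p) M} (hT : IsSub T) (k : ℕ) : Inv (der T k) T := by
  induction k with
  | zero => exact hT.lie
  | succ k ih =>
    intro a b x y hx hy
    rw [der_succ] at hx ⊢
    refine br_lie_mem ?_ hx
    intro c d u v hcd hu hv
    rw [lie3]
    apply add_mem
    · exact mem_br' (ih _ _ _ _ hu hy) hv (by rw [← hcd]; abel)
    · exact mem_br' hu (ih _ _ _ _ hv hy) (by rw [← hcd]; abel)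

theorem inv_iter {X A T : Fam (ZMod p) M} (hX : Inv X T) (hA : Inv A T) (n : ℕ) :
    Inv (iter X A n) T := by
  induction n with
  | zero => exact hX
  | succ n ih =>
    intro a b x y hx hy
    simp only [iter] at hx ⊢
    refine br_lie_mem ?_ hx
    intro c d u v hcd hu hv
    rw [lie3]
    apply add_mem
    · exact mem_br' (ih _ _ _ _ hu hy) hv (by rw [← hcd]; abel)
    · exact mem_br' hu (hA _ _ _ _ hv hy) (by rw [← hcd]; abel)

theorem wact_mem {X T : Fam (ZMod p) M} (hX : Inv X T) : ∀ (l : List (ZMod p × M)),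
    (∀ q ∈ l, q.2 ∈ T q.1) → ∀ (a : ZMod p) (x : M), x ∈ X a → ∃ c, wact l x ∈ X c := by
  intro l
  induction l with
  | nil => intro _ a x hx; exact ⟨a, hx⟩
  | cons q l ih =>
    intro hl a x hx
    have h1 := ih (fun q' hq' => hl q' (List.mem_cons_of_mem _ hq')) (a + q.1) ⁅x, q.2⁆
      (hX _ _ _ _ hx (hl q List.mem_cons_self))
    exact h1

theorem le_big {Y X T : Fam (ZMod p) M} {κ : M →+ V} (hYX : Y ≤ X) (hY : Inv Y T)
    (hk : ∀ a, ∀ x ∈ Y a, κ x = 0) : Y ≤ big κ T X := by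
  intro a x hx
  refine ⟨hYX a hx, fun l hl => ?_⟩
  obtain ⟨c, hc⟩ := wact_mem hY l hl a x hx
  exact hk c _ hc

theorem big_le {X T : Fam (ZMod p) M} {κ : M →+ V} : big κ T X ≤ X := fun _ _ hx => hx.1

theorem big_ker {X T : Fam (ZMod p) M} {κ : M →+ V} {a : ZMod p} {x : M}
    (hx : x ∈ big κ T X a) : κ x = 0 := hx.2 [] (by simp)

theorem big_inv {X T : Fam (ZMod p) M} {κ : M →+ V} (hX : Inv X T) : Inv (big κ T X) T := by
  intro a b x y hx hy
  refine ⟨hX _ _ _ _ hx.1 hy, fun l hl => ?_⟩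
  refine hx.2 ((b, y) :: l) ?_
  intro q hq
  rw [List.mem_cons] at hq
  rcases hq with rfl | hq
  · exact hy
  · exact hl q hq

theorem lay_le {A X Y : Fam (ZMod p) M} : lay A X Y ≤ X := fun _ _ hx => hx.1

theorem lay_inv {A X Y T : Fam (ZMod p) M} (hX : Inv X T) (hY : Inv Y T) (hA : Inv A T) :
    Inv (lay A X Y) T := by
  intro a b x y hx hy
  refine ⟨hX _ _ _ _ hx.1 hy, ?_⟩
  intro c z hz
  rw [lie3]
  apply add_mem
  · have := hY _ _ _ _ (hx.2 _ _ hz) hy
    have e : a + c + b = a + b + c := by abel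
    rwa [e] at this
  · have h1 : ⁅y, z⁆ ∈ A (c + b) := by
      rw [← lie_skew]
      exact neg_mem (hA _ _ _ _ hz hy)
    have := hx.2 _ _ h1
    have e : a + (c + b) = a + b + c := by abel
    rwa [e] at this

theorem act_der {τ : Γ →* (ZMod p)ˣ} {σ : Γ →* AddMonoid.End M} {T : Fam (ZMod p) M}
    (h : Act τ σ T) (k : ℕ) : Act τ σ (der T k) := by
  refine ⟨h.lie, ?_⟩
  induction k with
  | zero => exact h.map
  | succ k ih =>
    intro g a
    have key : der T (k + 1) a ≤ (der T (k + 1) (((τ g : (ZMod p)ˣ) : ZMod p) * a)).comap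
        (σ g : M →+ M) := by
      rw [der_succ]
      apply br_le
      intro b c x y hbc hx hy
      have e : ⁅σ g x, σ g y⁆ ∈ br (der T k) (der T k) (((τ g : (ZMod p)ˣ) : ZMod p) * a) :=
        mem_br' (ih g b x hx) (ih g c y hy) (by rw [← hbc, mul_add])
      have e2 : σ g ⁅x, y⁆ ∈ br (der T k) (der T k) (((τ g : (ZMod p)ˣ) : ZMod p) * a) := by
        rw [h.lie g x y]; exact e
      exact e2
    exact fun x hx => key hx

theorem md_sub [Fintype Γ] {S : Finset (ZMod p)} {τ : Γ →* (ZMod p)ˣ} {σ : Γ →* AddMonoid.End M}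
    {T X Y : Fam (ZMod p) M} {κ : M →+ V} (h : MD S τ σ T X κ) (hYX : Y ≤ X) (hY : Inv Y T) :
    MD S τ σ T Y κ :=
  ⟨h.sub, h.act, h.inj, fun x hx => h.zero x (hYX 0 hx), hY,
    fun a ha x hx => h.supp a ha x (hYX a hx),
    fun a b x u hx hu => h.kill a b x u (hYX a hx) hu⟩

theorem md_der [Fintype Γ] {S : Finset (ZMod p)} {τ : Γ →* (ZMod p)ˣ} {σ : Γ →* AddMonoid.End M}
    {T X : Fam (ZMod p) M} {κ : M →+ V} (h : MD S τ σ T X κ) (s : ℕ) :
    MD S τ σ (der T s) X κ :=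
  ⟨h.sub.der s, act_der h.act s, h.inj, h.zero, inv_mono h.inv (h.sub.der_le s), h.supp,
    fun a b x u hx hu => h.kill a b x u hx (h.sub.der_le s b hu)⟩

open Classical in
/-- The bad weights. -/
noncomputable def bad [Fintype Γ] (S : Finset (ZMod p)) (τ : Γ →* (ZMod p)ˣ) : Finset (ZMod p) :=
  (Finset.univ.filter (fun g : Γ => g ≠ 1)).biUnion fun g =>
    (S ×ˢ S).image fun q => (q.1 - q.2) * ((((τ g : (ZMod p)ˣ) : ZMod p)) - 1)⁻¹

theorem card_bad [Fintype Γ] {h N : ℕ} {S : Finset (ZMod p)} {τ : Γ →* (ZMod p)ˣ}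
    (hh : Fintype.card Γ = h) (hS : S.card ≤ N) : (bad S τ).card ≤ h * (N * N) := by
  classical
  unfold bad
  refine Finset.card_biUnion_le.trans ?_
  refine (Finset.sum_le_card_nsmul _ _ (N * N) ?_).trans ?_
  · intro g _
    refine Finset.card_image_le.trans ?_
    rw [Finset.card_product]
    exact Nat.mul_le_mul hS hS
  · rw [smul_eq_mul, ← hh]
    exact Nat.mul_le_mul_right _ (Finset.card_le_univ _)

theorem kappa_good [Fact p.Prime] [Fintype Γ] {S : Finset (ZMod p)} {τ : Γ →* (ZMod p)ˣ}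
    {σ : Γ →* AddMonoid.End M} {T X : Fam (ZMod p) M} {κ : M →+ V} (h : MD S τ σ T X κ)
    {a b : ZMod p} (hb : b ∉ bad S τ) {x u : M} (hx : x ∈ X a) (hu : u ∈ T b) :
    κ ⁅x, u⁆ = 0 := by
  classical
  by_cases hab : a + b ∈ S
  · have h1 := h.kill a b x u hx hu
    unfold tr at h1
    rw [lie_sum, map_sum, Finset.sum_eq_single (1 : Γ)] at h1
    · rw [map_one] at h1
      exact h1
    · intro g _ hg
      apply h.supp (a + ((τ g : (ZMod p)ˣ) : ZMod p) * b) _ _
        (h.inv _ _ _ _ hx (h.act.map g b u hu))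
      intro hmem
      apply hb
      unfold bad
      rw [Finset.mem_biUnion]
      refine ⟨g, by simp [hg], ?_⟩
      rw [Finset.mem_image]
      refine ⟨(a + ((τ g : (ZMod p)ˣ) : ZMod p) * b, a + b), ?_, ?_⟩
      · rw [Finset.mem_product]; exact ⟨hmem, hab⟩
      · have hne : (((τ g : (ZMod p)ˣ) : ZMod p)) - 1 ≠ 0 := by
          intro h0
          apply hg
          apply h.inj
          rw [map_one]
          apply Units.ext
          rw [Units.val_one]
          exact sub_eq_zero.mp h0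
        rw [mul_inv_eq_iff_eq_mul₀ hne]
        ring
    · intro h0; exact absurd (Finset.mem_univ _) h0
  · exact h.supp _ hab _ (h.inv _ _ _ _ hx hu)

/-- `κ` kills `[X, T^(s)]` for bounded `s`. -/
theorem kappa_der [Fact p.Prime] [Fintype Γ] {h N : ℕ} {S : Finset (ZMod p)}
    {τ : Γ →* (ZMod p)ˣ}
    {σ : Γ →* AddMonoid.End M} {T X : Fam (ZMod p) M} {κ : M →+ V} (hh : Fintype.card Γ = h)
    (hS : S.card ≤ N) (hm : MD S τ σ T X κ)
    {a b : ZMod p} {x u : M} (hx : x ∈ X a) (hu : u ∈ der T (sBound (h * (N * N))) b) :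
    κ ⁅x, u⁆ = 0 := by
  let Y : Fam (ZMod p) M := fun b =>
    { carrier := {u | u ∈ T b ∧ ∀ c, ∀ x ∈ X c, κ ⁅x, u⁆ = 0}
      zero_mem' := ⟨zero_mem _, fun c x _ => by rw [lie_zero, map_zero]⟩
      add_mem' := by
        rintro u v ⟨hu, hu'⟩ ⟨hv, hv'⟩
        exact ⟨add_mem hu hv, fun c x hx => by
          rw [lie_add, map_add, hu' c x hx, hv' c x hx, add_zero]⟩
      neg_mem' := by
        rintro u ⟨hu, hu'⟩
        exact ⟨neg_mem hu, fun c x hx => by rw [lie_neg, map_neg, hu' c x hx, neg_zero]⟩ }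
  have h1 := avoid (h * (N * N)) T hm.sub (bad S τ) (card_bad hh hS) b hu
  have h2 : gen T (↑(bad S τ))ᶜ ≤ Y := by
    apply gen_le
    · intro c hc u hu
      refine ⟨hu, fun d x hx => kappa_good hm ?_ hx hu⟩
      simpa using hc
    · intro c d u v hu hv
      refine ⟨hm.sub.lie _ _ _ _ hu.1 hv.1, fun e x hx => ?_⟩
      have e1 : ⁅x, ⁅u, v⁆⁆ = ⁅⁅x, u⁆, v⁆ - ⁅⁅x, v⁆, u⁆ := by
        rw [lie3 x u v]; abel
      rw [e1, map_sub, hv.2 _ _ (hm.inv _ _ _ _ hx hu.1), hu.2 _ _ (hm.inv _ _ _ _ hx hv.1),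
        sub_zero]
  exact (h2 b h1).2 a x hx

/-- DC under the additional hypothesis that `κ` kills `[X, T^(s)]`. -/
def StD (h N s : ℕ) : Prop := ∃ n : ℕ, ∀ (p : ℕ) [Fact p.Prime] (M V Γ : Type) [LieRing M]
  [AddCommGroup V] [Group Γ] [Fintype Γ] (S : Finset (ZMod p)) (τ : Γ →* (ZMod p)ˣ)
  (σ : Γ →* AddMonoid.End M) (T X : Fam (ZMod p) M) (κ : M →+ V),
  Fintype.card Γ = h → S.card ≤ N → MD S τ σ T X κ →
  (∀ a b x u, x ∈ X a → u ∈ der T s b → κ ⁅x, u⁆ = 0) → ∀ a, ∀ x ∈ iter X T n a, κ x = 0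

theorem stD_zero (h N : ℕ) : StD h N 0 := by
  refine ⟨1, ?_⟩
  intro p _ M V Γ _ _ _ _ S τ σ T X κ _ _ hm hk a x hx
  have h1 : iter X T 1 a ≤ κ.ker := by
    simp only [iter]
    apply br_le
    intro b c x y _ hx hy
    rw [AddMonoidHom.mem_ker]
    exact hk b c x y hx hy
  exact h1 hx

theorem stD_succ (hAB : StAB) (hKey : StKey) (hComb : StComb) (h N s : ℕ) (hD : StD h N s) :
    StD h N (s + 1) := by
  obtain ⟨m, hm⟩ := hD
  obtain ⟨n₁, hn₁⟩ := hAB h N
  obtain ⟨q, hq⟩ := hKey h N m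
  obtain ⟨n, hn⟩ := hComb q m n₁
  refine ⟨n, ?_⟩
  intro p _ M V Γ _ _ _ _ S τ σ T X κ hh hS hmd hk
  set A := der T s with hA
  set K := big κ T X with hK
  have hAT : A ≤ T := hmd.sub.der_le s
  have hAinv : Inv A T := inv_der hmd.sub s
  have hKX : K ≤ X := big_le
  have hKinv : Inv K T := big_inv hmd.inv
  have hKker : ∀ a, ∀ x ∈ K a, κ x = 0 := fun a x hx => big_ker hx
  -- `[X, [A, A]] ≤ K`
  have hXAA : ∀ a b c x y z, x ∈ X a → y ∈ A b → z ∈ A c → ⁅x, ⁅y, z⁆⁆ ∈ K (a + (b + c)) := by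
    have hYle : br X (der T (s + 1)) ≤ K := by
      apply le_big
      · intro a
        apply br_le
        rintro b c x y rfl hx hy
        exact hmd.inv _ _ _ _ hx (hmd.sub.der_le _ _ hy)
      · intro a b x y hx hy
        refine br_lie_mem ?_ hx
        intro c d u v hcd hu hv
        rw [lie3]
        apply add_mem
        · exact mem_br' (hmd.inv _ _ _ _ hu hy) hv (by rw [← hcd]; abel)
        · exact mem_br' hu (inv_der hmd.sub _ _ _ _ _ hv hy) (by rw [← hcd]; abel)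
      · intro a x hx
        have h1 : br X (der T (s + 1)) a ≤ κ.ker := by
          apply br_le
          intro b c x y _ hx hy
          rw [AddMonoidHom.mem_ker]
          exact hk b c x y hx hy
        exact h1 hx
    intro a b c x y z hx hy hz
    apply hYle
    refine mem_br hx ?_
    rw [der_succ]
    exact mem_br hy hz
  -- (1) the abelian case
  have h1 : iter X A n₁ ≤ K := by
    apply le_big
    · exact iter_le_self (inv_mono hmd.inv hAT) n₁
    · exact inv_iter hmd.inv hAinv n₁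
    · exact hn₁ p M V Γ S τ σ A X K κ hh hS (md_der hmd s) hKX (inv_mono hKinv hAT) hKker hXAA
  -- (2) the induction hypothesis for the first layer
  have hLinv : Inv (lay A X K) T := lay_inv hmd.inv hKinv hAinv
  have h2 : iter (lay A X K) T m ≤ K := by
    apply le_big
    · exact (iter_le_self hLinv m).trans lay_le
    · exact inv_iter hLinv hmd.sub.lie m
    · apply hm p M V Γ S τ σ T (lay A X K) κ hh hS (md_sub hmd lay_le hLinv)
      intro a b x u hx hu
      exact hKker _ _ (hx.2 b u hu)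
  -- (3), (4)
  have h3 := hq p M V Γ S τ σ T X A κ hh hS hmd hAT hAinv h2
  have h4 := hn p M T X A K hmd.sub hAT hAinv hmd.inv hKX hKinv hXAA h2 h3 h1
  intro a x hx
  exact hKker a x (h4 a hx)

end D5h27

open D5h27 in
/-- D5. -/
theorem stDC_27 (hAB : StAB) (hKey : StKey) (hComb : StComb) : StDC := by
  intro h N
  have hall : ∀ s, StD h N s := by
    intro s
    induction s with
    | zero => exact stD_zero h N
    | succ s ih => exact stD_succ hAB hKey hComb h N s ih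
  obtain ⟨n, hn⟩ := hall (sBound (h * (N * N)))
  refine ⟨n, ?_⟩
  intro p _ M V Γ _ _ _ _ S τ σ T X κ hh hS hmd
  exact hn p M V Γ S τ σ T X κ hh hS hmd (fun a b x u hx hu => kappa_der hh hS hmd hx hu)

end Pool.Agent.DL17
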