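import Pool.Agent.Lib.MP_2b9f9a_al.DL.Stmts17

/-!
# D7: from selectivity to nilpotent action
-/

set_option autoImplicit false

namespace Pool.Agent.DL17

open Pool.Agent.Lib.MP_2b9f9a_al

section dep

variable {p : ℕ} [Fact p.Prime]

/-- the quotients `a / (a + b)` of dependent weights `a`, `b` -/
noncomputable def depC (R : Finset (ZMod p)) : Finset (ZMod p) := by
  classical
  exact (R ×ˢ R).image fun x => (1 - x.2) / (x.1 - x.2)

theorem depC_card (R : Finset (ZMod p)) {h : ℕ} (hR : R.card ≤ h) :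
    (depC R).card ≤ h * h := by
  classical
  refine Finset.card_image_le.trans ?_
  rw [Finset.card_product]
  exact Nat.mul_le_mul hR hR

theorem dep_of_not_indep {R : Finset (ZMod p)} {a b : ZMod p} (hab : a + b ≠ 0)
    (h : ¬ Indep (R : Set (ZMod p)) a b) : ∃ c ∈ depC R, a = c * (a + b) := by
  classical
  unfold Indep at h
  push Not at h
  obtain ⟨k, hk, l, hl, h1, h2⟩ := h
  have hkl : k - l ≠ 0 := by
    intro h3
    have h4 : k = l := sub_eq_zero.1 h3
    subst h4
    have h5 : k * (a + b) = 1 * (a + b) := by linear_combination h1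
    have h6 := mul_right_cancel₀ hab h5
    exact h2 h6 h6
  refine ⟨(1 - l) / (k - l), Finset.mem_image.2 ⟨(k, l), ?_, rfl⟩, ?_⟩
  · rw [Finset.mem_product]
    exact ⟨hk, hl⟩
  · rw [div_mul_eq_mul_div, eq_div_iff hkl]
    linear_combination h1

/-- the set `B` -/
noncomputable def depB (R : Finset (ZMod p)) : Finset (ZMod p) := by
  classical
  exact ((depC R ×ˢ depC R).image fun x => (x.2 - x.1) / (1 - x.1)) ∪
    ((depC R ×ˢ depC R).image fun x => (x.1 - x.2) / x.1)

theorem depB_card (R : Finset (ZMod p)) {h : ℕ} (hR : R.card ≤ h) :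
    (depB R).card ≤ (h * h) * (h * h) + (h * h) * (h * h) := by
  classical
  have h1 := depC_card R hR
  have h2 : (depC R ×ˢ depC R).card ≤ (h * h) * (h * h) := by
    rw [Finset.card_product]
    exact Nat.mul_le_mul h1 h1
  refine (Finset.card_union_le _ _).trans (Nat.add_le_add ?_ ?_)
  · exact Finset.card_image_le.trans h2
  · exact Finset.card_image_le.trans h2

end dep

section fams

variable {p : ℕ} [Fact p.Prime] {M : Type} [LieRing M]

/-- `{x ∈ X a : [x, Y (t - a)] ≤ S}` -/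
def tgt (X Y : Fam (ZMod p) M) (t : ZMod p) (S : AddSubgroup M) : Fam (ZMod p) M := fun a =>
  { carrier := {x | x ∈ X a ∧ ∀ y ∈ Y (t - a), ⁅x, y⁆ ∈ S}
    zero_mem' := ⟨zero_mem _, fun y _ => by rw [zero_lie]; exact zero_mem _⟩
    add_mem' := by
      rintro x y ⟨hx, hx'⟩ ⟨hy, hy'⟩
      exact ⟨add_mem hx hy, fun z hz => by rw [add_lie]; exact add_mem (hx' z hz) (hy' z hz)⟩
    neg_mem' := by
      rintro x ⟨hx, hx'⟩
      exact ⟨neg_mem hx, fun z hz => by rw [neg_lie]; exact neg_mem (hx' z hz)⟩ }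

theorem jac42 (x u y : M) : ⁅⁅x, u⁆, y⁆ = ⁅⁅x, y⁆, u⁆ - ⁅x, ⁅y, u⁆⁆ := by
  rw [leibniz_lie x y u, ← lie_skew ⁅x, u⁆ y]
  abel

theorem jac42' (x y u : M) : ⁅⁅x, y⁆, u⁆ = ⁅⁅x, u⁆, y⁆ + ⁅x, ⁅y, u⁆⁆ := by
  rw [jac42 x u y]
  abel

/-- (E) -/
theorem partE42 {h : ℕ} (R : Finset (ZMod p)) (T X : Fam (ZMod p) M) (hR : R.card ≤ h)
    (hT : IsSub T) (hX0 : ∀ x ∈ X 0, x = 0) (hZ0 : ∀ z ∈ br X X 0, z = 0)
    (hsel : ∀ a b, Indep (R : Set (ZMod p)) a b → ∀ x ∈ X a, ∀ y ∈ X b, ⁅x, y⁆ = 0)
    (X' X'' : Fam (ZMod p) M) (h1 : X' ≤ X) (h2 : X'' ≤ X) (h3 : Inv X' T) (h4 : Inv X'' T)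
    (a b : ZMod p) (x y : M) (hx : x ∈ iter X' T (nilBound (h * h)) a) (hy : y ∈ X'' b) :
    ⁅x, y⁆ ∈ br (br X' X'') T (a + b) := by
  classical
  by_cases ht : a + b = 0
  · have h5 : x ∈ X' a := iter_le_self h3 _ _ hx
    have h6 : ⁅x, y⁆ ∈ br X X 0 := mem_br' (h1 _ h5) (h2 _ hy) ht
    rw [hZ0 _ h6]
    exact zero_mem _
  set t := a + b with htdef
  have hb : b = t - a := by
    rw [htdef]
    abel
  set U := tgt X' X'' t (br (br X' X'') T t) with hU
  have hUX : U ≤ X' := fun c z hz => hz.1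
  have key : iter X' T (nilBound (h * h)) ≤ U := by
    apply nil_action (h * h) (((depC R).image fun c => c * t).erase 0) ?_
      (Finset.notMem_erase _ _) X' U T hT hUX ?_ h3 ?_
    · exact (Finset.card_erase_le.trans Finset.card_image_le).trans (depC_card R hR)
    · intro c hc z hz
      refine ⟨hz, fun w hw => ?_⟩
      by_cases hc0 : c = 0
      · subst hc0
        rw [hX0 z (h1 _ hz), zero_lie]
        exact zero_mem _
      · have hct : c + (t - c) = t := by abel
        by_cases hi : Indep (R : Set (ZMod p)) c (t - c)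
        · rw [hsel _ _ hi z (h1 _ hz) w (h2 _ hw)]
          exact zero_mem _
        · exfalso
          obtain ⟨e, he, hce⟩ := dep_of_not_indep (by rw [hct]; exact ht) hi
          rw [hct] at hce
          apply hc
          rw [Finset.mem_erase, Finset.mem_image]
          exact ⟨hc0, e, he, hce.symm⟩
    · rintro c d z u ⟨hz, hz'⟩ hu
      refine ⟨h3 _ _ _ _ hz hu, fun w hw => ?_⟩
      rw [jac42 z u w]
      apply sub_mem
      · -- `[[z, w], u]`
        by_cases hz2 : w ∈ X'' (t - (c + d))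
        · exact mem_br' (mem_br hz hz2) hu (by abel)
        · exact absurd hw hz2
      · apply hz'
        have h5 := h4 _ _ _ _ hw hu
        have e : t - (c + d) + d = t - c := by abel
        rwa [e] at h5
  have hxU := key _ hx
  rw [hb] at hy
  exact hxU.2 y hy

/-- (nil) -/
theorem partB42 (R : Finset (ZMod p)) (T X : Fam (ZMod p) M)
    (hX0 : ∀ x ∈ X 0, x = 0) (hZ0 : ∀ z ∈ br X X 0, z = 0) (hXT : Inv X T)
    (hsel : ∀ a b, Indep (R : Set (ZMod p)) a b → ∀ x ∈ X a, ∀ y ∈ X b, ⁅x, y⁆ = 0)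
    (t b : ZMod p) (hb : ∀ β ∈ depB R, b ≠ β * t) (z : M) (hz : z ∈ br X X (t - b)) (u : M)
    (hu : u ∈ T b) : ⁅z, u⁆ = 0 := by
  classical
  have hZT : ∀ a b x y u, x ∈ X a → y ∈ X b → ∀ c, u ∈ T c →
      ⁅⁅x, y⁆, u⁆ ∈ br X X (a + b + c) := by
    intro a b x y u hx hy c hu
    rw [jac42' x y u]
    apply add_mem
    · exact mem_br' (hXT _ _ _ _ hx hu) hy (by abel)
    · exact mem_br' hx (hXT _ _ _ _ hy hu) (by abel)
  have key : ⁅z, u⁆ ∈ (⊥ : AddSubgroup M) := by
    refine br_lie_mem (X := X) (Y := X) (a := t - b) ?_ hz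
    intro c d x y hcd hx hy
    rw [AddSubgroup.mem_bot]
    by_cases htb : t - b = 0
    · have h5 : ⁅x, y⁆ ∈ br X X 0 := mem_br' hx hy (by rw [hcd, htb])
      rw [hZ0 _ h5, zero_lie]
    by_cases ht : t = 0
    · have h5 := hZT _ _ _ _ _ hx hy _ hu
      rw [hcd] at h5
      have e : t - b + b = 0 := by rw [ht]; abel
      rw [e] at h5
      exact hZ0 _ h5
    by_cases hi : Indep (R : Set (ZMod p)) c d
    · rw [hsel _ _ hi x hx y hy, zero_lie]
    by_cases hc0 : c = 0
    · subst hc0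
      rw [hX0 x hx, zero_lie, zero_lie]
    by_cases hd0 : d = 0
    · subst hd0
      rw [hX0 y hy, lie_zero, zero_lie]
    obtain ⟨e, he, hce⟩ := dep_of_not_indep (by rw [hcd]; exact htb) hi
    rw [hcd] at hce
    have he0 : e ≠ 0 := by
      rintro rfl
      exact hc0 (by rw [hce, zero_mul])
    have he1 : 1 - e ≠ 0 := by
      intro h5
      apply hd0
      have h6 : e = 1 := (sub_eq_zero.1 h5).symm
      rw [h6, one_mul] at hce
      have h7 : c + d = c + 0 := by rw [hcd, add_zero, hce]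
      exact add_left_cancel h7
    rw [jac42' x y u]
    have e1 : ⁅⁅x, u⁆, y⁆ = 0 := by
      by_cases hi1 : Indep (R : Set (ZMod p)) (c + b) d
      · exact hsel _ _ hi1 _ (hXT _ _ _ _ hx hu) _ hy
      · exfalso
        have hs : c + b + d = t := by
          have : c + b + d = (c + d) + b := by abel
          rw [this, hcd]
          abel
        obtain ⟨f, hf, hcf⟩ := dep_of_not_indep (by rw [hs]; exact ht) hi1
        rw [hs] at hcf
        refine hb ((f - e) / (1 - e)) ?_ ?_
        · unfold depB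
          rw [Finset.mem_union]
          left
          exact Finset.mem_image.2 ⟨(e, f), Finset.mem_product.2 ⟨he, hf⟩, rfl⟩
        · rw [div_mul_eq_mul_div, eq_div_iff he1]
          linear_combination hcf - hce
    have e2 : ⁅x, ⁅y, u⁆⁆ = 0 := by
      by_cases hi1 : Indep (R : Set (ZMod p)) c (d + b)
      · exact hsel _ _ hi1 _ hx _ (hXT _ _ _ _ hy hu)
      · exfalso
        have hs : c + (d + b) = t := by
          have : c + (d + b) = (c + d) + b := by abel
          rw [this, hcd]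
          abel
        obtain ⟨f, hf, hcf⟩ := dep_of_not_indep (by rw [hs]; exact ht) hi1
        rw [hs] at hcf
        refine hb ((e - f) / e) ?_ ?_
        · unfold depB
          rw [Finset.mem_union]
          right
          exact Finset.mem_image.2 ⟨(e, f), Finset.mem_product.2 ⟨he, hf⟩, rfl⟩
        · rw [div_mul_eq_mul_div, eq_div_iff he0]
          linear_combination hce - hcf
    rw [e1, e2, add_zero]
  rwa [AddSubgroup.mem_bot] at key

end fams

theorem stFS_42 (hPB : StPB) : StFS := by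
  intro h
  obtain ⟨m, hm⟩ := hPB ((h * h) * (h * h) + (h * h) * (h * h))
  refine ⟨nilBound (h * h), m, ?_⟩
  intro p _ M _ R T X hR hT hX0 hZ0 hXT hsel
  refine ⟨?_, ?_⟩
  · intro X' X'' h1 h2 h3 h4 a b x y hx hy
    exact partE42 R T X hR hT hX0 hZ0 hsel X' X'' h1 h2 h3 h4 a b x y hx hy
  · apply hm p M T (br X X) (depB R) (depB_card R hR) hT hZ0
    · intro a b z u hz hu
      refine br_lie_mem (X := X) (Y := X) (a := a) ?_ hz
      intro c d x y hcd hx hy
      rw [jac42' x y u]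
      apply add_mem
      · exact mem_br' (hXT _ _ _ _ hx hu) hy (by rw [← hcd]; abel)
      · exact mem_br' hx (hXT _ _ _ _ hy hu) (by rw [← hcd]; abel)
    · intro t b hb z hz u hu
      exact partB42 R T X hX0 hZ0 hXT hsel t b hb z hz u hu

end Pool.Agent.DL17
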