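import Pool.Agent.Lib.MP_2b9f9a_al.DL.Stmts17

/-!
DL17 (MP_2b9f9a), row D13: the Lie ring of a filtered group (direct sum of the `A i / B i`).
-/

set_option autoImplicit false

namespace Pool.Agent.DL17

namespace GL78

/-! ### The additive group, by generators and relations -/

section base

variable {G I : Type} [Group G] (A B : I → Subgroup G)

/-- the relations -/
def rel : Set (FreeAbelianGroup (I × G)) :=
  {z | (∃ i, ∃ g ∈ A i, ∃ h ∈ A i, z = FreeAbelianGroup.of (i, g * h) -
      (FreeAbelianGroup.of (i, g) + FreeAbelianGroup.of (i, h))) ∨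
    (∃ i, ∃ g ∈ B i, z = FreeAbelianGroup.of (i, g)) ∨
    (∃ i, ∃ g, g ∉ A i ∧ z = FreeAbelianGroup.of (i, g))}

/-- the additive group -/
abbrev Wt : Type := FreeAbelianGroup (I × G) ⧸ AddSubgroup.closure (rel A B)

/-- the class of `g` in degree `i` -/
def cl (i : I) (g : G) : Wt A B := QuotientAddGroup.mk (FreeAbelianGroup.of (i, g))

variable {A B}

theorem cl_mul {i : I} {g h : G} (hg : g ∈ A i) (hh : h ∈ A i) :
    cl A B i (g * h) = cl A B i g + cl A B i h := by
  have h1 : (QuotientAddGroup.mk (FreeAbelianGroup.of (i, g * h) -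
      (FreeAbelianGroup.of (i, g) + FreeAbelianGroup.of (i, h))) : Wt A B) = 0 :=
    (QuotientAddGroup.eq_zero_iff _).2
      (AddSubgroup.subset_closure (Or.inl ⟨i, g, hg, h, hh, rfl⟩))
  exact sub_eq_zero.1 h1

theorem cl_zero {i : I} {g : G} (hg : g ∈ B i) : cl A B i g = 0 :=
  (QuotientAddGroup.eq_zero_iff _).2 (AddSubgroup.subset_closure (Or.inr (Or.inl ⟨i, g, hg, rfl⟩)))

theorem cl_out {i : I} {g : G} (hg : g ∉ A i) : cl A B i g = 0 :=
  (QuotientAddGroup.eq_zero_iff _).2 (AddSubgroup.subset_closure (Or.inr (Or.inr ⟨i, g, hg, rfl⟩)))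

theorem cl_one (i : I) : cl A B i 1 = 0 := cl_zero (Subgroup.one_mem _)

theorem span (w : Wt A B) : w ∈ AddSubgroup.closure {z | ∃ i, ∃ g ∈ A i, z = cl A B i g} := by
  obtain ⟨x, rfl⟩ := QuotientAddGroup.mk_surjective w
  have key : ∀ q : I × G, (QuotientAddGroup.mk (FreeAbelianGroup.of q) : Wt A B) ∈
      AddSubgroup.closure {z | ∃ i, ∃ g ∈ A i, z = cl A B i g} := by
    rintro ⟨i, g⟩
    by_cases hg : g ∈ A i
    · exact AddSubgroup.subset_closure ⟨i, g, hg, rfl⟩
    · have : (QuotientAddGroup.mk (FreeAbelianGroup.of (i, g)) : Wt A B) = 0 := cl_out hg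
      rw [this]
      exact AddSubgroup.zero_mem _
  induction x using FreeAbelianGroup.induction_on with
  | zero => exact AddSubgroup.zero_mem _
  | of q => exact key q
  | neg q h => exact AddSubgroup.neg_mem _ h
  | add x y hx hy => exact AddSubgroup.add_mem _ hx hy

theorem univ (V : Type) [AddCommGroup V] (f : I → G → V)
    (h1 : ∀ i, ∀ g ∈ A i, ∀ h ∈ A i, f i (g * h) = f i g + f i h)
    (h2 : ∀ i, ∀ g ∈ B i, f i g = 0) (hle : ∀ i, B i ≤ A i) :
    ∃ φ : Wt A B →+ V, ∀ i, ∀ g ∈ A i, φ (cl A B i g) = f i g := by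
  classical
  let F : FreeAbelianGroup (I × G) →+ V :=
    FreeAbelianGroup.lift fun q => if q.2 ∈ A q.1 then f q.1 q.2 else 0
  have hF : ∀ i g, g ∈ A i → F (FreeAbelianGroup.of (i, g)) = f i g := by
    intro i g hg
    change FreeAbelianGroup.lift _ _ = _
    rw [FreeAbelianGroup.lift_apply_of]
    exact if_pos hg
  have hF' : ∀ i g, g ∉ A i → F (FreeAbelianGroup.of (i, g)) = 0 := by
    intro i g hg
    change FreeAbelianGroup.lift _ _ = _
    rw [FreeAbelianGroup.lift_apply_of]
    exact if_neg hg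
  have hk : AddSubgroup.closure (rel A B) ≤ F.ker := by
    rw [AddSubgroup.closure_le]
    rintro z (⟨i, g, hg, h, hh, rfl⟩ | ⟨i, g, hg, rfl⟩ | ⟨i, g, hg, rfl⟩)
    · change F _ = 0
      rw [map_sub, map_add, hF i _ (Subgroup.mul_mem _ hg hh), hF i _ hg, hF i _ hh,
        h1 i g hg h hh, sub_self]
    · change F _ = 0
      rw [hF i _ (hle i hg), h2 i g hg]
    · exact hF' i g hg
  exact ⟨QuotientAddGroup.lift _ F hk, fun i g hg => hF i g hg⟩

/-- uniqueness -/
theorem ext {V : Type} [AddCommGroup V] {φ ψ : Wt A B →+ V}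
    (h : ∀ i, ∀ g ∈ A i, φ (cl A B i g) = ψ (cl A B i g)) : φ = ψ := by
  apply AddMonoidHom.ext
  intro w
  induction span w using AddSubgroup.closure_induction with
  | mem x hx =>
    obtain ⟨i, g, hg, rfl⟩ := hx
    exact h i g hg
  | zero => rw [map_zero, map_zero]
  | add x y _ _ hx hy => rw [map_add, map_add, hx, hy]
  | neg x _ hx => rw [map_neg, map_neg, hx]

end base

/-! ### The bracket -/

section lie

variable {G I : Type} [Group G] [AddCommMonoid I] {A B : I → Subgroup G}

theorem cl_inj (hM : MF A B) {i : I} {g : G} (hg : g ∈ A i) (h0 : cl A B i g = 0) : g ∈ B i := by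
  classical
  have hN : (B i).Normal := hM.nB i
  let Q : Type := (A i) ⧸ (B i).subgroupOf (A i)
  have hcomm : ∀ x y : Q, x * y = y * x := by
    intro x y
    obtain ⟨a, rfl⟩ := QuotientGroup.mk_surjective x
    obtain ⟨b, rfl⟩ := QuotientGroup.mk_surjective y
    change (QuotientGroup.mk (a * b) : Q) = QuotientGroup.mk (b * a)
    rw [QuotientGroup.eq]
    change ((a * b)⁻¹ * (b * a) : A i) ∈ (B i).subgroupOf (A i)
    rw [Subgroup.mem_subgroupOf]
    have h1 := hM.cent i (Subgroup.commutator_mem_commutator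
      ((A i).inv_mem b.2) (Subgroup.mem_top ((a : G)⁻¹)))
    rw [commutatorElement_def] at h1
    convert h1 using 1
    push_cast
    group
  let _ : CommGroup Q := { (inferInstance : Group Q) with mul_comm := hcomm }
  let f : I → G → Additive Q := fun j x =>
    if h : j = i ∧ x ∈ A i then Additive.ofMul (QuotientGroup.mk ⟨x, h.2⟩ : Q) else 0
  obtain ⟨φ, hφ⟩ := univ (A := A) (B := B) (Additive Q) f (by
    intro j x hx y hy
    by_cases h : j = i
    · subst h
      simp only [f, true_and]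
      rw [dif_pos hx, dif_pos hy, dif_pos (Subgroup.mul_mem _ hx hy)]
      rfl
    · simp only [f, h, false_and, dif_neg, not_false_eq_true, add_zero]) (by
    intro j x hx
    by_cases h : j = i
    · subst h
      simp only [f, true_and]
      rw [dif_pos (hM.le j hx)]
      change Additive.ofMul _ = Additive.ofMul 1
      congr 1
      exact (QuotientGroup.eq_one_iff _).2 (Subgroup.mem_subgroupOf.2 hx)
    · simp only [f, h, false_and, dif_neg, not_false_eq_true]) hM.le
  have h1 := hφ i g hg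
  rw [h0, map_zero] at h1
  simp only [f, true_and] at h1
  rw [dif_pos hg] at h1
  have h2 : (QuotientGroup.mk (⟨g, hg⟩ : A i) : Q) = 1 := h1.symm
  exact Subgroup.mem_subgroupOf.1 ((QuotientGroup.eq_one_iff _).1 h2)

theorem comm_mem (hM : MF A B) {i j : I} {g h : G} (hg : g ∈ A i) (hh : h ∈ A j) :
    g * h * g⁻¹ * h⁻¹ ∈ A (i + j) := by
  have := hM.mul i j (Subgroup.commutator_mem_commutator hg hh)
  rwa [commutatorElement_def] at this

/-- conjugate elements have the same class -/
theorem cl_conj (hM : MF A B) {i : I} {g : G} (hg : g ∈ A i) (x : G) :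
    cl A B i (x * g * x⁻¹) = cl A B i g := by
  have h1 : x * g * x⁻¹ * g⁻¹ ∈ B i := by
    have := hM.cent i (by
      rw [Subgroup.commutator_comm]
      exact Subgroup.commutator_mem_commutator (Subgroup.mem_top x) hg)
    rwa [commutatorElement_def] at this
  have h2 : x * g * x⁻¹ = (x * g * x⁻¹ * g⁻¹) * g := by group
  rw [h2, cl_mul (hM.le i h1) hg, cl_zero h1, zero_add]

/-- the bracket with a fixed element -/
theorem exists_ad (hM : MF A B) (i : I) (g : G) (hg : g ∈ A i) :
    ∃ φ : Wt A B →+ Wt A B, ∀ j, ∀ h ∈ A j,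
      φ (cl A B j h) = cl A B (i + j) (g * h * g⁻¹ * h⁻¹) := by
  refine univ _ (fun j h => cl A B (i + j) (g * h * g⁻¹ * h⁻¹)) ?_ ?_ hM.le
  · intro j h hh k hk
    have e : g * (h * k) * g⁻¹ * (h * k)⁻¹ =
        (g * h * g⁻¹ * h⁻¹) * (h * (g * k * g⁻¹ * k⁻¹) * h⁻¹) := by group
    have hn : (A (i + j)).Normal := hM.nA _
    rw [e, cl_mul (comm_mem hM hg hh) (hn.conj_mem _ (comm_mem hM hg hk) h),
      cl_conj hM (comm_mem hM hg hk)]
  · intro j h hh
    have := hM.mulB i j (Subgroup.commutator_mem_commutator hg hh)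
    rw [commutatorElement_def] at this
    exact cl_zero this

/-- the bracket -/
theorem exists_brk (hM : MF A B) :
    ∃ Φ : Wt A B →+ (Wt A B →+ Wt A B), ∀ i, ∀ g ∈ A i, ∀ j, ∀ h ∈ A j,
      Φ (cl A B i g) (cl A B j h) = cl A B (i + j) (g * h * g⁻¹ * h⁻¹) := by
  classical
  choose ad had using exists_ad hM
  obtain ⟨Φ, hΦ⟩ := univ (A := A) (B := B) (Wt A B →+ Wt A B)
    (fun i g => if hg : g ∈ A i then ad i g hg else 0) (by
      intro i g hg g' hg'
      rw [dif_pos hg, dif_pos hg', dif_pos (Subgroup.mul_mem _ hg hg')]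
      apply ext
      intro j h hh
      rw [AddMonoidHom.add_apply, had _ _ _ j h hh, had _ _ _ j h hh, had _ _ _ j h hh]
      have e : g * g' * h * (g * g')⁻¹ * h⁻¹ =
          (g * (g' * h * g'⁻¹ * h⁻¹) * g⁻¹) * (g * h * g⁻¹ * h⁻¹) := by group
      have hn : (A (i + j)).Normal := hM.nA _
      rw [e, cl_mul (hn.conj_mem _ (comm_mem hM hg' hh) g) (comm_mem hM hg hh),
        cl_conj hM (comm_mem hM hg' hh), add_comm]) (by
      intro i g hg
      rw [dif_pos (hM.le i hg)]
      apply ext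
      intro j h hh
      rw [had _ _ _ j h hh, AddMonoidHom.zero_apply]
      apply cl_zero
      have := hM.mulB j i (by
        rw [Subgroup.commutator_comm]
        exact Subgroup.commutator_mem_commutator hg hh)
      rwa [commutatorElement_def, add_comm j i] at this) hM.le
  refine ⟨Φ, fun i g hg j h hh => ?_⟩
  rw [hΦ i g hg, dif_pos hg]
  exact had i g hg j h hh

omit [AddCommMonoid I] in
/-- induction on the elements -/
theorem ind {p : Wt A B → Prop} (h1 : ∀ i, ∀ g ∈ A i, p (cl A B i g)) (h0 : p 0)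
    (ha : ∀ x y, p x → p y → p (x + y)) (hn : ∀ x, p x → p (-x)) (w : Wt A B) : p w := by
  induction span w using AddSubgroup.closure_induction with
  | mem x hx =>
    obtain ⟨i, g, hg, rfl⟩ := hx
    exact h1 i g hg
  | zero => exact h0
  | add x y _ _ hx hy => exact ha x y hx hy
  | neg x _ hx => exact hn x hx

theorem skew (hM : MF A B) (Φ : Wt A B →+ (Wt A B →+ Wt A B))
    (hΦ : ∀ i, ∀ g ∈ A i, ∀ j, ∀ h ∈ A j,
      Φ (cl A B i g) (cl A B j h) = cl A B (i + j) (g * h * g⁻¹ * h⁻¹)) (x y : Wt A B) :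
    Φ x y + Φ y x = 0 := by
  induction x using ind with
  | h1 i g hg =>
    induction y using ind with
    | h1 j h hh =>
      rw [hΦ i g hg j h hh, hΦ j h hh i g hg, add_comm j i,
        ← cl_mul (comm_mem hM hg hh) (by
          rw [add_comm i j]
          exact comm_mem hM hh hg)]
      have e : g * h * g⁻¹ * h⁻¹ * (h * g * h⁻¹ * g⁻¹) = 1 := by group
      rw [e, cl_one]
    | h0 => rw [map_zero, map_zero, AddMonoidHom.zero_apply, add_zero]
    | ha x y hx hy =>
      rw [map_add, map_add, AddMonoidHom.add_apply, add_add_add_comm, hx, hy, add_zero]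
    | hn x hx => rw [map_neg, map_neg, AddMonoidHom.neg_apply, ← neg_add, hx, neg_zero]
  | h0 => rw [map_zero, map_zero, AddMonoidHom.zero_apply, add_zero]
  | ha x y hx hy =>
    rw [map_add, map_add, AddMonoidHom.add_apply, add_add_add_comm, hx, hy, add_zero]
  | hn x hx => rw [map_neg, map_neg, AddMonoidHom.neg_apply, ← neg_add, hx, neg_zero]

theorem self (hM : MF A B) (Φ : Wt A B →+ (Wt A B →+ Wt A B))
    (hΦ : ∀ i, ∀ g ∈ A i, ∀ j, ∀ h ∈ A j,
      Φ (cl A B i g) (cl A B j h) = cl A B (i + j) (g * h * g⁻¹ * h⁻¹)) (x : Wt A B) :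
    Φ x x = 0 := by
  induction x using ind with
  | h1 i g hg =>
    rw [hΦ i g hg i g hg]
    have e : g * g * g⁻¹ * g⁻¹ = 1 := by group
    rw [e, cl_one]
  | h0 => rw [map_zero]
  | ha x y hx hy =>
    rw [map_add, map_add, AddMonoidHom.add_apply, AddMonoidHom.add_apply, hx, hy, zero_add,
      add_zero, add_comm]
    exact skew hM Φ hΦ x y
  | hn x hx => rw [map_neg, map_neg, AddMonoidHom.neg_apply, hx, neg_zero, neg_zero]

/-- the identity of Hall and Witt -/
theorem hall_witt (a b c : G) :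
    (a * b * a⁻¹ * b⁻¹) * (b * c * b⁻¹) * (a * b * a⁻¹ * b⁻¹)⁻¹ * (b * c * b⁻¹)⁻¹ *
    ((b * c * b⁻¹ * c⁻¹) * (c * a * c⁻¹) * (b * c * b⁻¹ * c⁻¹)⁻¹ * (c * a * c⁻¹)⁻¹) *
    ((c * a * c⁻¹ * a⁻¹) * (a * b * a⁻¹) * (c * a * c⁻¹ * a⁻¹)⁻¹ * (a * b * a⁻¹)⁻¹) = 1 := by
  group

theorem jac (hM : MF A B) (Φ : Wt A B →+ (Wt A B →+ Wt A B))
    (hΦ : ∀ i, ∀ g ∈ A i, ∀ j, ∀ h ∈ A j,
      Φ (cl A B i g) (cl A B j h) = cl A B (i + j) (g * h * g⁻¹ * h⁻¹)) (x y z : Wt A B) :
    Φ (Φ x y) z + Φ (Φ y z) x + Φ (Φ z x) y = 0 := by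
  induction x using ind with
  | h1 i a ha =>
    induction y using ind with
    | h1 j b hb =>
      induction z using ind with
      | h1 k c hc =>
        have hni : (A i).Normal := hM.nA _
        have hnj : (A j).Normal := hM.nA _
        have hnk : (A k).Normal := hM.nA _
        rw [← cl_conj hM hc b, ← cl_conj hM ha c, ← cl_conj hM hb a]
        have hc' := hnk.conj_mem c hc b
        have ha' := hni.conj_mem a ha c
        have hb' := hnj.conj_mem b hb a
        have e1 : Φ (cl A B i (c * a * c⁻¹)) (cl A B j (a * b * a⁻¹)) =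
            cl A B (i + j) (a * b * a⁻¹ * b⁻¹) := by
          rw [cl_conj hM ha c, cl_conj hM hb a, hΦ i a ha j b hb]
        have e2 : Φ (cl A B j (a * b * a⁻¹)) (cl A B k (b * c * b⁻¹)) =
            cl A B (j + k) (b * c * b⁻¹ * c⁻¹) := by
          rw [cl_conj hM hb a, cl_conj hM hc b, hΦ j b hb k c hc]
        have e3 : Φ (cl A B k (b * c * b⁻¹)) (cl A B i (c * a * c⁻¹)) =
            cl A B (k + i) (c * a * c⁻¹ * a⁻¹) := by
          rw [cl_conj hM hc b, cl_conj hM ha c, hΦ k c hc i a ha]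
        have m1 := comm_mem hM (comm_mem hM ha hb) hc'
        have m2 := comm_mem hM (comm_mem hM hb hc) ha'
        have m3 := comm_mem hM (comm_mem hM hc ha) hb'
        rw [e1, e2, e3, hΦ _ _ (comm_mem hM ha hb) _ _ hc', hΦ _ _ (comm_mem hM hb hc) _ _ ha',
          hΦ _ _ (comm_mem hM hc ha) _ _ hb']
        have d2 : j + k + i = i + j + k := by rw [add_comm (j + k) i, add_assoc]
        have d3 : k + i + j = i + j + k := by rw [add_assoc, add_comm k (i + j)]
        rw [d2] at m2
        rw [d3] at m3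
        rw [d2, d3, ← cl_mul m1 m2, ← cl_mul (Subgroup.mul_mem _ m1 m2) m3, hall_witt, cl_one]
      | h0 => simp only [map_zero, AddMonoidHom.zero_apply, add_zero]
      | ha x y hx hy =>
        simp only [map_add, AddMonoidHom.add_apply] at hx hy ⊢
        rw [← add_zero (0 : Wt A B)]
        nth_rewrite 1 [← hx]
        nth_rewrite 1 [← hy]
        abel
      | hn x hx =>
        simp only [map_neg, AddMonoidHom.neg_apply] at hx ⊢
        rw [← neg_add, ← neg_add, hx, neg_zero]
    | h0 => simp only [map_zero, AddMonoidHom.zero_apply, add_zero]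
    | ha x y hx hy =>
      simp only [map_add, AddMonoidHom.add_apply] at hx hy ⊢
      rw [← add_zero (0 : Wt A B)]
      nth_rewrite 1 [← hx]
      nth_rewrite 1 [← hy]
      abel
    | hn x hx =>
      simp only [map_neg, AddMonoidHom.neg_apply] at hx ⊢
      rw [← neg_add, ← neg_add, hx, neg_zero]
  | h0 => simp only [map_zero, AddMonoidHom.zero_apply, add_zero]
  | ha x y hx hy =>
    simp only [map_add, AddMonoidHom.add_apply] at hx hy ⊢
    rw [← add_zero (0 : Wt A B)]
    nth_rewrite 1 [← hx]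
    nth_rewrite 1 [← hy]
    abel
  | hn x hx =>
    simp only [map_neg, AddMonoidHom.neg_apply] at hx ⊢
    rw [← neg_add, ← neg_add, hx, neg_zero]

/-- the Lie ring -/
@[instance_reducible] def lieRing (hM : MF A B) (Φ : Wt A B →+ (Wt A B →+ Wt A B))
    (hΦ : ∀ i, ∀ g ∈ A i, ∀ j, ∀ h ∈ A j,
      Φ (cl A B i g) (cl A B j h) = cl A B (i + j) (g * h * g⁻¹ * h⁻¹)) : LieRing (Wt A B) where
  bracket x y := Φ x y
  add_lie x y z := by
    change Φ (x + y) z = Φ x z + Φ y z
    rw [map_add, AddMonoidHom.add_apply]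
  lie_add x y z := map_add (Φ x) y z
  lie_self x := self hM Φ hΦ x
  leibniz_lie x y z := by
    change Φ x (Φ y z) = Φ (Φ x y) z + Φ y (Φ x z)
    have h1 := jac hM Φ hΦ x y z
    have h2 := skew hM Φ hΦ x (Φ y z)
    have h3 := skew hM Φ hΦ y (Φ x z)
    have h4 : Φ (Φ z x) y = -Φ (Φ x z) y := by
      have := skew hM Φ hΦ z x
      rw [eq_neg_of_add_eq_zero_left this, map_neg, AddMonoidHom.neg_apply]
    rw [h4] at h1
    rw [eq_neg_of_add_eq_zero_left h2, eq_neg_of_add_eq_zero_left h3]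
    have h5 : Φ (Φ x y) z = Φ (Φ x z) y - Φ (Φ y z) x := by
      rw [← sub_eq_zero, ← h1]
      abel
    rw [h5]
    abel

end lie

/-! ### The action -/

section act

variable {G I Λ : Type} [Group G] [Group Λ] [MulDistribMulAction Λ G] {A B : I → Subgroup G}

theorem exists_act (hle : ∀ i, B i ≤ A i) (hA : ∀ (γ : Λ) i, ∀ g ∈ A i, γ • g ∈ A i)
    (hB : ∀ (γ : Λ) i, ∀ g ∈ B i, γ • g ∈ B i) :
    ∃ act : Λ →* AddMonoid.End (Wt A B), ∀ γ i, ∀ g ∈ A i,
      act γ (cl A B i g) = cl A B i (γ • g) := by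
  have hex : ∀ γ : Λ, ∃ φ : Wt A B →+ Wt A B, ∀ i, ∀ g ∈ A i,
      φ (cl A B i g) = cl A B i (γ • g) := by
    intro γ
    refine univ _ (fun i g => cl A B i (γ • g)) ?_ ?_ hle
    · intro i g hg h hh
      rw [smul_mul', cl_mul (hA γ i g hg) (hA γ i h hh)]
    · intro i g hg
      exact cl_zero (hB γ i g hg)
  choose a ha using hex
  refine ⟨{ toFun := a, map_one' := ?_, map_mul' := ?_ }, fun γ i g hg => ha γ i g hg⟩
  · apply ext
    intro i g hg
    rw [ha 1 i g hg, one_smul]
    rfl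
  · intro γ δ
    apply ext
    intro i g hg
    rw [ha (γ * δ) i g hg, mul_smul]
    change _ = a γ (a δ (cl A B i g))
    rw [ha δ i g hg, ha γ i _ (hA δ i g hg)]

end act

end GL78

open GL78 in
theorem stGL_78 : StGL := by
  intro G I Λ _ _ _ _ A B hM hA hB
  obtain ⟨Φ, hΦ⟩ := exists_brk hM
  obtain ⟨act, hact⟩ := exists_act hM.le hA hB
  refine ⟨Wt A B, lieRing hM Φ hΦ, cl A B, act, ?_⟩
  let _ : LieRing (Wt A B) := lieRing hM Φ hΦ
  refine
    { mul := fun i g hg h hh => cl_mul hg hh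
      brk := fun i j g hg h hh => hΦ i g hg j h hh
      zero := fun i g hg => ⟨fun h => cl_inj hM hg h, fun h => cl_zero h⟩
      span := span
      univ := fun V _ f h1 h2 => univ V f h1 h2 hM.le
      act_cls := fun γ i g hg => hact γ i g hg
      act_lie := ?_ }
  intro γ x y
  change act γ (Φ x y) = Φ (act γ x) (act γ y)
  induction x using ind with
  | h1 i g hg =>
    induction y using ind with
    | h1 j h hh =>
      rw [hΦ i g hg j h hh, hact γ _ _ (comm_mem hM hg hh), hact γ i g hg, hact γ j h hh,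
        hΦ i _ (hA γ i g hg) j _ (hA γ j h hh)]
      simp only [smul_mul', smul_inv']
    | h0 => simp only [map_zero]
    | ha x y hx hy => rw [map_add, map_add, map_add, map_add, hx, hy]
    | hn x hx => rw [map_neg, map_neg, map_neg, map_neg, hx]
  | h0 => simp only [map_zero, AddMonoidHom.zero_apply]
  | ha x y hx hy =>
    rw [map_add, AddMonoidHom.add_apply, map_add, map_add, map_add, AddMonoidHom.add_apply, hx, hy]
  | hn x hx =>
    rw [map_neg, AddMonoidHom.neg_apply, map_neg, map_neg, map_neg, AddMonoidHom.neg_apply, hx]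

end Pool.Agent.DL17
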