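import Pool.Agent.Lib.MP_2b9f9a_al.DL.Stmts17
import Pool.Agent.Lib.MP_2b9f9a_al.PX.Lc78
import Pool.Agent.Lib.MP_2b9f9a_al.PX.Cov28

/-!
# DL17 (MP_2b9f9a), D15: the Lie ring of the filtered group satisfies the hypotheses of D12
-/

set_option autoImplicit false

namespace Pool.Agent.DL17

open Finset
open Pool.Agent.PX (Fro lc StFpf StCov)

namespace Grp28

section graded

variable {G I W Λ : Type} [Group G] [AddCommMonoid I] [LieRing W] [Group Λ]
  [MulDistribMulAction Λ G] {A B : I → Subgroup G} {cls : I → G → W} {act : Λ →* AddMonoid.End W}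

theorem one (h : GrM A B cls act) (i : I) : cls i 1 = 0 :=
  (h.zero i 1 (one_mem _)).2 (one_mem _)

theorem inv (h : GrM A B cls act) (i : I) {g : G} (hg : g ∈ A i) : cls i g⁻¹ = - cls i g := by
  have h1 := h.mul i g hg g⁻¹ (inv_mem hg)
  rw [mul_inv_cancel, one h] at h1
  exact eq_neg_of_add_eq_zero_right h1.symm

/-- the projections -/
theorem proj (hm : MF A B) (h : GrM A B cls act) : ∃ π : I → (W →+ W),
    (∀ i, ∀ g ∈ A i, π i (cls i g) = cls i g) ∧ ∀ i j, j ≠ i → ∀ g ∈ A j, π i (cls j g) = 0 := by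
  classical
  have h1 : ∀ i, ∃ φ : W →+ W, ∀ j, ∀ g ∈ A j, φ (cls j g) = if j = i then cls j g else 0 := by
    intro i
    apply h.univ W (fun j g => if j = i then cls j g else 0)
    · intro j g hg g' hg'
      by_cases e : j = i
      · simp only [e, if_true]
        rw [e] at hg hg'
        exact h.mul i g hg g' hg'
      · simp only [e, if_false, add_zero]
    · intro j g hg
      by_cases e : j = i
      · simp only [e, if_true]
        rw [e] at hg
        exact (h.zero i g (hm.le i hg)).2 hg
      · simp only [e, if_false]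
  choose π hπ using h1
  refine ⟨π, fun i g hg => ?_, fun i j hj g hg => ?_⟩
  · rw [hπ i i g hg, if_pos rfl]
  · rw [hπ i j g hg, if_neg hj]

/-- induction over the generators -/
theorem span_ind (h : GrM A B cls act) {p : W → Prop} (h0 : p 0)
    (hadd : ∀ x y, p x → p y → p (x + y)) (hneg : ∀ x, p x → p (-x))
    (hcls : ∀ i, ∀ g ∈ A i, p (cls i g)) (w : W) : p w := by
  have hw := h.span w
  induction hw using AddSubgroup.closure_induction with
  | mem x hx => obtain ⟨i, g, hg, rfl⟩ := hx; exact hcls i g hg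
  | zero => exact h0
  | add x y _ _ hx hy => exact hadd x y hx hy
  | neg x _ hx => exact hneg x hx

variable {π : I → (W →+ W)}

theorem comp (h : GrM A B cls act) (h1 : ∀ i, ∀ g ∈ A i, π i (cls i g) = cls i g)
    (h2 : ∀ i j, j ≠ i → ∀ g ∈ A j, π i (cls j g) = 0) (i : I) (w : W) :
    ∃ g ∈ A i, π i w = cls i g := by
  induction w using span_ind h with
  | h0 => exact ⟨1, one_mem _, by rw [map_zero, one h]⟩
  | hadd x y hx hy =>
    obtain ⟨g, hg, e⟩ := hx
    obtain ⟨g', hg', e'⟩ := hy
    exact ⟨g * g', mul_mem hg hg', by rw [map_add, e, e', h.mul i g hg g' hg']⟩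
  | hneg x hx =>
    obtain ⟨g, hg, e⟩ := hx
    exact ⟨g⁻¹, inv_mem hg, by rw [map_neg, e, inv h i hg]⟩
  | hcls j g hg =>
    by_cases e : j = i
    · subst e
      exact ⟨g, hg, h1 _ g hg⟩
    · exact ⟨1, one_mem _, by rw [h2 i j e g hg, one h]⟩

theorem sum (h : GrM A B cls act) (h1 : ∀ i, ∀ g ∈ A i, π i (cls i g) = cls i g)
    (h2 : ∀ i j, j ≠ i → ∀ g ∈ A j, π i (cls j g) = 0) (w : W) :
    ∃ S : Finset I, ∀ S', S ⊆ S' → w = ∑ i ∈ S', π i w := by
  classical
  induction w using span_ind h with
  | h0 => exact ⟨∅, fun S' _ => by simp⟩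
  | hadd x y hx hy =>
    obtain ⟨S, hS⟩ := hx
    obtain ⟨T, hT⟩ := hy
    refine ⟨S ∪ T, fun S' h' => ?_⟩
    have e1 := hS S' (subset_union_left.trans h')
    have e2 := hT S' (subset_union_right.trans h')
    have e3 : ∑ i ∈ S', π i (x + y) = ∑ i ∈ S', π i x + ∑ i ∈ S', π i y := by
      rw [← sum_add_distrib]
      exact sum_congr rfl fun i _ => map_add _ _ _
    rw [e3, ← e1, ← e2]
  | hneg x hx =>
    obtain ⟨S, hS⟩ := hx
    refine ⟨S, fun S' h' => ?_⟩
    have e1 := hS S' h'
    have e3 : ∑ i ∈ S', π i (-x) = - ∑ i ∈ S', π i x := by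
      rw [← sum_neg_distrib]
      exact sum_congr rfl fun i _ => map_neg _ _
    rw [e3, ← e1]
  | hcls j g hg =>
    refine ⟨{j}, fun S' h' => ?_⟩
    rw [sum_eq_single j]
    · exact (h1 j g hg).symm
    · intro i _ hi
      exact h2 i j (fun e => hi e.symm) g hg
    · intro hj
      exact absurd (h' (mem_singleton_self j)) hj

theorem zero_of (h : GrM A B cls act) (h1 : ∀ i, ∀ g ∈ A i, π i (cls i g) = cls i g)
    (h2 : ∀ i j, j ≠ i → ∀ g ∈ A j, π i (cls j g) = 0) {w : W} (hw : ∀ i, π i w = 0) : w = 0 := by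
  obtain ⟨S, hS⟩ := sum h h1 h2 w
  rw [hS S (Finset.Subset.refl S)]
  exact sum_eq_zero fun i _ => hw i

theorem act_pi (h : GrM A B cls act) (hA : ∀ (γ : Λ) i, ∀ g ∈ A i, γ • g ∈ A i)
    (h1 : ∀ i, ∀ g ∈ A i, π i (cls i g) = cls i g)
    (h2 : ∀ i j, j ≠ i → ∀ g ∈ A j, π i (cls j g) = 0) (γ : Λ) (i : I) (w : W) :
    π i (act γ w) = act γ (π i w) := by
  induction w using span_ind h with
  | h0 => simp
  | hadd x y hx hy => rw [map_add, map_add, map_add, map_add, hx, hy]
  | hneg x hx => rw [map_neg, map_neg, map_neg, map_neg, hx]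
  | hcls j g hg =>
    rw [h.act_cls γ j g hg]
    by_cases e : j = i
    · subst e
      rw [h1 _ _ (hA γ _ g hg), h1 _ g hg, h.act_cls γ _ g hg]
    · rw [h2 i j e _ (hA γ j g hg), h2 i j e g hg, map_zero]

/-- the torsion -/
theorem tor [Finite G] (h : GrM A B cls act) (w : W) : Nat.card G • w = 0 := by
  induction w using span_ind h with
  | h0 => exact smul_zero _
  | hadd x y hx hy => rw [smul_add, hx, hy, add_zero]
  | hneg x hx => rw [smul_neg, hx, neg_zero]
  | hcls i g hg =>
    have key : ∀ n : ℕ, n • cls i g = cls i (g ^ n) := by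
      intro n
      induction n with
      | zero => rw [zero_smul, pow_zero, one h]
      | succ n ih => rw [succ_nsmul, ih, pow_succ, h.mul i _ (pow_mem hg n) g hg]
    rw [key, pow_card_eq_one', one h]

end graded

section group

variable {P : Type} [Group P]

theorem lc_act {Γ : Type} [Group Γ] [MulDistribMulAction Γ P] (γ : Γ) (w : ℕ) :
    ∀ g ∈ lc P w, γ • g ∈ lc P w := by
  have key : (lc P w).map (MulDistribMulAction.toMonoidHom P γ) ≤ lc P w := by
    induction w with
    | zero => exact le_top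
    | succ w ih =>
      rcases Nat.eq_zero_or_pos w with h | h
      · subst h
        exact le_top
      · rw [PX.Lc78.lc_succ w h, Subgroup.map_commutator]
        exact Subgroup.commutator_mono ih le_top
  intro g hg
  exact key ⟨g, hg, rfl⟩

theorem lc_anti (w : ℕ) : lc P (w + 1) ≤ lc P w := by
  rcases Nat.eq_zero_or_pos w with h | h
  · subst h
    exact le_top
  · rw [PX.Lc78.lc_succ w h]
    exact Subgroup.commutator_le_left _ _

theorem FA0 (m k : ℕ) : FA m P (0, k) = lc P k := by
  unfold FA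
  simp

theorem FB0 (m k : ℕ) : FB m P (0, k) = lc P (k + 1) := by
  unfold FB
  simp

theorem FA1 {m k : ℕ} (h : m ≤ k) : FA m P (1, k) = lc P k := by
  unfold FA
  simp [max_eq_left h]

theorem FB1 {m k : ℕ} (h : m ≤ k) : FB m P (1, k) = lc P (k + 1) := by
  unfold FB
  have : max (k + 1) m = k + 1 := max_eq_left (by omega)
  simp [this]

/-- the fixed points -/
def fix {Γ : Type} [Group Γ] [MulDistribMulAction Γ P] (H : Subgroup Γ) : Subgroup P where
  carrier := {g | ∀ x ∈ H, x • g = g}
  mul_mem' := by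
    intro a b ha hb x hx
    rw [smul_mul', ha x hx, hb x hx]
  one_mem' := fun x _ => smul_one x
  inv_mem' := by
    intro a ha x hx
    rw [smul_inv', ha x hx]

end group

section main

variable {Γ P W : Type} [Group Γ] [Group P] [MulDistribMulAction Γ P] [LieRing W]
  {m : ℕ} {cls : ℕ × ℕ → P → W} {act : Γ →* AddMonoid.End W}

/-- the filtration of the Lie ring -/
def Lf (cls : ℕ × ℕ → P → W) (n : ℕ) : AddSubgroup W :=
  AddSubgroup.closure {z | ∃ k, n ≤ k ∧ ∃ g ∈ lc P k, z = cls (0, k) g}

theorem mem_Lf {n k : ℕ} (h : n ≤ k) {g : P} (hg : g ∈ lc P k) : cls (0, k) g ∈ Lf cls n :=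
  AddSubgroup.subset_closure ⟨k, h, g, hg, rfl⟩

theorem Lf_ind {n : ℕ} {p : W → Prop} (h0 : p 0)
    (hadd : ∀ x y, p x → p y → p (x + y)) (hneg : ∀ x, p x → p (-x))
    (hcls : ∀ k, n ≤ k → ∀ g ∈ lc P k, p (cls (0, k) g)) : ∀ w ∈ Lf cls n, p w := by
  intro w hw
  unfold Lf at hw
  induction hw using AddSubgroup.closure_induction with
  | mem x hx => obtain ⟨k, hk, g, hg, rfl⟩ := hx; exact hcls k hk g hg
  | zero => exact h0
  | add x y _ _ hx hy => exact hadd x y hx hy
  | neg x _ hx => exact hneg x hx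

/-- the classes of the elements of a subgroup -/
def Df (cls : ℕ × ℕ → P → W) (D : Subgroup P) : AddSubgroup W :=
  AddSubgroup.closure {z | ∃ k, 1 ≤ k ∧ ∃ g ∈ lc P k, g ∈ D ∧ z = cls (0, k) g}

theorem Df_ind {D : Subgroup P} {p : W → Prop} (h0 : p 0)
    (hadd : ∀ x y, p x → p y → p (x + y)) (hneg : ∀ x, p x → p (-x))
    (hcls : ∀ k, 1 ≤ k → ∀ g ∈ lc P k, g ∈ D → p (cls (0, k) g)) : ∀ w ∈ Df cls D, p w := by
  intro w hw
  unfold Df at hw
  induction hw using AddSubgroup.closure_induction with
  | mem x hx => obtain ⟨k, hk, g, hg, hD, rfl⟩ := hx; exact hcls k hk g hg hD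
  | zero => exact h0
  | add x y _ _ hx hy => exact hadd x y hx hy
  | neg x _ hx => exact hneg x hx

/-- brackets of two classes of degree `(0, _)` -/
theorem brk0 (h : GrM (FA m P) (FB m P) cls act) {k l : ℕ} {g g' : P} (hg : g ∈ lc P k)
    (hg' : g' ∈ lc P l) : ⁅cls (0, k) g, cls (0, l) g'⁆ = cls (0, k + l) (g * g' * g⁻¹ * g'⁻¹) := by
  have h1 := h.brk (0, k) (0, l) g (by rw [FA0]; exact hg) g' (by rw [FA0]; exact hg')
  exact h1

theorem brkL (h : GrM (FA m P) (FB m P) cls act) {n : ℕ} (hn : 1 ≤ n) :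
    ∀ x ∈ Lf cls n, ∀ y ∈ Lf cls 1, ⁅x, y⁆ ∈ Lf cls (n + 1) := by
  apply Lf_ind
  · intro y _
    rw [zero_lie]
    exact zero_mem _
  · intro x x' hx hx' y hy
    rw [add_lie]
    exact add_mem (hx y hy) (hx' y hy)
  · intro x hx y hy
    rw [neg_lie]
    exact neg_mem (hx y hy)
  · intro k hk g hg
    apply Lf_ind
    · rw [lie_zero]
      exact zero_mem _
    · intro y y' hy hy'
      rw [lie_add]
      exact add_mem hy hy'
    · intro y hy
      rw [lie_neg]
      exact neg_mem hy
    · intro l hl g' hg'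
      rw [brk0 h hg hg']
      exact mem_Lf (by omega) (PX.Lc78.mem_lcc (by omega) hl hg hg')

theorem genL (h : GrM (FA m P) (FB m P) cls act) {n : ℕ} (hn : 1 ≤ n) :
    ∀ z ∈ Lf cls (n + 1), z ∈ AddSubgroup.closure {z | ∃ x ∈ Lf cls n, ∃ y ∈ Lf cls 1, z = ⁅x, y⁆} := by
  apply Lf_ind
  · exact zero_mem _
  · intro x y hx hy
    exact add_mem hx hy
  · intro x hx
    exact neg_mem hx
  · intro k hk g hg
    obtain ⟨k, rfl⟩ : ∃ j, k = j + 1 := ⟨k - 1, by omega⟩
    have hk1 : 1 ≤ k := by omega
    have hle : lc P (k + 1) = Subgroup.closure {g | ∃ g₁ ∈ lc P k, ∃ g₂ ∈ (⊤ : Subgroup P),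
        g₁ * g₂ * g₁⁻¹ * g₂⁻¹ = g} := by
      rw [PX.Lc78.lc_succ k hk1]
      rfl
    have hg' := hg
    rw [hle] at hg'
    induction hg' using Subgroup.closure_induction with
    | mem x hx =>
      obtain ⟨a, ha, b, hb, rfl⟩ := hx
      apply AddSubgroup.subset_closure
      have hb' : b ∈ lc P 1 := hb
      refine ⟨cls (0, k) a, mem_Lf (by omega) ha, cls (0, 1) b, mem_Lf le_rfl hb', ?_⟩
      rw [brk0 h ha hb']
    | one =>
      rw [one h]
      exact zero_mem _
    | mul x y hx hy ihx ihy =>
      rw [← hle] at hx hy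
      rw [h.mul (0, k + 1) x (by rw [FA0]; exact hx) y (by rw [FA0]; exact hy)]
      exact add_mem (ihx hx) (ihy hy)
    | inv x hx ihx =>
      rw [← hle] at hx
      rw [inv h (0, k + 1) (by rw [FA0]; exact hx)]
      exact neg_mem (ihx hx)

/-- the virtual copy -/
theorem iota (hm : MF (FA m P) (FB m P)) (h : GrM (FA m P) (FB m P) cls act) :
    ∃ ι : AddMonoid.End W, (∀ k, m ≤ k → ∀ g ∈ lc P k, ι (cls (0, k) g) = cls (1, k) g) ∧
      ∀ i : ℕ × ℕ, ¬ (i.1 = 0 ∧ m ≤ i.2) → ∀ g ∈ FA m P i, ι (cls i g) = 0 := by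
  classical
  obtain ⟨φ, hφ⟩ := h.univ W (fun i g => if i.1 = 0 ∧ m ≤ i.2 then cls (1, i.2) g else 0) (by
    rintro ⟨i, k⟩ g hg g' hg'
    by_cases e : i = 0 ∧ m ≤ k
    · obtain ⟨rfl, e⟩ := e
      rw [FA0] at hg hg'
      simp only [e, and_self, if_true]
      exact h.mul (1, k) g (by rw [FA1 e]; exact hg) g' (by rw [FA1 e]; exact hg')
    · simp only [e, if_false, add_zero]) (by
    rintro ⟨i, k⟩ g hg
    by_cases e : i = 0 ∧ m ≤ k
    · obtain ⟨rfl, e⟩ := e
      rw [FB0] at hg
      simp only [e, and_self, if_true]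
      have hg2 : g ∈ FB m P (1, k) := by rw [FB1 e]; exact hg
      exact (h.zero (1, k) g (hm.le _ hg2)).2 hg2
    · simp only [e, if_false])
  refine ⟨φ, fun k hk g hg => ?_, fun i hi g hg => ?_⟩
  · have := hφ (0, k) g (by rw [FA0]; exact hg)
    simp only [hk, and_self, if_true] at this
    exact this
  · have := hφ i g hg
    rw [if_neg hi] at this
    exact this

end main

end Grp28

open Grp28 in
theorem stGrp_28 (hMF : StMF) (hFpf : StFpf) (hCov : StCov) : StGrp := by
  intro m c r hr Γ P W _ _ _ _ _ _ F H cls act hm hP hFro hC h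
  obtain ⟨hmf, hA, hB, -⟩ := hMF m Γ P hm
  obtain ⟨π, h1, h2⟩ := proj hmf h
  refine ⟨?_, ?_⟩
  · intro y hy hy1 v hv
    apply zero_of h h1 h2
    intro i
    obtain ⟨g, hg, e⟩ := comp h h1 h2 i v
    have e1 : act y (cls i g) = cls i g := by
      rw [← e, ← act_pi h hA h1 h2, hv]
    rw [h.act_cls y i g hg] at e1
    have e2 : cls i (g⁻¹ * (y • g)) = 0 := by
      rw [h.mul i _ (inv_mem hg) _ (hA y i g hg), inv h i hg, e1, neg_add_cancel]
    have e3 := (h.zero i _ (mul_mem (inv_mem hg) (hA y i g hg))).1 e2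
    have := hmf.nB i
    have e4 := hFpf r Γ P F H hP hFro (FB m P i) (fun γ g' hg' => hB γ i g' hg') y hy hy1 g e3
    rw [e]
    exact (h.zero i g hg).2 e4
  · obtain ⟨ι, hi1, hi2⟩ := iota hmf h
    have hact0 : ∀ (γ : Γ) (k : ℕ), ∀ g ∈ lc P k, act γ (cls (0, k) g) = cls (0, k) (γ • g) := by
      intro γ k g hg
      exact h.act_cls γ (0, k) g (by rw [FA0]; exact hg)
    -- fixed points
    have hfix0 : ∀ z ∈ Lf cls 1, (∀ x ∈ H, act x z = z) → z ∈ Df cls (fix (P := P) H) := by
      intro z hz hx
      obtain ⟨S, hS⟩ := sum h h1 h2 z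
      rw [hS S (Finset.Subset.refl S)]
      refine sum_mem fun i _ => ?_
      have hpz : ∀ w ∈ Lf cls 1, ∀ i : ℕ × ℕ, ¬ (i.1 = 0 ∧ 1 ≤ i.2) → π i w = 0 := by
        apply Lf_ind
        · intro i _
          exact map_zero _
        · intro x y hx hy i hi
          rw [map_add, hx i hi, hy i hi, add_zero]
        · intro x hx i hi
          rw [map_neg, hx i hi, neg_zero]
        · intro k hk g hg i hi
          apply h2 i (0, k)
          · rintro rfl
            exact hi ⟨rfl, hk⟩
          · rw [FA0]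
            exact hg
      by_cases hi : i.1 = 0 ∧ 1 ≤ i.2
      · obtain ⟨i, k⟩ := i
        obtain ⟨rfl, hk⟩ := hi
        obtain ⟨g, hg, e⟩ := comp h h1 h2 (0, k) z
        have hg0 : g ∈ lc P k := by rw [FA0] at hg; exact hg
        have hgN : ∀ x ∈ H, g⁻¹ * (x • g) ∈ lc P (k + 1) := by
          intro x hxH
          have e1 : act x (cls (0, k) g) = cls (0, k) g := by
            rw [← e, ← act_pi h hA h1 h2, hx x hxH]
          rw [h.act_cls x (0, k) g hg] at e1
          have e2 : cls (0, k) (g⁻¹ * (x • g)) = 0 := by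
            rw [h.mul (0, k) _ (inv_mem hg) _ (hA x (0, k) g hg), inv h (0, k) hg, e1,
              neg_add_cancel]
          have e3 := (h.zero (0, k) _ (mul_mem (inv_mem hg) (hA x (0, k) g hg))).1 e2
          rw [FB0] at e3
          exact e3
        obtain ⟨n, hn, hgn⟩ := hCov r Γ P F H hP hFro (lc P (k + 1))
          (fun γ g' hg' => lc_act γ (k + 1) g' hg') g hgN
        have hn0 : n ∈ FB m P (0, k) := by rw [FB0]; exact hn
        have e4 : cls (0, k) (g * n) = cls (0, k) g := by
          rw [h.mul (0, k) g hg n (hmf.le _ hn0), (h.zero (0, k) n (hmf.le _ hn0)).2 hn0, add_zero]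
        change π (0, k) z ∈ Df cls (fix H)
        rw [e, ← e4]
        apply AddSubgroup.subset_closure
        exact ⟨k, hk, g * n, mul_mem hg0 (lc_anti k hn), hgn, rfl⟩
      · rw [hpz z hz i hi]
        exact zero_mem _
    have hfix : ∀ k, ∀ u ∈ fxc (H : Set Γ) act (Lf cls 1) k,
        u ∈ Df cls ((fix (P := P) H).lowerCentralSeries k) := by
      intro k
      induction k with
      | zero =>
        rintro u ⟨hu, hx⟩
        exact hfix0 u hu hx
      | succ k ih =>
        rintro u ⟨y, hy, z, hz, hzx, rfl⟩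
        have key : ∀ C : Subgroup P, ∀ y ∈ Df cls (C.lowerCentralSeries k), ∀ z ∈ Df cls C,
            ⁅y, z⁆ ∈ Df cls (C.lowerCentralSeries (k + 1)) := by
          intro C
          apply Df_ind
          · intro z _
            rw [zero_lie]
            exact zero_mem _
          · intro x x' hx hx' z hz
            rw [add_lie]
            exact add_mem (hx z hz) (hx' z hz)
          · intro x hx z hz
            rw [neg_lie]
            exact neg_mem (hx z hz)
          · intro a ha g hg hgC
            apply Df_ind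
            · rw [lie_zero]
              exact zero_mem _
            · intro y y' hy hy'
              rw [lie_add]
              exact add_mem hy hy'
            · intro y hy
              rw [lie_neg]
              exact neg_mem hy
            · intro b hb g' hg' hgC'
              rw [brk0 h hg hg']
              apply AddSubgroup.subset_closure
              refine ⟨a + b, by omega, _, PX.Lc78.mem_lcc ha hb hg hg', ?_, rfl⟩
              rw [Subgroup.lowerCentralSeries_succ]
              exact Subgroup.commutator_mem_commutator hgC hgC'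
        exact key _ y (ih y hy) z (hfix0 z hz hzx)
    have hcomm := hC (fix (P := P) H) (fun g => Iff.rfl)
    refine ⟨Lf cls, ι, ⟨h.act_lie, ⟨Nat.card P, Nat.card_pos, tor h⟩, ?_, ?_, ?_, ?_, ?_, ?_, ?_⟩,
      fun i _ g hg => mem_Lf le_rfl hg, fun i hi g hg => hi1 i hi g hg⟩
    · -- Lact
      intro n _ γ
      apply Lf_ind
      · rw [map_zero]
        exact zero_mem _
      · intro x y hx hy
        rw [map_add]
        exact add_mem hx hy
      · intro x hx
        rw [map_neg]
        exact neg_mem hx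
      · intro k hk g hg
        rw [hact0 γ k g hg]
        exact mem_Lf hk (lc_act γ k g hg)
    · -- Lle
      intro n _
      apply AddSubgroup.closure_mono
      rintro z ⟨k, hk, g, hg, rfl⟩
      exact ⟨k, by omega, g, hg, rfl⟩
    · exact fun n hn => brkL h hn
    · exact fun n hn z hz => genL h hn z hz
    · -- ιact
      intro γ x
      induction x using span_ind h with
      | h0 => rw [map_zero, map_zero, map_zero]
      | hadd x y hx hy => rw [map_add, map_add, map_add, map_add, hx, hy]
      | hneg x hx => rw [map_neg, map_neg, map_neg, map_neg, hx]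
      | hcls i g hg =>
        rw [h.act_cls γ i g hg]
        by_cases e : i.1 = 0 ∧ m ≤ i.2
        · obtain ⟨i, k⟩ := i
          obtain ⟨rfl, e⟩ := e
          have e : m ≤ k := e
          have hg0 : g ∈ lc P k := by rw [FA0] at hg; exact hg
          rw [hi1 k e _ (lc_act γ k g hg0), hi1 k e g hg0,
            h.act_cls γ (1, k) g (by rw [FA1 e]; exact hg0)]
        · rw [hi2 i e _ (hA γ i g hg), hi2 i e g hg, map_zero]
    · -- ιlie
      apply Lf_ind
      · intro y _
        rw [zero_lie, map_zero, zero_lie]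
      · intro x x' hx hx' y hy
        rw [add_lie, map_add, map_add, add_lie, hx y hy, hx' y hy]
      · intro x hx y hy
        rw [neg_lie, map_neg, map_neg, neg_lie, hx y hy]
      · intro k hk g hg
        apply Lf_ind
        · rw [lie_zero, map_zero, lie_zero]
        · intro y y' hy hy'
          rw [lie_add, map_add, lie_add, hy, hy']
        · intro y hy
          rw [lie_neg, map_neg, lie_neg, hy]
        · intro l hl g' hg'
          rw [brk0 h hg hg', hi1 k hk g hg,
            hi1 (k + l) (by omega) _ (PX.Lc78.mem_lcc (by omega) hl hg hg')]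
          have e := h.brk (1, k) (0, l) g (by rw [FA1 hk]; exact hg) g' (by rw [FA0]; exact hg')
          exact e.symm
    · -- ex
      intro u hu v hv
      have hu' := hfix c u hu
      have hv' := hfix c v hv
      have key : ∀ u ∈ Df cls ((fix (P := P) H).lowerCentralSeries c),
          ∀ v ∈ Df cls ((fix (P := P) H).lowerCentralSeries c), ⁅ι u, ι v⁆ = 0 := by
        apply Df_ind
        · intro v _
          rw [map_zero, zero_lie]
        · intro x x' hx hx' v hv
          rw [map_add, add_lie, hx v hv, hx' v hv, add_zero]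
        · intro x hx v hv
          rw [map_neg, neg_lie, hx v hv, neg_zero]
        · intro k hk g hg hgC
          apply Df_ind
          · rw [map_zero, lie_zero]
          · intro x x' hx hx'
            rw [map_add, lie_add, hx, hx', add_zero]
          · intro x hx
            rw [map_neg, lie_neg, hx, neg_zero]
          · intro l hl g' hg' hgC'
            by_cases ek : m ≤ k
            · by_cases el : m ≤ l
              · rw [hi1 k ek g hg, hi1 l el g' hg',
                  h.brk (1, k) (1, l) g (by rw [FA1 ek]; exact hg) g' (by rw [FA1 el]; exact hg')]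
                have e : g * g' * g⁻¹ * g'⁻¹ = 1 := by
                  rw [hcomm g hgC g' hgC']
                  group
                rw [e, one h]
              · rw [hi2 (0, l) (fun e => el e.2) g' (by rw [FA0]; exact hg'), lie_zero]
            · rw [hi2 (0, k) (fun e => ek e.2) g (by rw [FA0]; exact hg), zero_lie]
      exact key u hu' v hv'

end Pool.Agent.DL17
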