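import Pool.Agent.Lib.MP_2b9f9a_al.DL.D5_27

/-!
# D3 of DL17 (MP_2b9f9a): step (3) of DC
-/

set_option autoImplicit false

namespace Pool.Agent.DL17

open Pool.Agent.Lib.MP_2b9f9a_al

namespace Key49

open D5h27

variable {p : ℕ} {M V Γ : Type} [LieRing M] [AddCommGroup V] [Group Γ]

theorem wact_cons (q : ZMod p × M) (l : List (ZMod p × M)) (x : M) :
    wact (q :: l) x = wact l ⁅x, q.2⁆ := rfl

theorem wact_add (l : List (ZMod p × M)) : ∀ x y : M,
    wact l (x + y) = wact l x + wact l y := by
  induction l with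
  | nil => intro x y; rfl
  | cons q l ih => intro x y; rw [wact_cons, wact_cons, wact_cons, add_lie, ih]

theorem wact_neg (l : List (ZMod p × M)) : ∀ x : M, wact l (-x) = - wact l x := by
  induction l with
  | nil => intro x; rfl
  | cons q l ih => intro x; rw [wact_cons, wact_cons, neg_lie, ih]

theorem wact_zero (l : List (ZMod p × M)) : wact l (0 : M) = 0 := by
  induction l with
  | nil => rfl
  | cons q l ih => rw [wact_cons, zero_lie, ih]

/-- Words in `T` push an element deeper. -/
theorem wact_iter {X T : Fam (ZMod p) M} : ∀ (l : List (ZMod p × M)),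
    (∀ q ∈ l, q.2 ∈ T q.1) → ∀ (n : ℕ) (a : ZMod p) (x : M), x ∈ iter X T n a →
    ∃ c, wact l x ∈ iter X T (n + l.length) c := by
  intro l
  induction l with
  | nil => intro _ n a x hx; exact ⟨a, hx⟩
  | cons q l ih =>
    intro hl n a x hx
    have h1 : ⁅x, q.2⁆ ∈ iter X T (n + 1) (a + q.1) := mem_br hx (hl q List.mem_cons_self)
    obtain ⟨c, hc⟩ := ih (fun q' hq' => hl q' (List.mem_cons_of_mem _ hq')) (n + 1) _ _ h1
    refine ⟨c, ?_⟩
    rw [List.length_cons, wact_cons]
    have e : n + (l.length + 1) = n + 1 + l.length := by omega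
    rw [e]
    exact hc

/-- The bad weights for a word. -/
def bs (B : Finset (ZMod p)) : List (ZMod p × M) → Finset (ZMod p)
  | [] => B
  | q :: l => bs B l ∪ (bs B l).image (fun b => b - q.1)

omit [LieRing M] in
theorem card_bs (B : Finset (ZMod p)) (l : List (ZMod p × M)) :
    (bs B l).card ≤ 2 ^ l.length * B.card := by
  induction l with
  | nil => simp [bs]
  | cons q l ih =>
    have h1 : (bs B (q :: l)).card ≤ (bs B l).card + (bs B l).card := by
      refine (Finset.card_union_le _ _).trans ?_
      exact Nat.add_le_add_left Finset.card_image_le _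
    rw [List.length_cons, pow_succ]
    calc (bs B (q :: l)).card ≤ (bs B l).card + (bs B l).card := h1
      _ ≤ 2 ^ l.length * B.card + 2 ^ l.length * B.card := Nat.add_le_add ih ih
      _ = 2 ^ l.length * 2 * B.card := by ring

/-- Move the letter `u` to the right. -/
theorem move [Fact p.Prime] [Fintype Γ] {S : Finset (ZMod p)} {τ : Γ →* (ZMod p)ˣ}
    {σ : Γ →* AddMonoid.End M} {T X : Fam (ZMod p) M} {κ : M →+ V} (h : MD S τ σ T X κ) :
    ∀ (l : List (ZMod p × M)), (∀ q ∈ l, q.2 ∈ T q.1) → ∀ a b x u, x ∈ X a → u ∈ T b →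
    b ∉ bs (bad S τ) l → κ (wact l ⁅x, u⁆) = 0 := by
  intro l
  induction l with
  | nil =>
    intro _ a b x u hx hu hb
    exact kappa_good h hb hx hu
  | cons q l ih =>
    intro hl a b x u hx hu hb
    have hq : q.2 ∈ T q.1 := hl q List.mem_cons_self
    have hl' : ∀ q' ∈ l, q'.2 ∈ T q'.1 := fun q' hq' => hl q' (List.mem_cons_of_mem _ hq')
    have hb1 : b ∉ bs (bad S τ) l := by
      intro h1
      exact hb (Finset.mem_union_left _ h1)
    have hb2 : b + q.1 ∉ bs (bad S τ) l := by
      intro h1
      apply hb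
      refine Finset.mem_union_right _ ?_
      rw [Finset.mem_image]
      exact ⟨b + q.1, h1, by ring⟩
    rw [wact_cons, lie3, wact_add, map_add,
      ih hl' _ _ _ _ (h.inv _ _ _ _ hx hq) hu hb1,
      ih hl' _ _ _ _ hx (h.sub.lie _ _ _ _ hu hq) hb2, add_zero]

end Key49

open D5h27 Key49 in
/-- D3. -/
theorem stKey_49 : StKey := by
  intro h N m
  set nb : ℕ := nilBound (2 ^ m * (h * (N * N))) with hnb
  refine ⟨m * nb, ?_⟩
  intro p _ M V Γ _ _ _ _ S τ σ T X A κ hh hS hmd hAT hAinv hit
  set K : Fam (ZMod p) M := big κ T X with hK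
  have hKinv : Inv K T := big_inv hmd.inv
  set X1 : Fam (ZMod p) M := lay A X K with hX1
  have hX1inv : Inv X1 T := lay_inv hmd.inv hKinv hAinv
  set X2 : Fam (ZMod p) M := lay A X X1 with hX2
  have hX2inv : Inv X2 T := lay_inv hmd.inv hX1inv hAinv
  have hAit : ∀ n, iter A T n ≤ A := fun n => iter_le_self hAinv n
  have hAitinv : ∀ n, Inv (iter A T n) T := fun n => inv_iter hAinv hmd.sub.lie n
  -- long words
  have hbase : ∀ l : List (ZMod p × M), (∀ q ∈ l, q.2 ∈ T q.1) → m ≤ l.length →
      ∀ a b x u, x ∈ X2 a → u ∈ A b → κ (wact l ⁅x, u⁆) = 0 := by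
    intro l hl hm a b x u hx hu
    have h1 : ⁅x, u⁆ ∈ X1 (a + b) := hx.2 b u hu
    obtain ⟨c, hc⟩ := wact_iter (X := X1) (T := T) l hl 0 _ _ h1
    have h2 : iter X1 T (0 + l.length) ≤ K := by
      rw [Nat.zero_add]
      exact iter_le_of_le hKinv hit hm
    exact big_ker (h2 c hc)
  have key : ∀ j : ℕ, ∀ l : List (ZMod p × M), (∀ q ∈ l, q.2 ∈ T q.1) → m ≤ l.length + j →
      ∀ a b x u, x ∈ X2 a → u ∈ iter A T (j * nb) b → κ (wact l ⁅x, u⁆) = 0 := by
    intro j
    induction j with
    | zero =>
      intro l hl hm a b x u hx hu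
      exact hbase l hl hm a b x u hx (hAit _ _ hu)
    | succ j ih =>
      intro l hl hm a b x u hx hu
      by_cases hlm : m ≤ l.length
      · exact hbase l hl hlm a b x u hx (hAit _ _ hu)
      · set Y : Fam (ZMod p) M := iter A T (j * nb) with hY
        let U : Fam (ZMod p) M := fun b =>
          { carrier := {u | u ∈ Y b ∧ ∀ a, ∀ x ∈ X2 a, κ (wact l ⁅x, u⁆) = 0}
            zero_mem' := ⟨zero_mem _, fun a x _ => by rw [lie_zero, wact_zero, map_zero]⟩
            add_mem' := by
              rintro u v ⟨hu, hu'⟩ ⟨hv, hv'⟩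
              exact ⟨add_mem hu hv, fun a x hx => by
                rw [lie_add, wact_add, map_add, hu' a x hx, hv' a x hx, add_zero]⟩
            neg_mem' := by
              rintro u ⟨hu, hu'⟩
              exact ⟨neg_mem hu, fun a x hx => by
                rw [lie_neg, wact_neg, map_neg, hu' a x hx, neg_zero]⟩ }
        have hcard : ((bs (bad S τ) l).erase 0).card ≤ 2 ^ m * (h * (N * N)) := by
          refine Finset.card_erase_le.trans ((card_bs _ _).trans ?_)
          exact Nat.mul_le_mul (Nat.pow_le_pow_right (by norm_num) (by omega))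
            (card_bad hh hS)
        have hfin : iter Y T nb ≤ U := by
          apply nil_action (2 ^ m * (h * (N * N))) ((bs (bad S τ) l).erase 0) hcard
            (Finset.notMem_erase 0 _) Y U T hmd.sub
          · exact fun b u hu => hu.1
          · intro b hb u hu
            by_cases hb0 : b = 0
            · subst hb0
              have : u = 0 := hmd.sub.zero u (hAT _ (hAit _ _ hu))
              subst this
              exact zero_mem _
            · refine ⟨hu, fun a x hx => ?_⟩
              apply move hmd l hl a b x u hx.1 (hAT _ (hAit _ _ hu))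
              intro h1
              exact hb (Finset.mem_erase.mpr ⟨hb0, h1⟩)
          · exact hAitinv _
          · intro b c u v hu hv
            refine ⟨hAitinv _ _ _ _ _ hu.1 hv, fun a x hx => ?_⟩
            have e1 : ⁅x, ⁅u, v⁆⁆ = ⁅⁅x, u⁆, v⁆ + -⁅⁅x, v⁆, u⁆ := by
              rw [lie3 x u v]; abel
            rw [e1, wact_add, wact_neg, map_add, map_neg]
            have h1 : κ (wact l ⁅⁅x, u⁆, v⁆) = 0 := by
              have := ih ((c, v) :: l) (by
                intro q hq
                rw [List.mem_cons] at hq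
                rcases hq with rfl | hq
                · exact hv
                · exact hl q hq) (by rw [List.length_cons]; omega) a b x u hx hu.1
              rw [wact_cons] at this
              exact this
            have h2 : κ (wact l ⁅⁅x, v⁆, u⁆) = 0 := hu.2 _ _ (hX2inv _ _ _ _ hx hv)
            rw [h1, h2, neg_zero, add_zero]
        have e : (j + 1) * nb = j * nb + nb := by ring
        rw [e, iter_add] at hu
        exact (hfin b hu).2 a x hx
  intro a b x y hx hy
  refine ⟨hmd.inv _ _ _ _ hx.1 (hAT _ (hAit _ _ hy)), fun l hl => ?_⟩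
  exact key m l hl (Nat.le_add_left _ _) a b x y hx hy

end Pool.Agent.DL17
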