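import Pool.Agent.Lib.MP_2b9f9a_al.DL.Stmts17

/-!
# DL17, module D8: additive maps that kill commutators of traces (`StDC → StLT`)
-/

set_option autoImplicit false

namespace Pool.Agent.DL17

open Pool.Agent.Lib.MP_2b9f9a_al

section aux

variable {p : ℕ} {M V Γ : Type} [LieRing M] [AddCommGroup V] [Group Γ] [Fintype Γ]

/-- the trace as an additive map -/
def trHom2 (σ : Γ →* AddMonoid.End M) : M →+ M where
  toFun x := tr σ x
  map_zero' := by simp [tr]
  map_add' x y := by simp [tr, Finset.sum_add_distrib]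

theorem trHom2_apply (σ : Γ →* AddMonoid.End M) (x : M) : trHom2 σ x = tr σ x := rfl

/-- right bracket as an additive map -/
def rHom2 (w : M) : M →+ M where
  toFun x := ⁅x, w⁆
  map_zero' := by simp
  map_add' x y := by rw [add_lie]

theorem rHom2_apply (w x : M) : rHom2 w x = ⁅x, w⁆ := rfl

theorem sig_tr2 (σ : Γ →* AddMonoid.End M) (g : Γ) (x : M) : σ g (tr σ x) = tr σ x := by
  unfold tr
  rw [map_sum]
  have h1 : ∀ k : Γ, σ g (σ k x) = σ (g * k) x := by
    intro k
    rw [map_mul]
    rfl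
  rw [Finset.sum_congr rfl (fun k _ => h1 k)]
  exact Fintype.sum_equiv (Equiv.mulLeft g) _ _ (fun k => rfl)

theorem tr_lie2 {σ : Γ →* AddMonoid.End M} (h : ∀ g x y, σ g ⁅x, y⁆ = ⁅σ g x, σ g y⁆)
    (x u : M) : tr σ ⁅x, tr σ u⁆ = ⁅tr σ x, tr σ u⁆ := by
  have h1 : ∀ g : Γ, σ g ⁅x, tr σ u⁆ = ⁅σ g x, tr σ u⁆ := by
    intro g
    rw [h, sig_tr2]
  have h2 : (∑ g : Γ, ⁅σ g x, tr σ u⁆) = ⁅∑ g : Γ, σ g x, tr σ u⁆ := by
    have h3 := map_sum (rHom2 (tr σ u)) (fun g : Γ => σ g x) Finset.univ
    simp only [rHom2_apply] at h3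
    exact h3.symm
  calc tr σ ⁅x, tr σ u⁆ = ∑ g : Γ, σ g ⁅x, tr σ u⁆ := rfl
    _ = ∑ g : Γ, ⁅σ g x, tr σ u⁆ := Finset.sum_congr rfl (fun g _ => h1 g)
    _ = ⁅∑ g : Γ, σ g x, tr σ u⁆ := h2
    _ = ⁅tr σ x, tr σ u⁆ := rfl

theorem Fil.le_one2 {τ : Γ →* (ZMod p)ˣ} {σ : Γ →* AddMonoid.End M} {L : ℕ → Fam (ZMod p) M}
    (hL : Fil τ σ L) (n : ℕ) (hn : 1 ≤ n) : L n ≤ L 1 := by
  induction n, hn using Nat.le_induction with
  | base => exact le_rfl
  | succ n hn ih => exact (hL.le n hn).trans ih

theorem Fil.le_iter2 {τ : Γ →* (ZMod p)ˣ} {σ : Γ →* AddMonoid.End M} {L : ℕ → Fam (ZMod p) M}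
    (hL : Fil τ σ L) (m : ℕ) (hm : 1 ≤ m) (n : ℕ) : L (m + n) ≤ iter (L m) (L 1) n := by
  induction n with
  | zero => exact le_rfl
  | succ n ih =>
    have h1 := hL.gen (m + n) (by omega)
    exact h1.trans (br_mono ih le_rfl)

end aux

theorem stLT_2 (hDC : StDC) : StLT := by
  intro h c
  induction c with
  | zero =>
    intro N
    refine ⟨1, le_rfl, ?_⟩
    intro p _ M V Γ _ _ _ _ S τ σ L θ _ _ _ _ h0 a x hx
    exact h0 _ ⟨a, x, hx, rfl⟩
  | succ c ih =>
    intro N
    obtain ⟨m, hm, IH⟩ := ih (h * N)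
    obtain ⟨n, hn⟩ := hDC h (h * N)
    refine ⟨m + n, by omega, ?_⟩
    intro p _ M V Γ _ _ _ _ S τ σ L θ hcard hS hL hsupp h0 a x hx
    -- the bracket vanishes on traces
    have key : ∀ b, ∀ u ∈ L 1 b, ∀ a, ∀ x ∈ L m a, θ ⁅tr σ x, tr σ u⁆ = 0 := by
      intro b u hu
      classical
      set S' : Finset (ZMod p) := Finset.univ.biUnion
        (fun g : Γ => S.image (fun s => s - ((τ g : (ZMod p)ˣ) : ZMod p) * b)) with hS'
      have hS'c : S'.card ≤ h * N := by
        rw [← hcard]
        calc S'.card ≤ (Finset.univ : Finset Γ).card * N :=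
              Finset.card_biUnion_le_card_mul _ _ _ (fun g _ => Finset.card_image_le.trans hS)
          _ = Fintype.card Γ * N := by rw [Finset.card_univ]
      have := IH p M V Γ S' τ σ L (θ.comp (rHom2 (tr σ u))) hcard hS'c hL ?_ ?_
      · intro a x hx
        exact this a x hx
      · intro a ha x hx
        rw [AddMonoidHom.comp_apply, rHom2_apply]
        have h1 : ⁅x, tr σ u⁆ = ∑ g : Γ, ⁅x, σ g u⁆ := by
          unfold tr
          exact lie_sum _ _ _
        rw [h1, map_sum]
        apply Finset.sum_eq_zero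
        intro g _
        apply hsupp (a + ((τ g : (ZMod p)ˣ) : ZMod p) * b)
        · intro hmem
          apply ha
          rw [hS', Finset.mem_biUnion]
          refine ⟨g, Finset.mem_univ _, ?_⟩
          rw [Finset.mem_image]
          exact ⟨_, hmem, by ring⟩
        · exact hL.sub.lie _ _ _ _ hx ((hL.act 1 le_rfl).map g b u hu)
      · intro z hz
        rw [AddMonoidHom.comp_apply, rHom2_apply]
        exact h0 _ ⟨z, hz, b, u, hu, rfl⟩
    classical
    set S'' : Finset (ZMod p) := Finset.univ.biUnion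
      (fun g : Γ => S.image (fun s => (((τ g)⁻¹ : (ZMod p)ˣ) : ZMod p) * s)) with hS''
    have hS''c : S''.card ≤ h * N := by
      rw [← hcard]
      calc S''.card ≤ (Finset.univ : Finset Γ).card * N :=
            Finset.card_biUnion_le_card_mul _ _ _ (fun g _ => Finset.card_image_le.trans hS)
        _ = Fintype.card Γ * N := by rw [Finset.card_univ]
    have hMD : MD S'' τ σ (L 1) (L m) (θ.comp (trHom2 σ)) :=
      { sub := hL.sub
        act := hL.act 1 le_rfl
        inj := hL.inj
        zero := fun x hx => hL.sub.zero x (hL.le_one2 m hm 0 hx)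
        inv := fun a b x y hx hy => hL.le m hm _ (hL.lie m hm a b x y hx hy)
        supp := by
          intro a ha x hx
          rw [AddMonoidHom.comp_apply, trHom2_apply]
          unfold tr
          rw [map_sum]
          apply Finset.sum_eq_zero
          intro g _
          apply hsupp (((τ g : (ZMod p)ˣ) : ZMod p) * a)
          · intro hmem
            apply ha
            rw [hS'', Finset.mem_biUnion]
            refine ⟨g, Finset.mem_univ _, ?_⟩
            rw [Finset.mem_image]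
            refine ⟨_, hmem, ?_⟩
            rw [← mul_assoc, Units.inv_mul, one_mul]
          · exact hL.le_one2 m hm _ ((hL.act m hm).map g a x hx)
        kill := by
          intro a b x u hx hu
          rw [AddMonoidHom.comp_apply, trHom2_apply, tr_lie2 (hL.act 1 le_rfl).lie]
          exact key b u hu a x hx }
    exact hn p M V Γ S'' τ σ (L 1) (L m) (θ.comp (trHom2 σ)) hcard hS''c hMD a x
      (hL.le_iter2 m hm n a hx)

end Pool.Agent.DL17
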