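import Pool.Agent.Lib.MP_2b9f9a_al.DL.Stmts17
import Pool.Agent.Lib.MP_2b9f9a_al.PX.Sol49

/-!
# DL17, row D14: the filtration of a group with the virtual copy and the `P_N`.  helper12
-/

set_option autoImplicit false

namespace Pool.Agent.DL17

namespace MF12

open Pool.Agent.PX (lc)
open Pool.Agent.PX.Sol49 (lc_succ lc_normal lc_comm three lc_act)

variable {P : Type} [Group P]

theorem lc_step (w : ℕ) : lc P (w + 1) ≤ lc P w := by
  cases w with
  | zero => exact le_top
  | succ w =>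
    rw [lc_succ]
    have := lc_normal (P := P) (w + 1)
    exact Subgroup.commutator_le_left _ _

theorem lc_anti {a b : ℕ} (h : a ≤ b) : lc P b ≤ lc P a := by
  induction h with
  | refl => exact le_rfl
  | step _ ih => exact (lc_step _).trans ih

theorem lc_add (a b : ℕ) : ⁅lc P a, lc P b⁆ ≤ lc P (a + b) := by
  have := lc_normal (P := P) a
  have := lc_normal (P := P) b
  cases a with
  | zero =>
    rw [Nat.zero_add]
    exact Subgroup.commutator_le_right _ _
  | succ a =>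
    cases b with
    | zero => exact Subgroup.commutator_le_left _ _
    | succ b =>
      have := lc_comm (P := P) b a
      rw [show a + 1 + (b + 1) = a + b + 2 by ring]
      exact this

theorem lc_add' {a b c : ℕ} (h : c ≤ a + b) : ⁅lc P a, lc P b⁆ ≤ lc P c :=
  (lc_add a b).trans (lc_anti h)

theorem sup_comm {ι : Type} (K : ι → Subgroup P) (L M : Subgroup P) [M.Normal]
    (h : ∀ i, ⁅K i, L⁆ ≤ M) : ⁅⨆ i, K i, L⁆ ≤ M := by
  have key : ∀ A : Subgroup P, ⁅A, L⁆ ≤ M ↔ A.map (QuotientGroup.mk' M) ≤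
      Subgroup.centralizer ((L.map (QuotientGroup.mk' M) : Subgroup (P ⧸ M)) : Set (P ⧸ M)) := by
    intro A
    rw [← Subgroup.commutator_eq_bot_iff_le_centralizer, ← Subgroup.map_commutator,
      Subgroup.map_eq_bot_iff, QuotientGroup.ker_mk']
  rw [key, Subgroup.map_iSup]
  exact iSup_le fun i => (key _).1 (h i)

theorem gen {m N a b : ℕ} (ha : m ≤ a) (hb : m ≤ b) (h : N ≤ a + b) :
    ⁅lc P a, lc P b⁆ ≤ PN m P N :=
  le_iSup (fun q : {q : ℕ × ℕ // m ≤ q.1 ∧ m ≤ q.2 ∧ N ≤ q.1 + q.2} =>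
    ⁅lc P q.1.1, lc P q.1.2⁆) ⟨(a, b), ha, hb, h⟩

theorem PN_le {m N : ℕ} {K : Subgroup P}
    (h : ∀ a b, m ≤ a → m ≤ b → N ≤ a + b → ⁅lc P a, lc P b⁆ ≤ K) : PN m P N ≤ K :=
  iSup_le fun q => h q.1.1 q.1.2 q.2.1 q.2.2.1 q.2.2.2

theorem PN_map {m N : ℕ} {f : P →* P} (hf : ∀ w, (lc P w).map f ≤ lc P w) :
    (PN m P N).map f ≤ PN m P N := by
  unfold PN
  rw [Subgroup.map_iSup]
  refine iSup_le fun q => ?_
  rw [Subgroup.map_commutator]
  exact (Subgroup.commutator_mono (hf _) (hf _)).trans (gen q.2.1 q.2.2.1 q.2.2.2)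

theorem PN_normal (m N : ℕ) : (PN m P N).Normal := by
  refine ⟨fun x hx g => ?_⟩
  have h := PN_map (m := m) (N := N) (f := (MulAut.conj g).toMonoidHom)
    (fun w => PX.Sol49.lc_map _ w)
  exact h ⟨x, hx, rfl⟩

theorem PN_comm (m N a : ℕ) : ⁅PN m P N, lc P a⁆ ≤ PN m P (N + a) := by
  have := PN_normal (P := P) m (N + a)
  refine sup_comm _ _ _ fun q => ?_
  obtain ⟨⟨x, y⟩, h1, h2, h3⟩ := q
  simp only at h1 h2 h3 ⊢
  refine three ?_ ?_
  · exact (Subgroup.commutator_mono (lc_add y a) le_rfl).trans (gen (by omega) h1 (by omega))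
  · exact (Subgroup.commutator_mono (lc_add a x) le_rfl).trans (gen (by omega) h2 (by omega))

theorem PN_comm' {m N a n : ℕ} (h : n ≤ N + a) : ⁅PN m P N, lc P a⁆ ≤ PN m P n :=
  (PN_comm m N a).trans (PN_le fun _ _ h1 h2 h3 => gen h1 h2 (by omega))

theorem PN_comm'' {m N a n : ℕ} (h : n ≤ a + N) : ⁅lc P a, PN m P N⁆ ≤ PN m P n := by
  rw [Subgroup.commutator_comm]
  exact PN_comm' (by omega)

theorem PN_step (m N : ℕ) : PN m P (N + 1) ≤ PN m P N :=
  PN_le fun _ _ h1 h2 h3 => gen h1 h2 (by omega)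

variable {m : ℕ}

theorem A0 (a : ℕ) : FA m P (0, a) = lc P a := rfl
theorem A1 (a : ℕ) : FA m P (1, a) = lc P (max a m) := rfl
theorem A2 (a : ℕ) : FA m P (2, a) = PN m P a := rfl
theorem A3 (s a : ℕ) : FA m P (s + 3, a) = ⊤ := by
  unfold FA
  simp
theorem B0 (a : ℕ) : FB m P (0, a) = lc P (a + 1) := rfl
theorem B1 (a : ℕ) : FB m P (1, a) = lc P (max (a + 1) m) := rfl
theorem B2 (a : ℕ) : FB m P (2, a) = PN m P (a + 1) := rfl
theorem B3 (s a : ℕ) : FB m P (s + 3, a) = ⊤ := by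
  unfold FB
  simp

theorem lc_one : lc P 1 = ⊤ := rfl

theorem big3 {s t : ℕ} (h : 3 ≤ s + t) (a b : ℕ) (K : Subgroup P) :
    K ≤ FA m P ((s, a) + (t, b)) ∧ K ≤ FB m P ((s, a) + (t, b)) := by
  obtain ⟨u, hu⟩ : ∃ u, s + t = u + 3 := ⟨s + t - 3, by omega⟩
  have e : ((s, a) + (t, b) : ℕ × ℕ) = (u + 3, a + b) := by
    rw [Prod.mk_add_mk, hu]
  rw [e, A3, B3]
  exact ⟨le_top, le_top⟩

theorem mf : MF (FA m P) (FB m P) where
  nA := by
    rintro ⟨s, a⟩
    match s with
    | 0 => exact lc_normal _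
    | 1 => exact lc_normal _
    | 2 => exact PN_normal _ _
    | s + 3 =>
      rw [A3]
      infer_instance
  nB := by
    rintro ⟨s, a⟩
    match s with
    | 0 => exact lc_normal _
    | 1 => exact lc_normal _
    | 2 => exact PN_normal _ _
    | s + 3 =>
      rw [B3]
      infer_instance
  le := by
    rintro ⟨s, a⟩
    match s with
    | 0 => exact lc_anti (by omega)
    | 1 => exact lc_anti (by omega)
    | 2 => exact PN_step _ _
    | s + 3 =>
      rw [A3]
      exact le_top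
  cent := by
    rintro ⟨s, a⟩
    rw [← lc_one]
    match s with
    | 0 => exact lc_add' (by omega)
    | 1 => exact lc_add' (by omega)
    | 2 => exact PN_comm' (by omega)
    | s + 3 =>
      rw [B3]
      exact le_top
  mul := by
    rintro ⟨s, a⟩ ⟨t, b⟩
    match s, t with
    | 0, 0 => exact lc_add' (by simp)
    | 0, 1 =>
      rw [A0, A1, Prod.mk_add_mk, A1]
      exact lc_add' (by omega)
    | 1, 0 =>
      rw [A0, A1, Prod.mk_add_mk, A1]
      exact lc_add' (by omega)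
    | 1, 1 =>
      rw [A1, A1, Prod.mk_add_mk, A2]
      exact gen (by omega) (by omega) (by omega)
    | 0, 2 =>
      rw [A0, A2, Prod.mk_add_mk, A2]
      exact PN_comm'' (by omega)
    | 2, 0 =>
      rw [A0, A2, Prod.mk_add_mk, A2]
      exact PN_comm' (by omega)
    | 1, 2 => exact (big3 (by omega) _ _ _).1
    | 2, 1 => exact (big3 (by omega) _ _ _).1
    | 2, 2 => exact (big3 (by omega) _ _ _).1
    | s + 3, t => exact (big3 (by omega) _ _ _).1
    | s, t + 3 => exact (big3 (by omega) _ _ _).1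
  mulB := by
    rintro ⟨s, a⟩ ⟨t, b⟩
    match s, t with
    | 0, 0 =>
      rw [A0, B0, Prod.mk_add_mk, B0]
      exact lc_add' (by omega)
    | 0, 1 =>
      rw [A0, B1, Prod.mk_add_mk, B1]
      exact lc_add' (by omega)
    | 1, 0 =>
      rw [A1, B0, Prod.mk_add_mk, B1]
      exact lc_add' (by omega)
    | 1, 1 =>
      rw [A1, B1, Prod.mk_add_mk, B2]
      exact gen (by omega) (by omega) (by omega)
    | 0, 2 =>
      rw [A0, B2, Prod.mk_add_mk, B2]
      exact PN_comm'' (by omega)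
    | 2, 0 =>
      rw [A2, B0, Prod.mk_add_mk, B2]
      exact PN_comm' (by omega)
    | 1, 2 => exact (big3 (by omega) _ _ _).2
    | 2, 1 => exact (big3 (by omega) _ _ _).2
    | 2, 2 => exact (big3 (by omega) _ _ _).2
    | s + 3, t => exact (big3 (by omega) _ _ _).2
    | s, t + 3 => exact (big3 (by omega) _ _ _).2

theorem PN_act {Γ : Type} [Group Γ] [MulDistribMulAction Γ P] (N : ℕ) (γ : Γ) :
    ∀ g ∈ PN m P N, γ • g ∈ PN m P N := by
  intro g hg
  have h := PN_map (m := m) (N := N) (f := MulDistribMulAction.toMonoidHom P γ)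
    (fun w => PX.Sol49.lc_map _ w)
  exact h ⟨g, hg, rfl⟩

end MF12

open MF12 in
/-- row D14 -/
theorem stMF_12 : StMF := by
  intro m Γ P _ _ _ _
  refine ⟨mf, ?_, ?_, fun N => PN_step m N⟩
  · rintro γ ⟨s, a⟩ g hg
    match s with
    | 0 => exact PX.Sol49.lc_act _ γ g hg
    | 1 => exact PX.Sol49.lc_act _ γ g hg
    | 2 => exact PN_act _ γ g hg
    | s + 3 =>
      rw [A3]
      exact Subgroup.mem_top _
  · rintro γ ⟨s, a⟩ g hg
    match s with
    | 0 => exact PX.Sol49.lc_act _ γ g hg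
    | 1 => exact PX.Sol49.lc_act _ γ g hg
    | 2 => exact PN_act _ γ g hg
    | s + 3 =>
      rw [B3]
      exact Subgroup.mem_top _

end Pool.Agent.DL17
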