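import Pool.Agent.Lib.MP_2b9f9a_al.DL.Stmts17

/-!
# D17: nilpotent groups as products of Sylow subgroups.
-/

set_option autoImplicit false

namespace Pool.Agent.DL17

open Pool.Agent.PX (Fro)
open scoped commutatorElement

namespace Nil31

theorem lcs_mono {G : Type} [Group G] {S T : Subgroup G} (h : S ≤ T) (n : ℕ) :
    S.lowerCentralSeries n ≤ T.lowerCentralSeries n := by
  induction n with
  | zero => exact h
  | succ n ih => exact Subgroup.commutator_mono ih h

/-- Lower central series of suprema of commuting normal subgroups. -/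
theorem lcs_iSup {G ι : Type} [Group G] (A : ι → Subgroup G) (hn : ∀ i, (A i).Normal)
    (hc : ∀ i j, i ≠ j → ∀ a ∈ A i, ∀ b ∈ A j, a * b = b * a) (k : ℕ) :
    (⨆ i, A i).lowerCentralSeries k ≤ ⨆ i, (A i).lowerCentralSeries k ∧
      (∀ i, ((A i).lowerCentralSeries k).Normal) ∧ (∀ i, (A i).lowerCentralSeries k ≤ A i) := by
  induction k with
  | zero => exact ⟨le_rfl, hn, fun i => le_rfl⟩
  | succ k ih =>
    obtain ⟨ih1, ih2, ih3⟩ := ih
    have hn' : ∀ i, ((A i).lowerCentralSeries (k + 1)).Normal := by
      intro i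
      have h1 := ih2 i
      have h2 := hn i
      change (⁅(A i).lowerCentralSeries k, A i⁆).Normal
      infer_instance
    refine ⟨?_, hn', ?_⟩
    · change ⁅(⨆ i, A i).lowerCentralSeries k, ⨆ i, A i⁆ ≤ _
      refine (Subgroup.commutator_mono ih1 le_rfl).trans ?_
      rw [Subgroup.commutator_le]
      -- modulo the normal subgroup `N`
      set N : Subgroup G := ⨆ i, (A i).lowerCentralSeries (k + 1) with hNdef
      have hN : N.Normal := by
        have := hn'
        exact Subgroup.iSup_normal _
      let π := QuotientGroup.mk' N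
      have hcomm : ∀ a b : G, ⁅a, b⁆ ∈ N ↔ π a * π b = π b * π a := by
        intro a b
        rw [← QuotientGroup.eq_one_iff, ← commutatorElement_eq_one_iff_mul_comm]
        rfl
      have key : ∀ i j, ∀ a ∈ (A i).lowerCentralSeries k, ∀ b ∈ A j, π a * π b = π b * π a := by
        intro i j a ha b hb
        by_cases hij : i = j
        · subst hij
          rw [← hcomm]
          exact Subgroup.mem_iSup_of_mem i (Subgroup.commutator_mem_commutator ha hb)
        · rw [← map_mul, ← map_mul, hc i j hij a (ih3 i ha) b hb]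
      intro a ha b hb
      rw [hcomm]
      refine Subgroup.iSup_induction (fun i => (A i).lowerCentralSeries k)
        (C := fun a => π a * π b = π b * π a) ha ?_ ?_ ?_
      · intro i a ha
        refine Subgroup.iSup_induction (fun i => A i)
          (C := fun b => π a * π b = π b * π a) hb ?_ ?_ ?_
        · intro j b hb
          exact key i j a ha b hb
        · rw [map_one, mul_one, one_mul]
        · intro x y hx hy
          rw [map_mul, ← mul_assoc, hx, mul_assoc, hy, mul_assoc]
      · rw [map_one, mul_one, one_mul]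
      · intro x y hx hy
        rw [map_mul, mul_assoc, hy, ← mul_assoc, hx, mul_assoc]
    · intro i
      have := ih2 i
      exact (Subgroup.commutator_le_left _ _).trans (ih3 i)

/-- The action on an invariant subgroup. -/
@[reducible] def subAct {Γ P : Type} [Group Γ] [Group P] [MulDistribMulAction Γ P]
    (S : Subgroup P) (hS : ∀ γ : Γ, ∀ g ∈ S, γ • g ∈ S) : MulDistribMulAction Γ S where
  smul γ g := ⟨γ • (g : P), hS γ g g.2⟩
  one_smul g := Subtype.ext (one_smul Γ (g : P))
  mul_smul γ δ g := Subtype.ext (mul_smul γ δ (g : P))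
  smul_mul γ a b := Subtype.ext (smul_mul' γ (a : P) (b : P))
  smul_one γ := Subtype.ext (smul_one γ)

end Nil31

open Nil31

theorem stNil_31 (hPr : StPr) : StNil := by
  intro h c
  obtain ⟨m, hm⟩ := hPr h c
  refine ⟨m, ?_⟩
  intro G _ _ F H hnil hnorm hF hH hfree hfpf hcard hC
  have hnorS : ∀ (p : ℕ) [Fact p.Prime] (P : Sylow p G), (P : Subgroup G).Normal := by
    intro p hp P
    exact (Group.isNilpotent_of_finite_tfae.out 0 3 rfl rfl).1 hnil p hp P
  let ι := {p : ℕ // p ∈ (Nat.card G).primeFactors}
  have hι : ∀ i : ι, Fact (i.1).Prime := fun i => ⟨Nat.prime_of_mem_primeFactors i.2⟩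
  let S : ∀ i : ι, Sylow i.1 G := fun i => default
  have hSn : ∀ i : ι, ((S i : Sylow i.1 G) : Subgroup G).Normal := fun i => by
    have := hι i
    exact hnorS i.1 (S i)
  -- the supremum
  have hsup : (⨆ i : ι, ((S i : Sylow i.1 G) : Subgroup G)) = ⊤ := by
    refine Subgroup.eq_top_of_card_eq _ ?_
    refine Nat.dvd_antisymm (Subgroup.card_subgroup_dvd_card _) ?_
    rw [Nat.dvd_iff_prime_pow_dvd_dvd]
    intro p k hp hk
    by_cases hk0 : k = 0
    · rw [hk0, pow_zero]; exact one_dvd _
    have hpG : p ∣ Nat.card G := (dvd_pow_self p hk0).trans hk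
    have hpm : p ∈ (Nat.card G).primeFactors :=
      Nat.mem_primeFactors.2 ⟨hp, hpG, Nat.card_pos.ne'⟩
    have := hι ⟨p, hpm⟩
    have h1 : p ^ k ∣ Nat.card (S ⟨p, hpm⟩ : Subgroup G) := by
      have h2 := (S ⟨p, hpm⟩).card_eq_multiplicity
      change Nat.card (S ⟨p, hpm⟩ : Subgroup G) = p ^ _ at h2
      rw [h2]
      exact (hp.pow_dvd_iff_dvd_ordProj Nat.card_pos.ne').1 hk
    exact h1.trans (Subgroup.card_dvd_of_le
      (le_iSup (fun i : ι => ((S i : Sylow i.1 G) : Subgroup G)) ⟨p, hpm⟩))
  have hcomm : ∀ i j : ι, i ≠ j → ∀ a ∈ (S i : Subgroup G), ∀ b ∈ (S j : Subgroup G),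
      a * b = b * a := by
    intro i j hij a ha b hb
    have := hι i
    have := hι j
    refine Subgroup.commute_of_normal_of_disjoint _ _ (hSn i) (hSn j) ?_ a b ha hb
    exact IsPGroup.disjoint_of_ne i.1 j.1 (fun e => hij (Subtype.ext e)) _ _ (S i).isPGroup'
      (S j).isPGroup'
  obtain ⟨h1, -, h3⟩ :=
    lcs_iSup (fun i : ι => ((S i : Sylow i.1 G) : Subgroup G)) hSn hcomm m
  rw [hsup] at h1
  -- inside one Sylow subgroup
  have hone : ∀ i : ι, ∀ a ∈ ((S i : Sylow i.1 G) : Subgroup G).lowerCentralSeries m,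
      ∀ b ∈ ((S i : Sylow i.1 G) : Subgroup G).lowerCentralSeries m, a * b = b * a := by
    intro i
    have hp := hι i
    set p := i.1 with hpdef
    set P : Subgroup G := (S i : Subgroup G) with hPdef
    have hPp : IsPGroup p P := (S i).isPGroup'
    have hchar : P.Characteristic := (S i).characteristic_of_normal (hSn i)
    have hst : ∀ γ : MulAut G, ∀ g ∈ P, γ • g ∈ P := by
      intro γ g hg
      have h2 := (Subgroup.characteristic_iff_map_le.1 hchar) γ
      exact h2 ⟨g, hg, rfl⟩
    let _ : MulDistribMulAction (MulAut G) P := subAct P hst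
    have hsm : ∀ (γ : MulAut G) (g : P), ((γ • g : P) : G) = γ (g : G) := fun γ g => rfl
    have hFro : Fro P F H :=
      { norm := hnorm
        fne := hF
        hne := hH
        free := hfree
        fpf := by
          intro y hy hy1 g hg
          have := hfpf y hy hy1 (g : G) (by rw [← hsm, hg])
          exact Subtype.ext this }
    have hCQ : ∀ C : Subgroup P, (∀ g, g ∈ C ↔ ∀ x ∈ H, x • g = g) →
        ∀ x ∈ C.lowerCentralSeries c, ∀ y ∈ C.lowerCentralSeries c, x * y = y * x := by
      intro C hCC x hx y hy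
      let CG : Subgroup G :=
        { carrier := {g | ∀ x ∈ H, x g = g}
          one_mem' := fun x _ => map_one x
          mul_mem' := fun {a b} ha hb x hx => by rw [map_mul, ha x hx, hb x hx]
          inv_mem' := fun {a} ha x hx => by rw [map_inv, ha x hx] }
      have hle : C.map P.subtype ≤ CG := by
        rintro _ ⟨g, hg, rfl⟩ x hx
        have := (hCC g).1 hg x hx
        exact congrArg Subtype.val this
      have hmem : ∀ z ∈ C.lowerCentralSeries c, (z : G) ∈ CG.lowerCentralSeries c := by
        intro z hz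
        refine lcs_mono hle c ?_
        rw [← Subgroup.map_lowerCentralSeries]
        exact ⟨z, hz, rfl⟩
      have := hC CG (fun g => Iff.rfl) _ (hmem x hx) _ (hmem y hy)
      exact Subtype.ext this
    have hV := hm p (MulAut G) P F H hPp hFro hcard hCQ
    intro a ha b hb
    rw [← Subgroup.top_subtype_lowerCentralSeries] at ha hb
    obtain ⟨a', ha', rfl⟩ := ha
    obtain ⟨b', hb', rfl⟩ := hb
    have := hV a' ha' b' hb'
    rw [← map_mul, ← map_mul, this]
  intro x hx y hy
  refine Subgroup.iSup_induction
    (fun i : ι => ((S i : Sylow i.1 G) : Subgroup G).lowerCentralSeries m)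
    (C := fun a => a * y = y * a) (h1 hx) ?_ ?_ ?_
  · intro i a ha
    refine Subgroup.iSup_induction
      (fun i : ι => ((S i : Sylow i.1 G) : Subgroup G).lowerCentralSeries m)
      (C := fun b => a * b = b * a) (h1 hy) ?_ ?_ ?_
    · intro j b hb
      by_cases hij : i = j
      · subst hij
        exact hone i a ha b hb
      · exact hcomm i j hij a (h3 i ha) b (h3 j hb)
    · rw [mul_one, one_mul]
    · intro u v hu hv
      rw [← mul_assoc, hu, mul_assoc, hv, mul_assoc]
  · rw [mul_one, one_mul]
  · intro u v hu hv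
    rw [mul_assoc, hv, ← mul_assoc, hu, mul_assoc]

end Pool.Agent.DL17

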