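import Pool.Agent.Lib.MP_2b9f9a_al.DL.Stmts17

/-!
# DL17, module D6 (helper43): `StPB`

A graded module with zero component trivial on which, for every total weight `t`, only the
letters of weight in `B * t` can act last, is a nilpotent module (bound in terms of `|B|`).
-/

set_option autoImplicit false

namespace Pool.Agent.DL17.PB43

open Pool.Agent.Lib.MP_2b9f9a_al

variable {p : ℕ} {M : Type} [LieRing M]

/-- the total weight of a word -/
def wt (l : List (ZMod p × M)) : ZMod p := (l.map Prod.fst).sum

theorem wact_cons (q : ZMod p × M) (l : List (ZMod p × M)) (x : M) :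
    wact (q :: l) x = wact l ⁅x, q.2⁆ := rfl

theorem wact_append (l l' : List (ZMod p × M)) (x : M) :
    wact (l ++ l') x = wact l' (wact l x) := by
  unfold wact
  rw [List.foldl_append]

theorem wact_sub (l : List (ZMod p × M)) : ∀ x y : M,
    wact l (x - y) = wact l x - wact l y := by
  induction l with
  | nil => intro x y; rfl
  | cons q l ih =>
    intro x y
    rw [wact_cons, wact_cons, wact_cons, sub_lie, ih]

theorem wact_add (l : List (ZMod p × M)) : ∀ x y : M,
    wact l (x + y) = wact l x + wact l y := by
  induction l with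
  | nil => intro x y; rfl
  | cons q l ih =>
    intro x y
    rw [wact_cons, wact_cons, wact_cons, add_lie, ih]

theorem wact_zero (l : List (ZMod p × M)) : wact l (0 : M) = 0 := by
  have := wact_sub l (0 : M) 0
  simpa using this

theorem wact_neg (l : List (ZMod p × M)) (x : M) : wact l (-x) = - wact l x := by
  have := wact_sub l (0 : M) x
  rw [wact_zero, zero_sub, zero_sub] at this
  exact this

theorem wt_cons (q : ZMod p × M) (l : List (ZMod p × M)) : wt (q :: l) = q.1 + wt l := by
  simp [wt]

theorem wt_append (l l' : List (ZMod p × M)) : wt (l ++ l') = wt l + wt l' := by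
  simp [wt]

theorem wt_perm {l l' : List (ZMod p × M)} (h : l.Perm l') : wt l = wt l' := by
  unfold wt
  exact (h.map Prod.fst).sum_eq

theorem wt_const {b : ZMod p} (l : List (ZMod p × M)) (h : ∀ q ∈ l, q.1 = b) :
    wt l = (l.length : ZMod p) * b := by
  induction l with
  | nil => simp [wt]
  | cons q l ih =>
    rw [wt_cons, ih (fun r hr => h r (List.mem_cons_of_mem _ hr)), h q List.mem_cons_self]
    simp only [List.length_cons, Nat.cast_add, Nat.cast_one]
    ring

/-- words act on invariant families -/
theorem wact_mem {X T : Fam (ZMod p) M} (hX : Inv X T) (l : List (ZMod p × M)) :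
    ∀ (a : ZMod p) (x : M), (∀ q ∈ l, q.2 ∈ T q.1) → x ∈ X a → wact l x ∈ X (a + wt l) := by
  induction l with
  | nil => intro a x _ hx; simpa [wact, wt] using hx
  | cons q l ih =>
    intro a x hl hx
    rw [wact_cons, wt_cons, ← add_assoc]
    exact ih _ _ (fun r hr => hl r (List.mem_cons_of_mem _ hr))
      (hX _ _ _ _ hx (hl q List.mem_cons_self))

/-- letters commute modulo `U` -/
theorem wact_perm {X U T : Fam (ZMod p) M} (hX : Inv X T) (hU : Inv U T)
    (hcomm : ∀ a b c x y z, x ∈ X a → y ∈ T b → z ∈ T c → ⁅x, ⁅y, z⁆⁆ ∈ U (a + (b + c)))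
    {l l' : List (ZMod p × M)} (h : l.Perm l') :
    ∀ (a : ZMod p) (x : M), (∀ q ∈ l, q.2 ∈ T q.1) → x ∈ X a →
      wact l x - wact l' x ∈ U (a + wt l) := by
  induction h with
  | nil => intro a x _ _; rw [sub_self]; exact zero_mem _
  | cons q h ih =>
    intro a x hl hx
    rw [wact_cons, wact_cons, wt_cons, ← add_assoc]
    exact ih _ _ (fun r hr => hl r (List.mem_cons_of_mem _ hr))
      (hX _ _ _ _ hx (hl q List.mem_cons_self))
  | swap q r l =>
    intro a x hl hx
    have hr : r.2 ∈ T r.1 := hl r List.mem_cons_self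
    have hq : q.2 ∈ T q.1 := hl q (List.mem_cons_of_mem _ List.mem_cons_self)
    rw [wact_cons, wact_cons, wact_cons, wact_cons, ← wact_sub]
    have e : ⁅⁅x, r.2⁆, q.2⁆ - ⁅⁅x, q.2⁆, r.2⁆ = ⁅x, ⁅r.2, q.2⁆⁆ := by
      rw [leibniz_lie x r.2 q.2, ← lie_skew ⁅x, q.2⁆ r.2]; abel
    rw [e, wt_cons, wt_cons, ← add_assoc r.1, ← add_assoc a]
    exact wact_mem hU l _ _
      (fun s hs => hl s (List.mem_cons_of_mem _ (List.mem_cons_of_mem _ hs)))
      (hcomm _ _ _ _ _ _ hx hr hq)
  | trans h1 h2 ih1 ih2 =>
    intro a x hl hx
    have h3 := ih1 a x hl hx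
    have h4 := ih2 a x (fun q hq => hl q (h1.mem_iff.mpr hq)) hx
    rw [wt_perm h1]
    rw [wt_perm h1] at h3
    have := add_mem h3 h4
    simpa using this

/-- generation of `iter X T n` by words of length `n` -/
theorem iter_words {X T : Fam (ZMod p) M} (n : ℕ) : ∀ (a : ZMod p), iter X T n a ≤
    AddSubgroup.closure {z | ∃ (l : List (ZMod p × M)) (c : ZMod p) (x : M), l.length = n ∧
      (∀ q ∈ l, q.2 ∈ T q.1) ∧ x ∈ X c ∧ c + wt l = a ∧ z = wact l x} := by
  induction n with
  | zero =>
    intro a x hx
    apply AddSubgroup.subset_closure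
    exact ⟨[], a, x, rfl, fun q hq => by simp at hq, hx, by simp [wt], rfl⟩
  | succ n ih =>
    intro a
    apply br_le
    rintro b c x y rfl hx hy
    have hx' := ih _ hx
    clear hx
    induction hx' using AddSubgroup.closure_induction with
    | mem z hz =>
      obtain ⟨l, d, w, hlen, hl, hw, hd, rfl⟩ := hz
      apply AddSubgroup.subset_closure
      refine ⟨l ++ [(c, y)], d, w, by simp [hlen], ?_, hw, ?_, ?_⟩
      · intro q hq
        rw [List.mem_append] at hq
        rcases hq with hq | hq
        · exact hl q hq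
        · rw [List.mem_singleton] at hq
          subst hq
          exact hy
      · rw [wt_append, ← add_assoc, hd]
        simp [wt]
      · rw [wact_append]
        rfl
    | zero => rw [zero_lie]; exact zero_mem _
    | add x y _ _ hx hy => rw [add_lie]; exact add_mem hx hy
    | neg x _ hx => rw [neg_lie]; exact neg_mem hx

/-- counting letters by their weight -/
theorem length_sum {α β : Type} [DecidableEq β] (f : α → β) (S : Finset β) (l : List α)
    (h : ∀ a ∈ l, f a ∈ S) :
    l.length = ∑ v ∈ S, (l.filter (fun a => decide (f a = v))).length := by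
  induction l with
  | nil => simp
  | cons a l ih =>
    have h1 := ih (fun b hb => h b (List.mem_cons_of_mem _ hb))
    have h2 : ∀ v, ((a :: l).filter (fun a => decide (f a = v))).length =
        (l.filter (fun a => decide (f a = v))).length + if f a = v then 1 else 0 := by
      intro v
      by_cases hv : f a = v
      · simp [hv]
      · simp [hv]
    rw [List.length_cons, h1]
    simp_rw [h2]
    rw [Finset.sum_add_distrib, Finset.sum_ite_eq, if_pos (h a List.mem_cons_self)]

/-- The abelian case. -/
theorem ab43 [Fact p.Prime] (N : ℕ) (B : Finset (ZMod p)) (hB : B.card ≤ N)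
    (T : Fam (ZMod p) M) (hT0 : ∀ x ∈ T 0, x = 0) (X U : Fam (ZMod p) M) (hXT : Inv X T)
    (hUT : Inv U T) (hX0 : X 0 ≤ U 0)
    (hcomm : ∀ a b c x y z, x ∈ X a → y ∈ T b → z ∈ T c → ⁅x, ⁅y, z⁆⁆ ∈ U (a + (b + c)))
    (hPB : ∀ t b : ZMod p, (∀ β ∈ B, b ≠ β * t) → ∀ z ∈ X (t - b), ∀ u ∈ T b, ⁅z, u⁆ ∈ U t) :
    iter X T (N * N + 1) ≤ U := by
  classical
  intro t
  refine (iter_words (N * N + 1) t).trans ?_
  rw [AddSubgroup.closure_le]
  rintro z ⟨l, c, x, hlen, hl, hx, hct, rfl⟩
  show wact l x ∈ U t
  -- reduction to a permuted word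
  have hperm : ∀ l' : List (ZMod p × M), l.Perm l' → wact l' x ∈ U t → wact l x ∈ U t := by
    intro l' hll' h
    have h1 := wact_perm hXT hUT hcomm hll' c x hl hx
    rw [hct] at h1
    have := add_mem h1 h
    simpa using this
  by_cases hall : ∀ q ∈ l, q.1 ∈ B.image (fun β => β * t)
  · -- all weights in `B t`: some weight occurs often
    have hsum := length_sum Prod.fst (B.image (fun β => β * t)) l hall
    obtain ⟨b, _, hb⟩ : ∃ b ∈ B.image (fun β => β * t),
        N < (l.filter (fun q => decide (q.1 = b))).length := by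
      by_contra hcon
      simp only [not_exists, not_and, not_lt] at hcon
      have h1 : l.length ≤ ∑ v ∈ B.image (fun β => β * t), N := by
        rw [hsum]
        exact Finset.sum_le_sum hcon
      rw [Finset.sum_const, smul_eq_mul, hlen] at h1
      have h2 : (B.image (fun β => β * t)).card ≤ N := Finset.card_image_le.trans hB
      have h3 := Nat.mul_le_mul_right N h2
      omega
    -- move these letters to the end
    set l₂ := l.filter (fun q => decide (q.1 = b)) with hl₂
    set l₁ := l.filter (fun q => !decide (q.1 = b)) with hl₁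
    have hp : l.Perm (l₁ ++ l₂) :=
      ((List.filter_append_perm (fun q => decide (q.1 = b)) l).symm).trans List.perm_append_comm
    have hl₂b : ∀ q ∈ l₂, q.1 = b := by
      intro q hq
      have := (List.mem_filter.mp hq).2
      simpa using this
    have hl₂T : ∀ q ∈ l₂, q.2 ∈ T q.1 := fun q hq => hl q (List.mem_filter.mp hq).1
    have hl₁T : ∀ q ∈ l₁, q.2 ∈ T q.1 := fun q hq => hl q (List.mem_filter.mp hq).1
    apply hperm _ hp
    have hwt : c + wt (l₁ ++ l₂) = t := by rw [← wt_perm hp, hct]
    -- it suffices that one of the last prefixes is in `U`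
    have hpre : ∀ j : ℕ, j ≤ l₂.length →
        wact (l₁ ++ l₂.take (l₂.length - j)) x ∈ U (t - (j : ZMod p) * b) →
        wact (l₁ ++ l₂) x ∈ U t := by
      intro j hj h
      have e : l₁ ++ l₂ = (l₁ ++ l₂.take (l₂.length - j)) ++ l₂.drop (l₂.length - j) := by
        rw [List.append_assoc, List.take_append_drop]
      rw [e, wact_append]
      have h1 := wact_mem hUT (l₂.drop (l₂.length - j)) _ _
        (fun q hq => hl₂T q (List.mem_of_mem_drop hq)) h
      rw [wt_const _ (fun q hq => hl₂b q (List.mem_of_mem_drop hq)), List.length_drop] at h1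
      have e2 : l₂.length - (l₂.length - j) = j := by omega
      rw [e2, sub_add_cancel] at h1
      exact h1
    have hX : ∀ j : ℕ, j ≤ l₂.length →
        wact (l₁ ++ l₂.take (l₂.length - j)) x ∈ X (t - (j : ZMod p) * b) := by
      intro j hj
      have h1 := wact_mem hXT (l₁ ++ l₂.take (l₂.length - j)) c x (by
        intro q hq
        rw [List.mem_append] at hq
        rcases hq with hq | hq
        · exact hl₁T q hq
        · exact hl₂T q (List.mem_of_mem_take hq)) hx
      have e : c + wt (l₁ ++ l₂.take (l₂.length - j)) = t - (j : ZMod p) * b := by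
        rw [← hwt]
        have e1 : l₂ = l₂.take (l₂.length - j) ++ l₂.drop (l₂.length - j) :=
          (List.take_append_drop _ _).symm
        have e2 : wt l₂ = wt (l₂.take (l₂.length - j)) + (j : ZMod p) * b := by
          conv_lhs => rw [e1]
          rw [wt_append, wt_const (l₂.drop (l₂.length - j))
            (fun q hq => hl₂b q (List.mem_of_mem_drop hq)), List.length_drop]
          congr 3
          omega
        rw [wt_append, wt_append, e2]
        ring
      rw [e] at h1
      exact h1
    by_cases hb0 : b = 0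
    · -- the last letter is zero
      apply hpre 0 (Nat.zero_le _)
      have h1 := hX 1 (by omega)
      have hlast : ∃ q ∈ l₂, l₂.take (l₂.length - 0) = l₂.take (l₂.length - 1) ++ [q] := by
        have hne : l₂ ≠ [] := by
          intro h
          rw [h] at hb
          simp at hb
        refine ⟨l₂.getLast hne, List.getLast_mem hne, ?_⟩
        rw [Nat.sub_zero, List.take_length, ← List.dropLast_eq_take,
          List.dropLast_append_getLast hne]
      obtain ⟨q, hq, hq'⟩ := hlast
      rw [hq', ← List.append_assoc, wact_append]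
      have h2 : q.2 = 0 := by
        apply hT0
        have := hl₂T q hq
        rwa [hl₂b q hq, hb0] at this
      show ⁅wact (l₁ ++ l₂.take (l₂.length - 1)) x, q.2⁆ ∈ _
      rw [h2, lie_zero]
      exact zero_mem _
    · -- some prefix is in `U`
      by_cases hgood : ∃ j ≤ N, ∀ β ∈ B, b ≠ β * (t - (j : ZMod p) * b)
      · obtain ⟨j, hj, hβ⟩ := hgood
        apply hpre j (by omega)
        have h1 := hX (j + 1) (by omega)
        have hlast : ∃ q ∈ l₂,
            l₂.take (l₂.length - j) = l₂.take (l₂.length - (j + 1)) ++ [q] := by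
          have hlt : l₂.length - (j + 1) < l₂.length := by omega
          refine ⟨l₂[l₂.length - (j + 1)], List.getElem_mem hlt, ?_⟩
          have e : l₂.length - j = (l₂.length - (j + 1)) + 1 := by omega
          rw [e, List.take_add_one, List.getElem?_eq_getElem hlt]
          rfl
        obtain ⟨q, hq, hq'⟩ := hlast
        rw [hq', ← List.append_assoc, wact_append]
        show ⁅wact (l₁ ++ l₂.take (l₂.length - (j + 1))) x, q.2⁆ ∈ _
        apply hPB _ b hβ
        · have e : t - ((j + 1 : ℕ) : ZMod p) * b = t - (j : ZMod p) * b - b := by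
            push_cast; ring
          rw [e] at h1
          exact h1
        · have := hl₂T q hq
          rwa [hl₂b q hq] at this
      · simp only [not_exists, not_and, not_forall, not_not] at hgood
        by_cases hpN : p ≤ N
        · -- some prefix has weight zero
          have hlt := ZMod.val_lt (t / b)
          apply hpre (t / b).val (by omega)
          have h1 := hX (t / b).val (by omega)
          have e : t - (((t / b).val : ℕ) : ZMod p) * b = 0 := by
            rw [ZMod.natCast_val, ZMod.cast_id', id_eq, div_mul_cancel₀ _ hb0, sub_self]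
          rw [e] at h1 ⊢
          exact hX0 h1
        · exfalso
          choose! β hβB hβ using hgood
          have hinj : Set.InjOn β (Finset.range (N + 1) : Set ℕ) := by
            intro i hi j hj hij
            simp only [Finset.coe_range, Set.mem_Iio] at hi hj
            have h1 := hβ i (by omega)
            have h2 := hβ j (by omega)
            rw [hij] at h1
            have hβ0 : β j ≠ 0 := by
              intro h
              rw [h, zero_mul] at h2
              exact hb0 h2
            have h3 : t - (i : ZMod p) * b = t - (j : ZMod p) * b := by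
              apply mul_left_cancel₀ hβ0
              rw [← h1, ← h2]
            have h4 : (i : ZMod p) * b = (j : ZMod p) * b := sub_right_injective h3
            have h5 : (i : ZMod p) = (j : ZMod p) := mul_right_cancel₀ hb0 h4
            rw [ZMod.natCast_eq_natCast_iff'] at h5
            rwa [Nat.mod_eq_of_lt (by omega), Nat.mod_eq_of_lt (by omega)] at h5
          have hcard := Finset.card_le_card_of_injOn (s := Finset.range (N + 1)) (t := B) β
            (by
              intro j hj
              simp only [Finset.coe_range, Set.mem_Iio] at hj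
              exact hβB j (by omega)) hinj
          rw [Finset.card_range] at hcard
          omega
  · -- some letter has a weight outside `B t`: move it to the end
    simp only [not_forall] at hall
    obtain ⟨q, hq, hqB⟩ := hall
    have hp : l.Perm (l.erase q ++ [q]) :=
      (List.perm_cons_erase hq).trans (List.perm_append_singleton q (l.erase q)).symm
    apply hperm _ hp
    rw [wact_append]
    show ⁅wact (l.erase q) x, q.2⁆ ∈ U t
    have h1 := wact_mem hXT (l.erase q) c x (fun r hr => hl r (List.mem_of_mem_erase hr)) hx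
    have e : c + wt (l.erase q) = t - q.1 := by
      have h2 := wt_perm hp
      rw [wt_append] at h2
      have h3 : wt [q] = q.1 := by simp [wt]
      rw [h3] at h2
      rw [← hct, h2]
      ring
    rw [e] at h1
    apply hPB t q.1 _ _ h1 _ (hl q hq)
    intro β hβ h
    apply hqB
    rw [Finset.mem_image]
    exact ⟨β, hβ, h.symm⟩

/-- the bound -/
def mB (N : ℕ) : ℕ → ℕ
  | 0 => 1
  | (k+1) => mB N k * (N * N + 1)

theorem solv43 [Fact p.Prime] (N : ℕ) (B : Finset (ZMod p)) (hB : B.card ≤ N)
    (X U : Fam (ZMod p) M) (hUX : U ≤ X) (hX0 : X 0 ≤ U 0) (k : ℕ) :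
    ∀ (T : Fam (ZMod p) M), IsSub T → Inv X T → Inv U T →
      (∀ t b : ZMod p, (∀ β ∈ B, b ≠ β * t) → ∀ z ∈ X (t - b), ∀ u ∈ T b, ⁅z, u⁆ ∈ U t) →
      (∀ a b x y, x ∈ X a → y ∈ der T k b → ⁅x, y⁆ ∈ U (a + b)) →
      iter X T (mB N k) ≤ U := by
  induction k with
  | zero =>
    intro T hT hXT hUT hPB hk
    simp only [mB, iter]
    intro a
    apply br_le
    rintro b c x y rfl hx hy
    exact hk _ _ _ _ hx hy
  | succ k ih =>
    intro T hT hXT hUT hPB hk
    set T' : Fam (ZMod p) M := br T T with hT'
    have hT'sub : IsSub T' := hT.br_self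
    have hT'T : T' ≤ T := hT.br_self_le
    have h1 : iter X T' (mB N k) ≤ U := by
      apply ih T' hT'sub
      · intro a b x y hx hy; exact hXT _ _ _ _ hx (hT'T _ hy)
      · intro a b x y hx hy; exact hUT _ _ _ _ hx (hT'T _ hy)
      · intro t b hβ z hz u hu; exact hPB t b hβ z hz u (hT'T _ hu)
      · intro a b x y hx hy
        apply hk _ _ _ _ hx
        rw [Nat.add_comm, der_add]
        exact hy
    set R := rel X T' U with hR
    have hRX : ∀ i, R i ≤ X := fun i => rel_le hT'T hXT hUX i
    have hRT : ∀ i, ∀ a b x y, x ∈ R i a → y ∈ T b → ⁅x, y⁆ ∈ R i (a + b) := by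
      apply rel_inv hXT hUT
      intro i a b d x t s hx ht hs
      apply (le_sup_left : br (R i) T' ≤ br (R i) T' ⊔ U)
      exact mem_br hx (mem_br (hT'T _ ht) hs)
    have hstep : ∀ i, iter (R i) T (N * N + 1) ≤ R (i+1) := by
      intro i
      apply ab43 N B hB T hT.zero (R i) (R (i+1)) (hRT i) (hRT (i+1))
      · exact ((hRX i) 0).trans (hX0.trans ((U_le_rel hUX (i+1)) 0))
      · intro a b d x y z hx hy hz
        apply (le_sup_left : br (R i) T' ≤ br (R i) T' ⊔ U)
        exact mem_br hx (mem_br hy hz)
      · intro t b hβ z hz u hu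
        exact U_le_rel hUX (i+1) _ (hPB t b hβ z (hRX i _ hz) u hu)
    have hchain := iter_chain (X := X) (T := T) (R := R) (m := N * N + 1) le_rfl hstep (mB N k)
    refine hchain.trans ?_
    have hRiter : ∀ i, R i ≤ iter X T' i ⊔ U := by
      intro i
      induction i with
      | zero => exact le_sup_left
      | succ i ihi =>
        refine sup_le ?_ le_sup_right
        intro a
        apply br_le
        rintro b c x y rfl hx hy
        have hx' := ihi _ hx
        rw [mem_sup_fam] at hx'
        obtain ⟨u, hu, v, hv, rfl⟩ := hx'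
        rw [add_lie]
        apply add_mem
        · exact (le_sup_left : iter X T' (i+1) ≤ _) _ (mem_br hu hy)
        · exact (le_sup_right : U ≤ iter X T' (i+1) ⊔ U) _ (hUT _ _ _ _ hv (hT'T _ hy))
    exact (hRiter _).trans (sup_le h1 le_rfl)

/-- `[z, y] = 0` for `y` in the subring generated by the components outside `B t`, if the total
weight is `t`. -/
theorem gen_kill {T Z : Fam (ZMod p) M} (hT : IsSub T) (hZ : Inv Z T) (t : ZMod p)
    (S : Set (ZMod p)) (h : ∀ b ∈ S, ∀ z ∈ Z (t - b), ∀ u ∈ T b, ⁅z, u⁆ = 0)
    (b : ZMod p) (y : M) (hy : Gen T S b y) : y ∈ T b ∧ ∀ z ∈ Z (t - b), ⁅z, y⁆ = 0 := by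
  induction hy with
  | of hc hx => exact ⟨hx, fun z hz => h _ hc z hz _ hx⟩
  | zero => exact ⟨zero_mem _, fun z _ => lie_zero z⟩
  | add _ _ ih ih' =>
    exact ⟨add_mem ih.1 ih'.1, fun z hz => by rw [lie_add, ih.2 z hz, ih'.2 z hz, add_zero]⟩
  | neg _ ih => exact ⟨neg_mem ih.1, fun z hz => by rw [lie_neg, ih.2 z hz, neg_zero]⟩
  | @lie c d u v _ _ ih ih' =>
    refine ⟨hT.lie _ _ _ _ ih.1 ih'.1, fun z hz => ?_⟩
    have e : ⁅z, ⁅u, v⁆⁆ = ⁅⁅z, u⁆, v⁆ - ⁅⁅z, v⁆, u⁆ := by
      rw [leibniz_lie z u v, ← lie_skew ⁅z, v⁆ u]; abel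
    have h1 : ⁅⁅z, u⁆, v⁆ = 0 := by
      apply ih'.2
      have := hZ _ _ _ _ hz ih.1
      have e1 : t - (c + d) + c = t - d := by ring
      rwa [e1] at this
    have h2 : ⁅⁅z, v⁆, u⁆ = 0 := by
      apply ih.2
      have := hZ _ _ _ _ hz ih'.1
      have e1 : t - (c + d) + d = t - c := by ring
      rwa [e1] at this
    rw [e, h1, h2, sub_zero]

end Pool.Agent.DL17.PB43

namespace Pool.Agent.DL17

open Pool.Agent.Lib.MP_2b9f9a_al PB43

/-- D6. -/
theorem stPB_43 : StPB := by
  classical
  intro N
  refine ⟨mB N (sBound N), ?_⟩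
  intro p _ M _ T Z B hB hT hZ0 hZT hPB
  have key : iter Z T (mB N (sBound N)) ≤ (fun _ => ⊥ : Fam (ZMod p) M) := by
    apply solv43 N B hB Z (fun _ => ⊥) (fun a => bot_le) _ (sBound N) T hT hZT
    · intro a b x y hx _
      rw [AddSubgroup.mem_bot] at hx ⊢
      rw [hx, zero_lie]
    · intro t b hβ z hz u hu
      rw [AddSubgroup.mem_bot]
      exact hPB t b hβ z hz u hu
    · intro a b x y hx hy
      rw [AddSubgroup.mem_bot]
      have h1 := avoid N T hT (B.image (fun β => β * (a + b)))
        (Finset.card_image_le.trans hB) _ hy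
      have h2 := gen_kill hT hZT (a + b) (↑(B.image (fun β => β * (a + b))))ᶜ (by
        intro c hc z hz u hu
        apply hPB (a + b) c _ z hz u hu
        intro β hβ h
        apply hc
        rw [Finset.mem_coe, Finset.mem_image]
        exact ⟨β, hβ, h.symm⟩) b y h1
      apply h2.2
      rwa [add_sub_cancel_right]
    · intro x hx
      rw [AddSubgroup.mem_bot]
      exact hZ0 x hx
  intro a z hz
  have := key a hz
  rwa [AddSubgroup.mem_bot] at this

end Pool.Agent.DL17
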