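import Pool.Agent.Lib.MP_2b9f9a_al.DL.Stmts17
import Pool.Agent.Lib.MP_2b9f9a_al.PX.Gr_96

/-!
# D16: the theorem for `r`-groups, from D12, D13, D14 and D15.
-/

set_option autoImplicit false

namespace Pool.Agent.DL17

open Pool.Agent.Lib.MP_2b9f9a_al
open Pool.Agent.PX (Fro lc)

namespace Pr86

theorem lc_top {P : Type} [Group P] : ∀ n : ℕ,
    (⊤ : Subgroup P).lowerCentralSeries n = lc P (n + 1)
  | 0 => rfl
  | n + 1 => by
    rw [Subgroup.lowerCentralSeries_succ, lc_top n]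
    rfl

theorem lc_anti {P : Type} [Group P] {i j : ℕ} (hi : 1 ≤ i) (hij : i ≤ j) : lc P j ≤ lc P i := by
  obtain ⟨a, rfl⟩ : ∃ a, i = a + 1 := ⟨i - 1, by omega⟩
  obtain ⟨b, rfl⟩ : ∃ b, j = b + 1 := ⟨j - 1, by omega⟩
  rw [← lc_top, ← lc_top]
  exact Subgroup.lowerCentralSeries_antitone _ (by omega)

theorem PN_le {P : Type} [Group P] {m N : ℕ} {K : Subgroup P}
    (h : ∀ a b, m ≤ a → m ≤ b → N ≤ a + b → ⁅lc P a, lc P b⁆ ≤ K) : PN m P N ≤ K := by
  unfold PN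
  exact iSup_le fun q => h q.1.1 q.1.2 q.2.1 q.2.2.1 q.2.2.2

theorem le_PN {P : Type} [Group P] {m N a b : ℕ} (ha : m ≤ a) (hb : m ≤ b) (hab : N ≤ a + b) :
    ⁅lc P a, lc P b⁆ ≤ PN m P N := by
  unfold PN
  exact le_iSup (fun q : {q : ℕ × ℕ // m ≤ q.1 ∧ m ≤ q.2 ∧ N ≤ q.1 + q.2} =>
    ⁅lc P q.1.1, lc P q.1.2⁆) ⟨(a, b), ha, hb, hab⟩

end Pr86

open Pr86 in
/-- D16. -/
theorem stPr_86 (hGL : StGL) (hMF : StMF) (hGrp : StGrp) (hWF : StWF) : StPr := by
  intro h c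
  obtain ⟨m, N, hm, hW⟩ := hWF h c
  refine ⟨max m N, ?_⟩
  intro r _ Γ P _ _ _ _ _ F H hP hF hcard hC
  obtain ⟨hmf, hA, hB, hdec⟩ := hMF m Γ P hm
  obtain ⟨W, _, cls, act, hG⟩ := hGL P (ℕ × ℕ) Γ (FA m P) (FB m P) hmf hA hB
  obtain ⟨hfpf, L, ι, hWd, h1, h2⟩ := hGrp m c r Γ P W F H cls act hm hP hF hC hG
  have key := hW W Γ act F H L ι hF.norm hF.fne hF.hne hF.free hfpf hcard hWd
  have hFA1 : ∀ i, m ≤ i → FA m P (1, i) = lc P i := by
    intro i hi
    simp [FA, max_eq_left hi]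
  have hFB2 : ∀ n, FB m P (2, n) = PN m P (n + 1) := by
    intro n
    simp [FB]
  have step : ∀ i j, m ≤ i → m ≤ j → N ≤ i + j → ⁅lc P i, lc P j⁆ ≤ PN m P (i + j + 1) := by
    intro i j hi hj hij
    rw [Subgroup.commutator_le]
    intro g hg g' hg'
    have h3 := key i j hi hj hij _ (h1 i (by omega) g hg) _ (h1 j (by omega) g' hg')
    have hgA : g ∈ FA m P (1, i) := by rw [hFA1 i hi]; exact hg
    have hgA' : g' ∈ FA m P (1, j) := by rw [hFA1 j hj]; exact hg'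
    rw [h2 i hi g hg, h2 j hj g' hg', hG.brk (1, i) (1, j) g hgA g' hgA'] at h3
    have hmem : g * g' * g⁻¹ * g'⁻¹ ∈ FA m P ((1, i) + (1, j)) :=
      hmf.mul (1, i) (1, j) (Subgroup.commutator_mem_commutator hgA hgA')
    have h4 := (hG.zero ((1, i) + (1, j)) _ hmem).1 h3
    have h5 : ((1, i) + (1, j) : ℕ × ℕ) = (2, i + j) := rfl
    rw [h5, hFB2] at h4
    rw [commutatorElement_def]
    exact h4
  have hanti : ∀ {a b : ℕ}, a ≤ b → PN m P b ≤ PN m P a := fun {a b} hab =>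
    antitone_nat_of_succ_le hdec hab
  have stepN : ∀ n, N ≤ n → PN m P n ≤ PN m P (n + 1) := by
    intro n hn
    refine PN_le fun a b ha hb hab => ?_
    exact (step a b ha hb (hn.trans hab)).trans (hanti (by omega))
  have allN : ∀ k, PN m P N ≤ PN m P (N + k) := by
    intro k
    induction k with
    | zero => exact le_rfl
    | succ k ih => exact ih.trans (stepN (N + k) (by omega))
  have hnil : Group.IsNilpotent P := hP.isNilpotent
  obtain ⟨n, hn⟩ := (Group.isNilpotent_top.symm.trans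
    (Subgroup.isNilpotent_iff_lowerCentralSeries (⊤ : Subgroup P))).1 hnil
  rw [lc_top] at hn
  have hbot : PN m P N = ⊥ := by
    refine le_bot_iff.1 ((allN (2 * n + 2)).trans (PN_le fun a b ha hb hab => ?_))
    have h6 : n + 1 ≤ a ∨ n + 1 ≤ b := by omega
    rcases h6 with h6 | h6
    · have h7 : lc P a = ⊥ := le_bot_iff.1 ((lc_anti (by omega) h6).trans hn.le)
      rw [h7, Subgroup.commutator_bot_left]
    · have h7 : lc P b = ⊥ := le_bot_iff.1 ((lc_anti (by omega) h6).trans hn.le)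
      rw [h7, Subgroup.commutator_bot_right]
  intro x hx y hy
  rw [lc_top] at hx hy
  have h8 := le_PN (m := m) (N := N) (a := max m N + 1) (b := max m N + 1) (by omega) (by omega)
    (by omega) (Subgroup.commutator_mem_commutator hx hy)
  rw [hbot, Subgroup.mem_bot, commutatorElement_eq_one_iff_mul_comm] at h8
  exact h8

end Pool.Agent.DL17
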