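import Pool.Agent.Lib.MP_2b9f9a_al.DL.Stmts17

/-!
# D9: selectivity of the virtual copy.
-/

set_option autoImplicit false

namespace Pool.Agent.DL17

open Pool.Agent.Lib.MP_2b9f9a_al

namespace Sel17

variable {p : ℕ} {M Γ : Type} [LieRing M] [Group Γ] [Fintype Γ]

theorem fil_le {τ : Γ →* (ZMod p)ˣ} {σ : Γ →* AddMonoid.End M} {L : ℕ → Fam (ZMod p) M}
    (hF : Fil τ σ L) {m n : ℕ} (hm : 1 ≤ m) (hmn : m ≤ n) : L n ≤ L m := by
  induction hmn with
  | refl => exact le_rfl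
  | @step k hk ih => exact (hF.le k (hm.trans hk)).trans ih

theorem trc_dec {τ : Γ →* (ZMod p)ˣ} {σ : Γ →* AddMonoid.End M} {L : ℕ → Fam (ZMod p) M}
    (hF : Fil τ σ L) (k : ℕ) : ∀ z ∈ trc σ (L 1) k, ∃ (I : Type) (_ : Fintype I) (w : I → ZMod p)
      (f : I → M), Fintype.card I = (Fintype.card Γ) ^ (k + 1) ∧ (∀ i, f i ∈ L 1 (w i)) ∧
      z = ∑ i, f i := by
  induction k with
  | zero =>
    rintro z ⟨a, u, hu, rfl⟩
    refine ⟨Γ, inferInstance, fun g => ((τ g : (ZMod p)ˣ) : ZMod p) * a, fun g => σ g u, by simp, ?_, rfl⟩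
    intro g
    exact (hF.act 1 le_rfl).map g a u hu
  | succ k ih =>
    rintro z ⟨y, hy, b, u, hu, rfl⟩
    obtain ⟨I, _, w, f, hI, hf, rfl⟩ := ih y hy
    refine ⟨I × Γ, inferInstance, fun q => w q.1 + ((τ q.2 : (ZMod p)ˣ) : ZMod p) * b,
      fun q => ⁅f q.1, σ q.2 u⁆, ?_, ?_, ?_⟩
    · rw [Fintype.card_prod, hI, pow_succ _ (k + 1)]
    · rintro ⟨i, g⟩
      exact hF.sub.lie _ _ _ _ (hf i) ((hF.act 1 le_rfl).map g b u hu)
    · unfold tr
      rw [sum_lie, Fintype.sum_prod_type]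
      exact Finset.sum_congr rfl fun i _ => lie_sum _ _ _

/-- the additive map `y ↦ P t ⁅ι y, z⁆` -/
def th (ι P : AddMonoid.End M) (z : M) : M →+ M where
  toFun y := P ⁅ι y, z⁆
  map_zero' := by rw [map_zero, zero_lie, map_zero]
  map_add' x y := by rw [map_add, add_lie, map_add]

theorem th_apply (ι P : AddMonoid.End M) (z y : M) : th ι P z y = P ⁅ι y, z⁆ := rfl

end Sel17

open Sel17 in
theorem stSel_17 (hLT : StLT) : StSel := by
  classical
  intro h c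
  obtain ⟨m₀, hm₀, H⟩ := hLT h c (h ^ (c + 1) + h)
  refine ⟨m₀, hm₀, ?_⟩
  intro m hm p _ M Γ _ _ _ τ σ L ι E P hcard hV a b hind x hx y hy
  have hF := hV.fil
  have hx0 : x ∈ L m₀ a := fil_le hF hm₀ hm a hx
  have hy0 : y ∈ L m₀ b := fil_le hF hm₀ hm b hy
  have hL1 : L m₀ ≤ L 1 := fil_le hF le_rfl hm₀
  -- first variable
  have h1 : ∀ t, ∀ z ∈ trc σ (L 1) c, ∀ a', ∀ x' ∈ L m₀ a', P t ⁅ι (tr σ x'), ι z⁆ = 0 := by
    intro t z hz
    obtain ⟨I, _, w, f, hI, hf, hzf⟩ := trc_dec hF c z hz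
    have hcardS : (Finset.univ.image fun i => t - w i).card ≤ h ^ (c + 1) + h := by
      refine Finset.card_image_le.trans ?_
      rw [Finset.card_univ, hI, hcard]
      exact Nat.le_add_right _ _
    refine H p M M Γ _ τ σ L (th ι (P t) (ι z)) hcard hcardS hF ?_ ?_
    · intro a' ha' x' hx'
      rw [th_apply, hzf, map_sum, lie_sum, map_sum]
      refine Finset.sum_eq_zero fun i _ => ?_
      refine hV.Pne (a' + w i) t _ (hV.esub.lie _ _ _ _ (hV.ιE _ _ hx') (hV.ιE _ _ (hf i))) ?_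
      intro e
      apply ha'
      rw [Finset.mem_image]
      exact ⟨i, Finset.mem_univ _, by rw [← e]; ring⟩
    · intro z' hz'
      rw [th_apply, hV.ex z' hz' z hz, map_zero]
  -- second variable
  have h2 : ∀ t, P t ⁅ι (tr σ y), ι (tr σ x)⁆ = 0 := by
    intro t
    have hcardS : (Finset.univ.image fun g => t - ((τ g : (ZMod p)ˣ) : ZMod p) * a).card
        ≤ h ^ (c + 1) + h := by
      refine Finset.card_image_le.trans ?_
      rw [Finset.card_univ, hcard]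
      exact Nat.le_add_left _ _
    refine H p M M Γ _ τ σ L (th ι (P t) (ι (tr σ x))) hcard hcardS hF ?_ ?_ b y hy0
    · intro a' ha' x' hx'
      have htr : ι (tr σ x) = ∑ g, ι (σ g x) := by unfold tr; rw [map_sum]
      rw [th_apply, htr, lie_sum, map_sum]
      refine Finset.sum_eq_zero fun g _ => ?_
      have hgx : σ g x ∈ L 1 (((τ g : (ZMod p)ˣ) : ZMod p) * a) :=
        (hF.act 1 le_rfl).map g a x (hL1 a hx0)
      refine hV.Pne (a' + ((τ g : (ZMod p)ˣ) : ZMod p) * a) t _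
        (hV.esub.lie _ _ _ _ (hV.ιE _ _ hx') (hV.ιE _ _ hgx)) ?_
      intro e
      apply ha'
      rw [Finset.mem_image]
      exact ⟨g, Finset.mem_univ _, by rw [← e]; ring⟩
    · intro z hz
      rw [th_apply, ← lie_skew, map_neg, h1 t z hz a x hx0, neg_zero]
  -- conclusion
  have hgx : ∀ g, ι (σ g x) ∈ E (((τ g : (ZMod p)ˣ) : ZMod p) * a) := fun g =>
    hV.ιE _ _ ((hF.act 1 le_rfl).map g a x (hL1 a hx0))
  have hgy : ∀ g, ι (σ g y) ∈ E (((τ g : (ZMod p)ˣ) : ZMod p) * b) := fun g =>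
    hV.ιE _ _ ((hF.act 1 le_rfl).map g b y (hL1 b hy0))
  have h3 := h2 (a + b)
  have htx : ι (tr σ x) = ∑ g, ι (σ g x) := by unfold tr; rw [map_sum]
  have hty : ι (tr σ y) = ∑ g, ι (σ g y) := by unfold tr; rw [map_sum]
  have hone : ∀ g : Γ, ((τ g : (ZMod p)ˣ) : ZMod p) = 1 → g = 1 := by
    intro g hg
    apply hF.inj
    rw [map_one]
    exact Units.ext hg
  rw [htx, hty, sum_lie, map_sum, Finset.sum_eq_single (1 : Γ), lie_sum, map_sum,
    Finset.sum_eq_single (1 : Γ)] at h3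
  · rw [map_one σ] at h3
    have h4 : ⁅ι y, ι x⁆ ∈ E (a + b) := by
      rw [add_comm a b]
      exact hV.esub.lie _ _ _ _ (hV.ιE _ _ (hL1 b hy0)) (hV.ιE _ _ (hL1 a hx0))
    have h5 : ⁅ι y, ι x⁆ = 0 := hV.Pinj _ _ h4 h3
    rw [← lie_skew, h5, neg_zero]
  · intro g _ hg
    refine hV.Pne _ _ _ (hV.esub.lie _ _ _ _ (hgy 1) (hgx g)) ?_
    intro e
    apply hg
    apply hone
    refine (hind _ ⟨g, rfl⟩ _ ⟨1, rfl⟩ ?_).1
    rw [← e]; ring
  · intro h'; exact absurd (Finset.mem_univ _) h'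
  · intro g _ hg
    rw [lie_sum, map_sum]
    refine Finset.sum_eq_zero fun g' _ => ?_
    refine hV.Pne _ _ _ (hV.esub.lie _ _ _ _ (hgy g) (hgx g')) ?_
    intro e
    apply hg
    apply hone
    refine (hind _ ⟨g', rfl⟩ _ ⟨g, rfl⟩ ?_).2
    rw [← e]; ring
  · intro h'; exact absurd (Finset.mem_univ _) h'

end Pool.Agent.DL17
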