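import Pool.Agent.Lib.MP_2b9f9a_al.DL.Stmts17
import Pool.Agent.Lib.MP_2b9f9a_al.Frobenius

/-!
# DL17, row D12: from an automorphism of prime order to a Frobenius group of automorphisms
-/

set_option autoImplicit false

namespace Pool.Agent.DL17

open Pool.Agent.Lib.MP_2b9f9a_al

theorem fxc_sub {W Γ : Type} [LieRing W] [Group Γ] (act : Γ →* AddMonoid.End W) (H : Subgroup Γ)
    (K : AddSubgroup W) (c : ℕ) :
    fxc ((⊤ : Subgroup H) : Set H) (act.comp H.subtype) K c ⊆ fxc (H : Set Γ) act K c := by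
  induction c with
  | zero =>
    rintro x ⟨hx, hx'⟩
    exact ⟨hx, fun g hg => hx' ⟨g, hg⟩ (Subgroup.mem_top _)⟩
  | succ k ih =>
    rintro x ⟨y, hy, z, hz, hz', rfl⟩
    exact ⟨y, ih hy, z, hz, fun g hg => hz' ⟨g, hg⟩ (Subgroup.mem_top _), rfl⟩

theorem stWF_41 (hW : StW) : StWF := by
  intro h c
  obtain ⟨m, N, hm, hmain⟩ := hW h c
  refine ⟨m, N, hm, ?_⟩
  intro W Γ _ _ act F H _ L ι hHF hFne hHne hfrob hfpf hcard hd i j hi hj hij x hx y hy
  rcases subsingleton_or_nontrivial W with hsub | hnt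
  · exact Subsingleton.elim _ _
  obtain ⟨p, hp, φ, hφF, hφo, hφH⟩ := exists_prime_subgroup act F hfpf H hHF hHne hfrob hFne
  have : Fact p.Prime := ⟨hp⟩
  have : Fact (1 < p) := ⟨hp.one_lt⟩
  have hφ1 : φ ≠ 1 := by
    rintro rfl
    rw [orderOf_one] at hφo
    exact hp.one_lt.ne hφo
  have hφp : φ ^ p = 1 := by rw [← hφo]; exact pow_orderOf_eq_one φ
  have hHfin : Finite H := by
    obtain ⟨y, hyF, hy1⟩ := F.bot_or_exists_ne_one.resolve_left hFne
    have hinj : Function.Injective (fun x : H => (fun y : F => (⟨x * y * (x : Γ)⁻¹,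
        hHF x x.2 y y.2⟩ : F))) := by
      intro x x' hxx'
      have h1 := congrArg (fun f : F → F => ((f ⟨y, hyF⟩ : F) : Γ)) hxx'
      simp only at h1
      by_contra hne
      apply hy1
      apply hfrob ((x' : Γ)⁻¹ * x) (H.mul_mem (H.inv_mem x'.2) x.2)
      · intro h2
        apply hne
        apply Subtype.ext
        exact (inv_mul_eq_one.mp h2).symm
      · exact hyF
      · have h3 : (x : Γ) * y = x' * y * (x' : Γ)⁻¹ * x := by
          rw [← h1]; group
        calc (x' : Γ)⁻¹ * x * y = (x' : Γ)⁻¹ * (x * y) := by group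
          _ = y * ((x' : Γ)⁻¹ * x) := by rw [h3]; group
    exact Finite.of_injective _ hinj
  have hpow : ∀ x : H, ∃ n : ZMod p, φ ^ n.val = (x : Γ)⁻¹ * φ * x := by
    intro x
    have h1 := hφH x x.2
    have hfo : IsOfFinOrder φ := isOfFinOrder_iff_pow_eq_one.mpr ⟨p, hp.pos, hφp⟩
    rw [← hfo.mem_powers_iff_mem_zpowers] at h1
    obtain ⟨n, hn⟩ := h1
    refine ⟨(n : ZMod p), ?_⟩
    rw [ZMod.val_natCast, ← hn]
    exact (pow_eq_pow_mod n hφp).symm
  choose t ht using hpow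
  -- `t` is injective on exponents
  have hinjp : ∀ a b : ZMod p, φ ^ a.val = φ ^ b.val → a = b := by
    intro a b hab
    have h1 : a.val = b.val := by
      apply pow_injOn_Iio_orderOf _ _ hab
      · rw [Set.mem_Iio, hφo]; exact ZMod.val_lt a
      · rw [Set.mem_Iio, hφo]; exact ZMod.val_lt b
    exact ZMod.val_injective p h1
  have ht1 : t 1 = 1 := by
    apply hinjp
    rw [ht 1, ZMod.val_one, pow_one]
    simp
  have htmul : ∀ x y : H, t (x * y) = t x * t y := by
    intro x y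
    apply hinjp
    rw [ht (x * y), pow_val_mul hφp, ht x]
    have h2 : ∀ k : ℕ, ((x : Γ)⁻¹ * φ * x) ^ k = (x : Γ)⁻¹ * φ ^ k * x := by
      intro k
      have := conj_pow (i := k) (a := (x : Γ)⁻¹) (b := φ)
      rw [inv_inv] at this
      exact this
    -- (xy)⁻¹ φ (xy) = y⁻¹ (x⁻¹ φ x) y = y⁻¹ φ^{t x} y = (y⁻¹ φ y)^{t x} = φ^{t y t x}
    have h3 : ((x * y : H) : Γ)⁻¹ * φ * ((x * y : H) : Γ) = (y : Γ)⁻¹ * φ ^ (t x).val * y := by
      rw [ht x, Subgroup.coe_mul]; group
    have h4 : (y : Γ)⁻¹ * φ ^ (t x).val * y = φ ^ (t y * t x).val := by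
      rw [pow_val_mul hφp, ht y]
      have := conj_pow (i := (t x).val) (a := (y : Γ)⁻¹) (b := φ)
      rw [inv_inv] at this
      exact this.symm
    rw [h3, h4, mul_comm, pow_val_mul hφp, ht x]
  let τ : H →* (ZMod p)ˣ := (MonoidHom.mk ⟨t, ht1⟩ htmul).toHomUnits
  have hτt : ∀ x, ((τ x : (ZMod p)ˣ) : ZMod p) = t x := fun x => rfl
  have := Fintype.ofFinite H
  refine hmain p W H (act.comp H.subtype) (act φ) τ L ι
    (by rw [← hcard, Nat.card_eq_fintype_card]) ?_ (hd.lie φ)
    (by rw [← map_pow, hφp, map_one]) (hfpf φ hφF hφ1) ?_ (fun n hn x hx => hd.Lact n hn φ x hx)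
    (hd.ιact φ) ?_ i j hi hj hij x hx y hy
  · -- injective
    rw [injective_iff_map_eq_one]
    intro x hx
    by_contra hx1
    apply hφ1
    apply hfrob x x.2 (by intro h; exact hx1 (Subtype.ext h)) φ hφF
    have h0 : t x = 1 := by
      rw [← hτt, hx]; rfl
    have h1 := ht x
    rw [h0, ZMod.val_one, pow_one] at h1
    have h2 : (x : Γ) * φ = x * ((x : Γ)⁻¹ * φ * x) := by rw [← h1]
    rw [h2]; group
  · intro x
    rw [hτt, ← map_pow, ht x]
    change act φ * act (x : Γ) = act (x : Γ) * act _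
    rw [← map_mul, ← map_mul]
    congr 1
    group
  · exact
      { lie := fun g x y => hd.lie g x y
        tor := hd.tor
        Lact := fun n hn g x hx => hd.Lact n hn g x hx
        Lle := hd.Lle
        Llie := hd.Llie
        Lgen := hd.Lgen
        ιact := fun g x => hd.ιact g x
        ιlie := hd.ιlie
        ex := fun u hu v hv => hd.ex u (fxc_sub act H (L 1) c hu) v (fxc_sub act H (L 1) c hv) }

end Pool.Agent.DL17
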