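import Pool.Agent.Lib.MP_2b9f9a_al.Conv
import Pool.Agent.Lib.MP_2b9f9a_al.PX.Stmts

/-!
# Statements of the modules of DL17 (MP_2b9f9a).  Proofs: `/team-store/DL17.md`.
-/

set_option autoImplicit false

namespace Pool.Agent.DL17

open Pool.Agent.Lib.MP_2b9f9a_al
open Pool.Agent.PX (Fro)

/-- D1. Number theory. -/
def StNT : Prop := ∀ h N : ℕ, ∃ r₀ p₀ : ℕ, ∀ p : ℕ, p.Prime → p₀ < p →
  ∀ R : Subgroup (ZMod p)ˣ, Nat.card R = h → ∀ S : Finset (ZMod p), S.card ≤ N →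
  ∃ r : ℕ, 1 ≤ r ∧ r ≤ r₀ ∧ ∀ k : Fin r → (ZMod p)ˣ, (∀ i, k i ∈ R ∧ k i ≠ 1) →
    ∑ i, ((k i : ZMod p) - 1) ∉ S

section defs

variable {p : ℕ} {M V Γ : Type} [LieRing M] [AddCommGroup V] [Group Γ]

/-- The trace. -/
def tr [Fintype Γ] (σ : Γ →* AddMonoid.End M) (x : M) : M := ∑ g, σ g x

/-- `Γ` acts by automorphisms and multiplies the weights by `τ`. -/
structure Act (τ : Γ →* (ZMod p)ˣ) (σ : Γ →* AddMonoid.End M) (T : Fam (ZMod p) M) : Prop where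
  lie : ∀ g x y, σ g ⁅x, y⁆ = ⁅σ g x, σ g y⁆
  map : ∀ g a x, x ∈ T a → σ g x ∈ T (((τ g : (ZMod p)ˣ) : ZMod p) * a)

/-- `[X, T] ≤ X`. -/
def Inv (X T : Fam (ZMod p) M) : Prop := ∀ a b x y, x ∈ X a → y ∈ T b → ⁅x, y⁆ ∈ X (a + b)

/-- The hypotheses of DC. -/
structure MD [Fintype Γ] (S : Finset (ZMod p)) (τ : Γ →* (ZMod p)ˣ) (σ : Γ →* AddMonoid.End M)
    (T X : Fam (ZMod p) M) (κ : M →+ V) : Prop where
  sub : IsSub T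
  act : Act τ σ T
  inj : Function.Injective τ
  zero : ∀ x ∈ X 0, x = 0
  inv : Inv X T
  supp : ∀ a ∉ S, ∀ x ∈ X a, κ x = 0
  kill : ∀ a b x u, x ∈ X a → u ∈ T b → κ ⁅x, tr σ u⁆ = 0

/-- Action of a word (a list of elements with their weights). -/
def wact (l : List (ZMod p × M)) (x : M) : M := l.foldl (fun x q => ⁅x, q.2⁆) x

/-- The largest `T`-submodule of `X` in the kernel of `κ`. -/
def big (κ : M →+ V) (T X : Fam (ZMod p) M) : Fam (ZMod p) M := fun a =>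
  { carrier := {x | x ∈ X a ∧ ∀ l : List (ZMod p × M), (∀ q ∈ l, q.2 ∈ T q.1) → κ (wact l x) = 0}
    zero_mem' := by
      refine ⟨zero_mem _, fun l _ => ?_⟩
      have : wact l (0 : M) = 0 := by
        unfold wact
        induction l with
        | nil => rfl
        | cons q l ih => rw [List.foldl_cons, zero_lie]; exact ih (fun q' hq' => by simp_all)
      rw [this, map_zero]
    add_mem' := by
      rintro x y ⟨hx, hx'⟩ ⟨hy, hy'⟩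
      refine ⟨add_mem hx hy, fun l hl => ?_⟩
      have : ∀ (l : List (ZMod p × M)) (x y : M), wact l (x + y) = wact l x + wact l y := by
        intro l
        induction l with
        | nil => intro x y; rfl
        | cons q l ih =>
          intro x y
          have h1 := ih ⁅x, q.2⁆ ⁅y, q.2⁆
          rw [← add_lie] at h1
          exact h1
      rw [this, map_add, hx' l hl, hy' l hl, add_zero]
    neg_mem' := by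
      rintro x ⟨hx, hx'⟩
      refine ⟨neg_mem hx, fun l hl => ?_⟩
      have : ∀ (l : List (ZMod p × M)) (x : M), wact l (-x) = - wact l x := by
        intro l
        induction l with
        | nil => intro x; rfl
        | cons q l ih =>
          intro x
          have h1 := ih ⁅x, q.2⁆
          rw [← neg_lie] at h1
          exact h1
      rw [this, map_neg, hx' l hl, neg_zero] }

/-- `{x ∈ X : [x, A] ≤ Y}`. -/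
def lay (A X Y : Fam (ZMod p) M) : Fam (ZMod p) M := fun a =>
  { carrier := {x | x ∈ X a ∧ ∀ b y, y ∈ A b → ⁅x, y⁆ ∈ Y (a + b)}
    zero_mem' := ⟨zero_mem _, fun b y _ => by rw [zero_lie]; exact zero_mem _⟩
    add_mem' := by
      rintro x y ⟨hx, hx'⟩ ⟨hy, hy'⟩
      exact ⟨add_mem hx hy, fun b z hz => by rw [add_lie]; exact add_mem (hx' b z hz) (hy' b z hz)⟩
    neg_mem' := by
      rintro x ⟨hx, hx'⟩
      exact ⟨neg_mem hx, fun b z hz => by rw [neg_lie]; exact neg_mem (hx' b z hz)⟩ }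

/-- Left normed commutators of `k + 1` traces. -/
def trc [Fintype Γ] (σ : Γ →* AddMonoid.End M) (T : Fam (ZMod p) M) : ℕ → Set M
  | 0 => {x | ∃ a, ∃ u ∈ T a, x = tr σ u}
  | k + 1 => {x | ∃ y ∈ trc σ T k, ∃ b, ∃ u ∈ T b, x = ⁅y, tr σ u⁆}

/-- A filtration, with the action of `Γ`. -/
structure Fil (τ : Γ →* (ZMod p)ˣ) (σ : Γ →* AddMonoid.End M) (L : ℕ → Fam (ZMod p) M) : Prop where
  inj : Function.Injective τ
  act : ∀ n, 1 ≤ n → Act τ σ (L n)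
  sub : IsSub (L 1)
  le : ∀ n, 1 ≤ n → L (n + 1) ≤ L n
  lie : ∀ n, 1 ≤ n → ∀ a b x y, x ∈ L n a → y ∈ L 1 b → ⁅x, y⁆ ∈ L (n + 1) (a + b)
  gen : ∀ n, 1 ≤ n → L (n + 1) ≤ br (L n) (L 1)

/-- The virtual situation: `ι` is the virtual copy, `E` are the eigenspaces, `P t` the projections. -/
structure Vir [Fintype Γ] (m c : ℕ) (τ : Γ →* (ZMod p)ˣ) (σ : Γ →* AddMonoid.End M)
    (L : ℕ → Fam (ZMod p) M) (ι : AddMonoid.End M) (E : Fam (ZMod p) M)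
    (P : ZMod p → AddMonoid.End M) : Prop where
  fil : Fil τ σ L
  esub : IsSub E
  le : L 1 ≤ E
  ιE : ∀ a x, x ∈ L 1 a → ι x ∈ E a
  Pne : ∀ a t x, x ∈ E a → a ≠ t → P t x = 0
  Pinj : ∀ a x, x ∈ E a → P a x = 0 → x = 0
  ιlie : ∀ a b x y, x ∈ L m a → y ∈ L 1 b → ι ⁅x, y⁆ = ⁅ι x, y⁆
  ex : ∀ u ∈ trc σ (L 1) c, ∀ v ∈ trc σ (L 1) c, ⁅ι u, ι v⁆ = 0

/-- Independent weights. -/
def Indep (R : Set (ZMod p)) (a b : ZMod p) : Prop :=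
  ∀ k ∈ R, ∀ l ∈ R, k * a + l * b = a + b → k = 1 ∧ l = 1

/-- Left normed commutators of `k + 1` fixed points (for an action on `W`). -/
def fxc {W : Type} [LieRing W] (H : Set Γ) (act : Γ → AddMonoid.End W) (K : AddSubgroup W) :
    ℕ → Set W
  | 0 => {x | x ∈ K ∧ ∀ g ∈ H, act g x = x}
  | k + 1 => {x | ∃ y ∈ fxc H act K k, ∃ z ∈ K, (∀ g ∈ H, act g z = z) ∧ x = ⁅y, z⁆}

end defs

/-- D2. DC for an abelian action. -/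
def StAB : Prop := ∀ h N : ℕ, ∃ n : ℕ, ∀ (p : ℕ) [Fact p.Prime] (M V Γ : Type) [LieRing M]
  [AddCommGroup V] [Group Γ] [Fintype Γ] (S : Finset (ZMod p)) (τ : Γ →* (ZMod p)ˣ)
  (σ : Γ →* AddMonoid.End M) (T X U : Fam (ZMod p) M) (κ : M →+ V),
  Fintype.card Γ = h → S.card ≤ N → MD S τ σ T X κ → U ≤ X → Inv U T →
  (∀ a, ∀ x ∈ U a, κ x = 0) →
  (∀ a b c x y z, x ∈ X a → y ∈ T b → z ∈ T c → ⁅x, ⁅y, z⁆⁆ ∈ U (a + (b + c))) →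
  ∀ a, ∀ x ∈ iter X T n a, κ x = 0

/-- D3. Step (3) of DC. -/
def StKey : Prop := ∀ h N m : ℕ, ∃ q : ℕ, ∀ (p : ℕ) [Fact p.Prime] (M V Γ : Type) [LieRing M]
  [AddCommGroup V] [Group Γ] [Fintype Γ] (S : Finset (ZMod p)) (τ : Γ →* (ZMod p)ˣ)
  (σ : Γ →* AddMonoid.End M) (T X A : Fam (ZMod p) M) (κ : M →+ V),
  Fintype.card Γ = h → S.card ≤ N → MD S τ σ T X κ → A ≤ T → Inv A T →
  iter (lay A X (big κ T X)) T m ≤ big κ T X →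
  ∀ a b x y, x ∈ lay A X (lay A X (big κ T X)) a → y ∈ iter A T q b → ⁅x, y⁆ ∈ big κ T X (a + b)

/-- D4. Step (4) of DC: combination. -/
def StComb : Prop := ∀ q m₁ n₁ : ℕ, ∃ n : ℕ, ∀ (p : ℕ) [Fact p.Prime] (M : Type) [LieRing M]
  (T X A K : Fam (ZMod p) M), IsSub T → A ≤ T → Inv A T → Inv X T → K ≤ X → Inv K T →
  (∀ a b c x y z, x ∈ X a → y ∈ A b → z ∈ A c → ⁅x, ⁅y, z⁆⁆ ∈ K (a + (b + c))) →
  iter (lay A X K) T m₁ ≤ K →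
  (∀ a b x y, x ∈ lay A X (lay A X K) a → y ∈ iter A T q b → ⁅x, y⁆ ∈ K (a + b)) →
  iter X A n₁ ≤ K → iter X T n ≤ K

/-- D5. DC: deep elements behave like commutators of fixed points. -/
def StDC : Prop := ∀ h N : ℕ, ∃ n : ℕ, ∀ (p : ℕ) [Fact p.Prime] (M V Γ : Type) [LieRing M]
  [AddCommGroup V] [Group Γ] [Fintype Γ] (S : Finset (ZMod p)) (τ : Γ →* (ZMod p)ˣ)
  (σ : Γ →* AddMonoid.End M) (T X : Fam (ZMod p) M) (κ : M →+ V),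
  Fintype.card Γ = h → S.card ≤ N → MD S τ σ T X κ → ∀ a, ∀ x ∈ iter X T n a, κ x = 0

/-- D6. Nilpotent action from the condition of bounded dependence. -/
def StPB : Prop := ∀ N : ℕ, ∃ m : ℕ, ∀ (p : ℕ) [Fact p.Prime] (M : Type) [LieRing M]
  (T Z : Fam (ZMod p) M) (B : Finset (ZMod p)), B.card ≤ N → IsSub T → (∀ z ∈ Z 0, z = 0) →
  Inv Z T →
  (∀ t b : ZMod p, (∀ β ∈ B, b ≠ β * t) → ∀ z ∈ Z (t - b), ∀ u ∈ T b, ⁅z, u⁆ = 0) →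
  ∀ a, ∀ z ∈ iter Z T m a, z = 0

/-- D7. From selectivity to nilpotent action. -/
def StFS : Prop := ∀ h : ℕ, ∃ n m : ℕ, ∀ (p : ℕ) [Fact p.Prime] (M : Type) [LieRing M]
  (R : Finset (ZMod p)) (T X : Fam (ZMod p) M), R.card ≤ h → IsSub T → (∀ x ∈ X 0, x = 0) →
  (∀ z ∈ br X X 0, z = 0) → Inv X T →
  (∀ a b, Indep (R : Set (ZMod p)) a b → ∀ x ∈ X a, ∀ y ∈ X b, ⁅x, y⁆ = 0) →
  (∀ X' X'' : Fam (ZMod p) M, X' ≤ X → X'' ≤ X → Inv X' T → Inv X'' T →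
    ∀ a b x y, x ∈ iter X' T n a → y ∈ X'' b → ⁅x, y⁆ ∈ br (br X' X'') T (a + b)) ∧
  (∀ a, ∀ z ∈ iter (br X X) T m a, z = 0)

/-- D8. P(c): additive maps that kill commutators of traces. -/
def StLT : Prop := ∀ h c N : ℕ, ∃ m : ℕ, 1 ≤ m ∧ ∀ (p : ℕ) [Fact p.Prime] (M V Γ : Type)
  [LieRing M] [AddCommGroup V] [Group Γ] [Fintype Γ] (S : Finset (ZMod p)) (τ : Γ →* (ZMod p)ˣ)
  (σ : Γ →* AddMonoid.End M) (L : ℕ → Fam (ZMod p) M) (θ : M →+ V),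
  Fintype.card Γ = h → S.card ≤ N → Fil τ σ L → (∀ a ∉ S, ∀ x ∈ L 1 a, θ x = 0) →
  (∀ z ∈ trc σ (L 1) c, θ z = 0) → ∀ a, ∀ x ∈ L m a, θ (tr σ x) = 0

/-- D9. Selectivity of the virtual copy. -/
def StSel : Prop := ∀ h c : ℕ, ∃ m₀ : ℕ, 1 ≤ m₀ ∧ ∀ m, m₀ ≤ m → ∀ (p : ℕ) [Fact p.Prime] (M Γ : Type)
  [LieRing M] [Group Γ] [Fintype Γ] (τ : Γ →* (ZMod p)ˣ)
  (σ : Γ →* AddMonoid.End M) (L : ℕ → Fam (ZMod p) M) (ι : AddMonoid.End M)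
  (E : Fam (ZMod p) M) (P : ZMod p → AddMonoid.End M),
  Fintype.card Γ = h → Vir m c τ σ L ι E P →
  ∀ a b, Indep (Set.range fun g => ((τ g : (ZMod p)ˣ) : ZMod p)) a b →
    ∀ x ∈ L m a, ∀ y ∈ L m b, ⁅ι x, ι y⁆ = 0

/-- D10. The conclusion for graded families. -/
def StFin : Prop := ∀ h c : ℕ, ∃ m N : ℕ, 1 ≤ m ∧ ∀ (p : ℕ) [Fact p.Prime] (M Γ : Type)
  [LieRing M] [Group Γ] [Fintype Γ] (τ : Γ →* (ZMod p)ˣ)
  (σ : Γ →* AddMonoid.End M) (L : ℕ → Fam (ZMod p) M) (ι : AddMonoid.End M)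
  (E : Fam (ZMod p) M) (P : ZMod p → AddMonoid.End M),
  Fintype.card Γ = h → Vir m c τ σ L ι E P →
  ∀ i j, m ≤ i → m ≤ j → N ≤ i + j → ∀ a b, ∀ x ∈ L i a, ∀ y ∈ L j b, ⁅ι x, ι y⁆ = 0

/-- The hypotheses on the Lie ring `W` of the group. -/
structure Wd (m c : ℕ) (W Γ : Type) [LieRing W] [Group Γ] (act : Γ →* AddMonoid.End W)
    (H : Subgroup Γ) (L : ℕ → AddSubgroup W) (ι : AddMonoid.End W) : Prop where
  lie : ∀ g x y, act g ⁅x, y⁆ = ⁅act g x, act g y⁆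
  tor : ∃ e : ℕ, 0 < e ∧ ∀ w : W, e • w = 0
  Lact : ∀ n, 1 ≤ n → ∀ g, ∀ x ∈ L n, act g x ∈ L n
  Lle : ∀ n, 1 ≤ n → L (n + 1) ≤ L n
  Llie : ∀ n, 1 ≤ n → ∀ x ∈ L n, ∀ y ∈ L 1, ⁅x, y⁆ ∈ L (n + 1)
  Lgen : ∀ n, 1 ≤ n → L (n + 1) ≤ AddSubgroup.closure {z | ∃ x ∈ L n, ∃ y ∈ L 1, z = ⁅x, y⁆}
  ιact : ∀ g x, ι (act g x) = act g (ι x)
  ιlie : ∀ x ∈ L m, ∀ y ∈ L 1, ι ⁅x, y⁆ = ⁅ι x, y⁆
  ex : ∀ u ∈ fxc (H : Set Γ) act (L 1) c, ∀ v ∈ fxc (H : Set Γ) act (L 1) c, ⁅ι u, ι v⁆ = 0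

/-- D11. The Lie ring theorem, automorphism of prime order (`σ = act` on `H`). -/
def StW : Prop := ∀ h c : ℕ, ∃ m N : ℕ, 1 ≤ m ∧ ∀ (p : ℕ) [Fact p.Prime] (W Γ : Type) [LieRing W]
  [Group Γ] [Fintype Γ] (act : Γ →* AddMonoid.End W) (φ : AddMonoid.End W) (τ : Γ →* (ZMod p)ˣ)
  (L : ℕ → AddSubgroup W) (ι : AddMonoid.End W),
  Fintype.card Γ = h → Function.Injective τ →
  (∀ x y, φ ⁅x, y⁆ = ⁅φ x, φ y⁆) → φ ^ p = 1 → (∀ x, φ x = x → x = 0) →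
  (∀ g, φ * act g = act g * φ ^ (((τ g : (ZMod p)ˣ) : ZMod p)).val) →
  (∀ n, 1 ≤ n → ∀ x ∈ L n, φ x ∈ L n) → (∀ x, ι (φ x) = φ (ι x)) →
  Wd m c W Γ act ⊤ L ι →
  ∀ i j, m ≤ i → m ≤ j → N ≤ i + j → ∀ x ∈ L i, ∀ y ∈ L j, ⁅ι x, ι y⁆ = 0

/-- D12. The Lie ring theorem for a Frobenius group of automorphisms. -/
def StWF : Prop := ∀ h c : ℕ, ∃ m N : ℕ, 1 ≤ m ∧ ∀ (W Γ : Type) [LieRing W]
  [Group Γ] (act : Γ →* AddMonoid.End W) (F H : Subgroup Γ) [Finite F]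
  (L : ℕ → AddSubgroup W) (ι : AddMonoid.End W),
  (∀ x ∈ H, ∀ y ∈ F, x * y * x⁻¹ ∈ F) → F ≠ ⊥ → H ≠ ⊥ →
  (∀ x ∈ H, x ≠ 1 → ∀ y ∈ F, x * y = y * x → y = 1) →
  (∀ y ∈ F, y ≠ 1 → ∀ v : W, act y v = v → v = 0) →
  Nat.card H = h →
  Wd m c W Γ act H L ι →
  ∀ i j, m ≤ i → m ≤ j → N ≤ i + j → ∀ x ∈ L i, ∀ y ∈ L j, ⁅ι x, ι y⁆ = 0

/-- A filtration of a group indexed by a monoid. -/
structure MF {G I : Type} [Group G] [AddCommMonoid I] (A B : I → Subgroup G) : Prop where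
  nA : ∀ i, (A i).Normal
  nB : ∀ i, (B i).Normal
  le : ∀ i, B i ≤ A i
  cent : ∀ i, ⁅A i, (⊤ : Subgroup G)⁆ ≤ B i
  mul : ∀ i j, ⁅A i, A j⁆ ≤ A (i + j)
  mulB : ∀ i j, ⁅A i, B j⁆ ≤ B (i + j)

/-- The properties of its Lie ring (direct sum of the `A i / B i`). -/
structure GrM {G I W Λ : Type} [Group G] [AddCommMonoid I] [LieRing W] [Group Λ]
    [MulDistribMulAction Λ G] (A B : I → Subgroup G) (cls : I → G → W)
    (act : Λ →* AddMonoid.End W) : Prop where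
  mul : ∀ i, ∀ g ∈ A i, ∀ h ∈ A i, cls i (g * h) = cls i g + cls i h
  brk : ∀ i j, ∀ g ∈ A i, ∀ h ∈ A j, ⁅cls i g, cls j h⁆ = cls (i + j) (g * h * g⁻¹ * h⁻¹)
  zero : ∀ i, ∀ g ∈ A i, (cls i g = 0 ↔ g ∈ B i)
  span : ∀ w : W, w ∈ AddSubgroup.closure {z | ∃ i, ∃ g ∈ A i, z = cls i g}
  univ : ∀ (V : Type) [AddCommGroup V] (f : I → G → V),
    (∀ i, ∀ g ∈ A i, ∀ h ∈ A i, f i (g * h) = f i g + f i h) →
    (∀ i, ∀ g ∈ B i, f i g = 0) → ∃ φ : W →+ V, ∀ i, ∀ g ∈ A i, φ (cls i g) = f i g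
  act_cls : ∀ γ i, ∀ g ∈ A i, act γ (cls i g) = cls i (γ • g)
  act_lie : ∀ (γ : Λ) (x y : W), act γ ⁅x, y⁆ = ⁅act γ x, act γ y⁆

/-- D13. The Lie ring of a filtered group. -/
def StGL : Prop := ∀ (G I Λ : Type) [Group G] [AddCommMonoid I] [Group Λ]
  [MulDistribMulAction Λ G] (A B : I → Subgroup G), MF A B →
  (∀ (γ : Λ) i, ∀ g ∈ A i, γ • g ∈ A i) → (∀ (γ : Λ) i, ∀ g ∈ B i, γ • g ∈ B i) →
  ∃ (W : Type) (_ : LieRing W) (cls : I → G → W) (act : Λ →* AddMonoid.End W), GrM A B cls act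

/-- `P_N`: generated by the `[γ_a, γ_b]` with `a, b ≥ m`, `a + b ≥ N`. -/
def PN (m : ℕ) (P : Type) [Group P] (N : ℕ) : Subgroup P :=
  ⨆ q : {q : ℕ × ℕ // m ≤ q.1 ∧ m ≤ q.2 ∧ N ≤ q.1 + q.2}, ⁅PX.lc P q.1.1, PX.lc P q.1.2⁆

/-- The filtration of `P` indexed by `ℕ × ℕ`: `γ_n`, the virtual copy of `γ_n`, and `P_n`. -/
def FA (m : ℕ) (P : Type) [Group P] (i : ℕ × ℕ) : Subgroup P :=
  if i.1 = 0 then PX.lc P i.2 else if i.1 = 1 then PX.lc P (max i.2 m)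
  else if i.1 = 2 then PN m P i.2 else ⊤

/-- The second filtration: `γ_{n+1}`, the virtual copy of `γ_{n+1}`, and `P_{n+1}`. -/
def FB (m : ℕ) (P : Type) [Group P] (i : ℕ × ℕ) : Subgroup P :=
  if i.1 = 0 then PX.lc P (i.2 + 1) else if i.1 = 1 then PX.lc P (max (i.2 + 1) m)
  else if i.1 = 2 then PN m P (i.2 + 1) else ⊤

/-- D14. It is a filtration, invariant under all automorphisms, and `P_N` decreases. -/
def StMF : Prop := ∀ (m : ℕ) (Γ P : Type) [Group Γ] [Group P] [MulDistribMulAction Γ P], 1 ≤ m →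
  MF (FA m P) (FB m P) ∧ (∀ (γ : Γ) i, ∀ g ∈ FA m P i, γ • g ∈ FA m P i) ∧
  (∀ (γ : Γ) i, ∀ g ∈ FB m P i, γ • g ∈ FB m P i) ∧ (∀ N, PN m P (N + 1) ≤ PN m P N)

/-- D15. The Lie ring of this filtration satisfies the hypotheses of D12. -/
def StGrp : Prop := ∀ (m c r : ℕ) [Fact r.Prime] (Γ P W : Type) [Group Γ]
  [Finite Γ] [Group P] [Finite P] [MulDistribMulAction Γ P] [LieRing W] (F H : Subgroup Γ)
  (cls : ℕ × ℕ → P → W) (act : Γ →* AddMonoid.End W),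
  1 ≤ m → IsPGroup r P → Fro P F H →
  (∀ C : Subgroup P, (∀ g, g ∈ C ↔ ∀ x ∈ H, x • g = g) →
    ∀ x ∈ C.lowerCentralSeries c, ∀ y ∈ C.lowerCentralSeries c, x * y = y * x) →
  GrM (FA m P) (FB m P) cls act →
  (∀ y ∈ F, y ≠ 1 → ∀ v : W, act y v = v → v = 0) ∧
  ∃ (L : ℕ → AddSubgroup W) (ι : AddMonoid.End W), Wd m c W Γ act H L ι ∧
    (∀ i, 1 ≤ i → ∀ g ∈ PX.lc P i, cls (0, i) g ∈ L i) ∧
    (∀ i, m ≤ i → ∀ g ∈ PX.lc P i, ι (cls (0, i) g) = cls (1, i) g)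

/-- D16. The theorem for `r`-groups. -/
def StPr : Prop := ∀ h c : ℕ, ∃ m : ℕ, ∀ (r : ℕ) [Fact r.Prime] (Γ P : Type) [Group Γ]
  [Finite Γ] [Group P] [Finite P] [MulDistribMulAction Γ P] (F H : Subgroup Γ),
  IsPGroup r P → Fro P F H → Nat.card H = h →
  (∀ C : Subgroup P, (∀ g, g ∈ C ↔ ∀ x ∈ H, x • g = g) →
    ∀ x ∈ C.lowerCentralSeries c, ∀ y ∈ C.lowerCentralSeries c, x * y = y * x) →
  ∀ x ∈ (⊤ : Subgroup P).lowerCentralSeries m, ∀ y ∈ (⊤ : Subgroup P).lowerCentralSeries m,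
    x * y = y * x

/-- D17. The theorem. -/
def StNil : Prop := ∀ h c : ℕ, ∃ m : ℕ, ∀ (G : Type) [Group G] [Finite G]
  (F H : Subgroup (MulAut G)), Group.IsNilpotent G →
  (∀ x ∈ H, ∀ y ∈ F, x * y * x⁻¹ ∈ F) →
  F ≠ ⊥ → H ≠ ⊥ →
  (∀ x ∈ H, x ≠ 1 → ∀ y ∈ F, x * y = y * x → y = 1) →
  (∀ y ∈ F, y ≠ 1 → ∀ g : G, y g = g → g = 1) →
  Nat.card H = h →
  (∀ C : Subgroup G, (∀ g : G, g ∈ C ↔ ∀ x ∈ H, x g = g) →
    ∀ x ∈ C.lowerCentralSeries c, ∀ y ∈ C.lowerCentralSeries c, x * y = y * x) →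
  ∀ x ∈ (⊤ : Subgroup G).lowerCentralSeries m, ∀ y ∈ (⊤ : Subgroup G).lowerCentralSeries m,
    x * y = y * x

end Pool.Agent.DL17
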