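import Mathlib
import Pool.Agent.Lib.MP_2b9f9a_al.DL.Stmts17

/-!
# D11 of DL17 (MP_2b9f9a): from graded families to the Lie ring theorem
-/

set_option autoImplicit false

namespace Pool.Agent.DL17

open Pool.Agent.Lib.MP_2b9f9a_al

namespace W7

variable {p : ℕ} [Fact p.Prime] {W : Type} [LieRing W]

/-- the functions in the eigenspaces, with values in `K` -/
def fam (S φ : AddMonoid.End (Conv p W)) (K : AddSubgroup W) : Fam (ZMod p) (Conv p W) := fun a =>
  { carrier := {u | u ∈ eig S φ a ∧ ∀ c : ZMod p, u c ∈ K}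
    zero_mem' := ⟨zero_mem _, fun _ => zero_mem K⟩
    add_mem' := by
      rintro u v ⟨hu, hu'⟩ ⟨hv, hv'⟩
      exact ⟨add_mem hu hv, fun c => add_mem (hu' c) (hv' c)⟩
    neg_mem' := by
      rintro u ⟨hu, hu'⟩
      exact ⟨neg_mem hu, fun c => neg_mem (hu' c)⟩ }

theorem mem_fam {S φ : AddMonoid.End (Conv p W)} {K : AddSubgroup W} {a : ZMod p}
    {u : Conv p W} : u ∈ fam S φ K a ↔ u ∈ eig S φ a ∧ ∀ c : ZMod p, u c ∈ K := Iff.rfl

theorem lie_val {K K' K'' : AddSubgroup W} (h : ∀ x ∈ K, ∀ y ∈ K', ⁅x, y⁆ ∈ K'')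
    {u v : Conv p W} (hu : ∀ c : ZMod p, u c ∈ K) (hv : ∀ c : ZMod p, v c ∈ K') (c : ZMod p) :
    ⁅u, v⁆ c ∈ K'' := by
  rw [conv_lie]
  exact sum_mem (fun a _ => h _ (hu a) _ (hv (c - a)))

theorem lift_val {K : AddSubgroup W} {f : AddMonoid.End W} (h : ∀ x ∈ K, f x ∈ K)
    {u : Conv p W} (hu : ∀ c : ZMod p, u c ∈ K) (c : ZMod p) : lift p f u c ∈ K := by
  rw [lift_apply]
  exact h _ (hu c)

theorem lift_pow_val {K : AddSubgroup W} {f : AddMonoid.End W} (h : ∀ x ∈ K, f x ∈ K)
    {u : Conv p W} (hu : ∀ c : ZMod p, u c ∈ K) (n : ℕ) (c : ZMod p) :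
    ((lift p f) ^ n) u c ∈ K := by
  induction n generalizing c with
  | zero => simpa using hu c
  | succ n ih =>
    rw [pow_succ', end_mul_apply]
    exact lift_val h ih c

theorem chi_val {K : AddSubgroup W} {u : Conv p W} (hu : ∀ c : ZMod p, u c ∈ K) (a c : ZMod p) :
    chi (shift p W) a u c ∈ K := by
  rw [chi_shift_apply]
  exact hu _

theorem proj_val {K : AddSubgroup W} {f : AddMonoid.End W} (h : ∀ x ∈ K, f x ∈ K)
    {u : Conv p W} (hu : ∀ c : ZMod p, u c ∈ K) (a c : ZMod p) :
    proj (shift p W) (lift p f) a u c ∈ K := by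
  rw [proj_apply, conv_sum]
  exact sum_mem (fun i _ => chi_val (fun c => lift_pow_val h hu _ c) _ c)

theorem emb_val {K : AddSubgroup W} {x : W} (hx : x ∈ K) (c : ZMod p) : emb p x c ∈ K := by
  rw [emb_apply]
  split_ifs
  · exact hx
  · exact zero_mem K

/-- decomposition of a function -/
theorem decomp (u : Conv p W) : u = ∑ c : ZMod p, chi (shift p W) c (emb p (u c)) := by
  apply conv_ext
  intro c
  rw [conv_sum, Finset.sum_eq_single c]
  · rw [chi_shift_apply, sub_self, emb_apply, if_pos rfl]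
  · intro b _ hb
    rw [chi_shift_apply, emb_apply, if_neg (sub_ne_zero.mpr (Ne.symm hb))]
  · intro h; exact absurd (Finset.mem_univ _) h

section datum

variable {φ : AddMonoid.End (Conv p W)} (h : Datum p (shift p W) φ)
  (htM : ∀ u : Conv p W, p • u = 0 → u = 0)

include h

theorem sum_proj_apply (u : Conv p W) : ∑ b : ZMod p, proj (shift p W) φ b u = dOp p W u := by
  rw [← Pool.Agent.Lib.MP_2b9f9a_al.sum_apply, sum_proj h]
  rfl

theorem proj_dOp (a : ZMod p) (u : Conv p W) :
    proj (shift p W) φ a (dOp p W u) = p • proj (shift p W) φ a u := by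
  rw [← sum_proj_apply h, map_sum, Finset.sum_eq_single a]
  · rw [proj_eig h (proj_mem h a u), if_pos rfl]
  · intro b _ hb
    rw [proj_eig h (proj_mem h b u), if_neg hb]
  · intro h; exact absurd (Finset.mem_univ _) h

theorem dOp_dOp (u : Conv p W) : dOp p W (dOp p W u) = p • dOp p W u := by
  rw [← end_mul_apply, dOp_sq h, end_mul_apply, natCast_end_apply]

include htM

/-- the projection of a bracket -/
theorem proj_lie (a : ZMod p) (u v : Conv p W) :
    p • proj (shift p W) φ a ⁅u, v⁆ =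
      ∑ b : ZMod p, ⁅proj (shift p W) φ b u, proj (shift p W) φ (a - b) v⁆ := by
  have e1 : ⁅dOp p W u, dOp p W v⁆ = p • dOp p W ⁅u, v⁆ := by
    rw [dOp_lie h, lie_dOp h, dOp_dOp h]
  have e2 := congrArg (proj (shift p W) φ a) e1
  rw [map_nsmul, proj_dOp h, ← sum_proj_apply h, ← sum_proj_apply h, sum_lie, map_sum] at e2
  have e3 : ∀ b : ZMod p, proj (shift p W) φ a ⁅proj (shift p W) φ b u,
      ∑ b' : ZMod p, proj (shift p W) φ b' v⁆ =
      p • ⁅proj (shift p W) φ b u, proj (shift p W) φ (a - b) v⁆ := by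
    intro b
    rw [lie_sum, map_sum, Finset.sum_eq_single (a - b)]
    · rw [proj_eig h (eig_lie h b (a - b) _ _ (proj_mem h b u) (proj_mem h (a - b) v)),
        if_pos (by ring)]
    · intro b' _ hb
      rw [proj_eig h (eig_lie h b b' _ _ (proj_mem h b u) (proj_mem h b' v)), if_neg]
      intro h0
      exact hb (by rw [← h0]; ring)
    · intro h; exact absurd (Finset.mem_univ _) h
  rw [Finset.sum_congr rfl (fun b _ => e3 b), ← Finset.smul_sum] at e2
  have e4 : p • (p • proj (shift p W) φ a ⁅u, v⁆ -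
      ∑ b : ZMod p, ⁅proj (shift p W) φ b u, proj (shift p W) φ (a - b) v⁆) = 0 := by
    rw [smul_sub, e2, sub_self]
  exact sub_eq_zero.mp (htM _ e4)

end datum

/-- `p` is invertible -/
theorem inv_p (htW : ∀ x : W, p • x = 0 → x = 0) (htor : ∃ e : ℕ, 0 < e ∧ ∀ w : W, e • w = 0) :
    ∃ q : ℤ, ∀ x : W, q • (p • x) = x := by
  have hp : p.Prime := Fact.out
  obtain ⟨e, he, hw⟩ := htor
  obtain ⟨k, e', he', rfl⟩ := Nat.exists_eq_pow_mul_and_not_dvd he.ne' p hp.one_lt.ne'
  have h1 : ∀ (k : ℕ) (y : W), p ^ k • y = 0 → y = 0 := by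
    intro k
    induction k with
    | zero => intro y hy; simpa using hy
    | succ k ih =>
      intro y hy
      rw [pow_succ, mul_smul] at hy
      exact htW y (ih _ hy)
  have h2 : ∀ w : W, e' • w = 0 := fun w => h1 k _ (by rw [← mul_smul]; exact hw w)
  have h3 : IsCoprime (p : ℤ) (e' : ℤ) := by
    rw [Nat.isCoprime_iff_coprime]
    exact (Nat.Prime.coprime_iff_not_dvd hp).mpr he'
  obtain ⟨a, b, hab⟩ := h3
  refine ⟨a, fun x => ?_⟩
  have h4 : a • (p • x) = (a * p + b * e' : ℤ) • x - b • (e' • x) := by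
    rw [add_smul, mul_smul, mul_smul, natCast_zsmul, natCast_zsmul, add_sub_cancel_right]
  rw [h4, hab, h2, smul_zero, sub_zero, one_smul]

theorem inv_p_conv {q : ℤ} (hq : ∀ x : W, q • (p • x) = x) (u : Conv p W) :
    q • (p • u) = u := by
  apply conv_ext
  intro c
  have : (q • (p • u)) c = q • (p • (u c)) := rfl
  rw [this]
  exact hq _

/-- `emb` as a homomorphism -/
def embH (p : ℕ) [Fact p.Prime] (W : Type) [LieRing W] : W →+ Conv p W where
  toFun := emb p
  map_zero' := by
    apply conv_ext; intro c; rw [emb_apply]; simp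
  map_add' := emb_add

theorem embH_apply (x : W) : embH p W x = emb p x := rfl

section gen

variable {φ : AddMonoid.End W} (h : Datum p (shift p W) (lift p φ))
  (htM : ∀ u : Conv p W, p • u = 0 → u = 0)

include h

theorem chi_fam {K : AddSubgroup W} (c a : ZMod p) {u : Conv p W}
    (hu : u ∈ fam (shift p W) (lift p φ) K a) :
    chi (shift p W) c u ∈ fam (shift p W) (lift p φ) K a := by
  rw [mem_fam] at hu ⊢
  refine ⟨?_, chi_val hu.2 c⟩
  rw [mem_eig] at *
  rw [← end_mul_apply, (chi_comm h c).eq, end_mul_apply, hu.1, ← end_mul_apply, ← end_mul_apply,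
    ← chi_add h, ← chi_add h, add_comm]

theorem chi_br {K K' : AddSubgroup W} (c a : ZMod p) {u : Conv p W}
    (hu : u ∈ br (fam (shift p W) (lift p φ) K) (fam (shift p W) (lift p φ) K') a) :
    chi (shift p W) c u ∈ br (fam (shift p W) (lift p φ) K) (fam (shift p W) (lift p φ) K') a := by
  have h1 : br (fam (shift p W) (lift p φ) K) (fam (shift p W) (lift p φ) K') a ≤
      (br (fam (shift p W) (lift p φ) K) (fam (shift p W) (lift p φ) K') a).comap
        (chi (shift p W) c) := by
    apply br_le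
    rintro b b' x y rfl hx hy
    change chi (shift p W) c ⁅x, y⁆ ∈
      br (fam (shift p W) (lift p φ) K) (fam (shift p W) (lift p φ) K') (b + b')
    rw [← chi_lie h]
    exact mem_br (chi_fam h c b hx) hy
  exact h1 hu

include htM

theorem gen_mem {K K' K'' : AddSubgroup W} (hK : ∀ x ∈ K, φ x ∈ K) (hK' : ∀ x ∈ K', φ x ∈ K')
    (hK'' : K'' ≤ AddSubgroup.closure {z | ∃ x ∈ K, ∃ y ∈ K', z = ⁅x, y⁆})
    {q : ℤ} (hq : ∀ x : W, q • (p • x) = x) (a : ZMod p) {u : Conv p W}
    (hu : u ∈ fam (shift p W) (lift p φ) K'' a) :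
    u ∈ br (fam (shift p W) (lift p φ) K) (fam (shift p W) (lift p φ) K') a := by
  set B := br (fam (shift p W) (lift p φ) K) (fam (shift p W) (lift p φ) K') a with hB
  have h1 : K'' ≤ B.comap ((p • (proj (shift p W) (lift p φ) a) : AddMonoid.End (Conv p W)).comp
      (embH p W)) := by
    refine hK''.trans ?_
    rw [AddSubgroup.closure_le]
    rintro z ⟨x, hx, y, hy, rfl⟩
    change p • proj (shift p W) (lift p φ) a (emb p ⁅x, y⁆) ∈ B
    rw [← emb_lie, proj_lie h htM]
    refine sum_mem (fun b _ => ?_)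
    exact mem_br' (b := a - b) ⟨proj_mem h b _, proj_val hK (emb_val hx) b⟩
      ⟨proj_mem h (a - b) _, proj_val hK' (emb_val hy) (a - b)⟩ (by ring)
  have h2 : p • (p • u) ∈ B := by
    have e1 : p • u = proj (shift p W) (lift p φ) a u := by
      rw [proj_eig h hu.1, if_pos rfl]
    have hc : ∀ c : ZMod p, Commute (proj (shift p W) (lift p φ) a) (chi (shift p W) c) := by
      intro c
      unfold proj
      refine Commute.sum_left _ _ _ (fun i _ => ?_)
      refine Commute.mul_left ?_ ((chi_comm h c).pow_left _)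
      unfold chi
      exact (Commute.refl _).pow_pow _ _
    have e2 : p • (p • u) = ∑ c : ZMod p, chi (shift p W) c
        (p • proj (shift p W) (lift p φ) a (emb p (u c))) := by
      rw [e1]
      conv_lhs => rw [decomp u]
      rw [map_sum, Finset.smul_sum]
      refine Finset.sum_congr rfl (fun c _ => ?_)
      rw [← end_mul_apply, (hc c).eq, end_mul_apply, map_nsmul]
    rw [e2]
    exact sum_mem (fun c _ => chi_br h c a (h1 (hu.2 c)))
  have h3 : u = q • (q • (p • (p • u))) := by
    rw [inv_p_conv hq (p • u), inv_p_conv hq u]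
  rw [h3]
  exact zsmul_mem (zsmul_mem h2 q) q

end gen

section traces

variable {Γ : Type} [Group Γ] [Fintype Γ]

/-- the lifted action -/
def sig (p : ℕ) [Fact p.Prime] (act : Γ →* AddMonoid.End W) : Γ →* AddMonoid.End (Conv p W) where
  toFun g := lift p (act g)
  map_one' := by rw [map_one]; rfl
  map_mul' g h := by rw [map_mul]; rfl

omit [Fintype Γ] in
theorem sig_apply (act : Γ →* AddMonoid.End W) (g : Γ) (u : Conv p W) (c : ZMod p) :
    sig p act g u c = act g (u c) := rfl

theorem tr_val (act : Γ →* AddMonoid.End W) (u : Conv p W) (c : ZMod p) :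
    tr (sig p act) u c = ∑ g, act g (u c) := by
  unfold tr
  rw [conv_sum]
  rfl

theorem tr_fix (act : Γ →* AddMonoid.End W) {K : AddSubgroup W}
    (hK : ∀ g, ∀ x ∈ K, act g x ∈ K) {u : Conv p W} (hu : ∀ c : ZMod p, u c ∈ K) (c : ZMod p) :
    tr (sig p act) u c ∈ K ∧ ∀ g, act g (tr (sig p act) u c) = tr (sig p act) u c := by
  rw [tr_val]
  refine ⟨sum_mem (fun g _ => hK g _ (hu c)), fun g => ?_⟩
  rw [map_sum]
  refine Fintype.sum_equiv (Equiv.mulLeft g) _ _ (fun g' => ?_)
  rw [Equiv.coe_mulLeft, map_mul]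
  rfl

omit [Fintype Γ] in
theorem closure_step (act : Γ →* AddMonoid.End W) (K : AddSubgroup W) (k : ℕ) {y z : W}
    (hy : y ∈ AddSubgroup.closure (fxc ((⊤ : Subgroup Γ) : Set Γ) act K k))
    (hz : z ∈ K) (hz' : ∀ g, act g z = z) :
    ⁅y, z⁆ ∈ AddSubgroup.closure (fxc ((⊤ : Subgroup Γ) : Set Γ) act K (k + 1)) := by
  induction hy using AddSubgroup.closure_induction with
  | mem y hy => exact AddSubgroup.subset_closure ⟨y, hy, z, hz, fun g _ => hz' g, rfl⟩
  | zero => rw [zero_lie]; exact zero_mem _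
  | add x y _ _ hx hy => rw [add_lie]; exact add_mem hx hy
  | neg x _ hx => rw [neg_lie]; exact neg_mem hx

theorem trc_val (act : Γ →* AddMonoid.End W) {K : AddSubgroup W}
    (hK : ∀ g, ∀ x ∈ K, act g x ∈ K) {T : Fam (ZMod p) (Conv p W)}
    (hT : ∀ a, ∀ u ∈ T a, ∀ c : ZMod p, u c ∈ K) (k : ℕ) :
    ∀ u ∈ trc (sig p act) T k, ∀ c : ZMod p,
      u c ∈ AddSubgroup.closure (fxc ((⊤ : Subgroup Γ) : Set Γ) act K k) := by
  induction k with
  | zero =>
    rintro u ⟨a, v, hv, rfl⟩ c
    have := tr_fix act hK (hT a v hv) c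
    exact AddSubgroup.subset_closure ⟨this.1, fun g _ => this.2 g⟩
  | succ k ih =>
    rintro u ⟨y, hy, b, v, hv, rfl⟩ c
    rw [conv_lie]
    refine sum_mem (fun a _ => ?_)
    have := tr_fix act hK (hT b v hv) (c - a)
    exact closure_step act K k (ih y hy a) this.1 this.2

omit [Group Γ] [Fintype Γ] in
theorem closure_zero (act : Γ → AddMonoid.End W) (ι : AddMonoid.End W) (K : AddSubgroup W)
    (H : Set Γ) (k : ℕ)
    (hex : ∀ u ∈ fxc H act K k, ∀ v ∈ fxc H act K k, ⁅ι u, ι v⁆ = 0) {y z : W}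
    (hy : y ∈ AddSubgroup.closure (fxc H act K k))
    (hz : z ∈ AddSubgroup.closure (fxc H act K k)) : ⁅ι y, ι z⁆ = 0 := by
  induction hy using AddSubgroup.closure_induction with
  | mem y hy =>
    induction hz using AddSubgroup.closure_induction with
    | mem z hz => exact hex y hy z hz
    | zero => rw [map_zero, lie_zero]
    | add x z _ _ hx hz => rw [map_add, lie_add, hx, hz, add_zero]
    | neg x _ hx => rw [map_neg, lie_neg, hx, neg_zero]
  | zero => rw [map_zero, zero_lie]
  | add x y _ _ hx hy => rw [map_add, add_lie, hx, hy, add_zero]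
  | neg x _ hx => rw [map_neg, neg_lie, hx, neg_zero]

end traces

end W7

open W7 in
/-- D11. -/
theorem stW_7 (hF : StFin) : StW := by
  intro h c
  obtain ⟨m, N, hm, H⟩ := hF h c
  refine ⟨m, N, hm, ?_⟩
  intro p _ W Γ _ _ _ act φ τ L ι hcard hτ hφ hφp hfix hact hLφ hιφ hW i j hi hj hij x hx y hy
  have hD := conv_datum (p := p) hφ hφp hfix
  have htW : ∀ x : W, p • x = 0 → x = 0 := no_torsion hφp hfix
  have htM : ∀ u : Conv p W, p • u = 0 → u = 0 := by
    intro u hu
    apply conv_ext; intro c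
    apply htW
    have := congrArg (evalHom c) hu
    exact this
  obtain ⟨q, hq⟩ := inv_p htW hW.tor
  have hL1 : ∀ n, 1 ≤ n → L n ≤ L 1 := by
    intro n hn
    induction n, hn using Nat.le_induction with
    | base => exact le_rfl
    | succ n hn ih => exact (hW.Lle n hn).trans ih
  have hVir : Vir m c τ (sig p act) (fun n => fam (shift p W) (lift p φ) (L n)) (lift p ι)
      (eig (shift p W) (lift p φ)) (proj (shift p W) (lift p φ)) := by
    refine ⟨⟨hτ, ?_, ?_, ?_, ?_, ?_⟩, eig_isSub hD, ?_, ?_, ?_, ?_, ?_, ?_⟩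
    · intro n hn
      refine ⟨fun g u v => lift_lie (hW.lie g) u v, ?_⟩
      intro g a u hu
      refine ⟨?_, fun c => hW.Lact n hn g _ (hu.2 c)⟩
      have hu1 := hu.1
      rw [mem_eig] at hu1 ⊢
      have h1 : lift p φ * lift p (act g) =
          lift p (act g) * (lift p φ) ^ (((τ g : (ZMod p)ˣ) : ZMod p)).val := by
        rw [← lift_mul, hact, lift_mul, lift_pow]
      change lift p φ (lift p (act g) u) = chi (shift p W) _ (lift p (act g) u)
      rw [← end_mul_apply, h1, end_mul_apply, eig_pow hD hu.1, ← chi_mul hD, mul_comm]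
      apply conv_ext; intro c
      rw [chi_shift_apply, lift_apply, lift_apply, chi_shift_apply]
    · refine ⟨fun u hu => (eig_isSub hD).zero u hu.1, ?_⟩
      intro a b u v hu hv
      refine ⟨eig_lie hD a b u v hu.1 hv.1, ?_⟩
      exact lie_val (fun x hx y hy => hW.Lle 1 le_rfl (hW.Llie 1 le_rfl x hx y hy)) hu.2 hv.2
    · intro n hn a u hu
      exact ⟨hu.1, fun c => hW.Lle n hn (hu.2 c)⟩
    · intro n hn a b u v hu hv
      exact ⟨eig_lie hD a b u v hu.1 hv.1,
        lie_val (fun x hx y hy => hW.Llie n hn x hx y hy) hu.2 hv.2⟩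
    · intro n hn a u hu
      exact gen_mem hD htM (hLφ n hn) (hLφ 1 le_rfl) (hW.Lgen n hn) hq a hu
    · intro a u hu
      exact hu.1
    · intro a u hu
      have hu1 := hu.1
      rw [mem_eig] at hu1 ⊢
      have h1 : lift p φ * lift p ι = lift p ι * lift p φ := by
        rw [← lift_mul, ← lift_mul]
        congr 1
        exact AddMonoidHom.ext (fun x => (hιφ x).symm)
      rw [← end_mul_apply, h1, end_mul_apply, hu1]
      apply conv_ext; intro c
      rw [chi_shift_apply, lift_apply, lift_apply, chi_shift_apply]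
    · intro a t u hu hat
      rw [proj_eig hD hu, if_neg hat]
    · intro a u hu h0
      rw [proj_eig hD hu, if_pos rfl] at h0
      exact htM u h0
    · intro a b u v hu hv
      apply conv_ext; intro c
      rw [lift_apply, conv_lie, conv_lie, map_sum]
      refine Finset.sum_congr rfl (fun a _ => ?_)
      exact hW.ιlie _ (hu.2 a) _ (hv.2 (c - a))
    · intro u hu v hv
      have h1 := trc_val act (hW.Lact 1 le_rfl)
        (T := fam (shift p W) (lift p φ) (L 1)) (fun a u hu => hu.2) c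
      apply conv_ext; intro c'
      rw [conv_lie, conv_zero]
      refine Finset.sum_eq_zero (fun a _ => ?_)
      exact closure_zero act ι (L 1) _ c hW.ex (h1 u hu a) (h1 v hv (c' - a))
  have hfin := H p (Conv p W) Γ τ (sig p act) (fun n => fam (shift p W) (lift p φ) (L n))
    (lift p ι) (eig (shift p W) (lift p φ)) (proj (shift p W) (lift p φ)) hcard hVir i j hi hj hij
  have hi1 : 1 ≤ i := hm.trans hi
  have hj1 : 1 ≤ j := hm.trans hj
  have hmem : ∀ (n : ℕ), 1 ≤ n → ∀ x ∈ L n, ∀ b : ZMod p,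
      proj (shift p W) (lift p φ) b (emb p x) ∈ fam (shift p W) (lift p φ) (L n) b :=
    fun n hn x hx b => ⟨proj_mem hD b _, proj_val (hLφ n hn) (emb_val hx) b⟩
  have h1 : ⁅lift p ι (dOp p W (emb p x)), lift p ι (dOp p W (emb p y))⁆ = 0 := by
    rw [← sum_proj_apply hD, ← sum_proj_apply hD, map_sum, map_sum, sum_lie]
    refine Finset.sum_eq_zero (fun a _ => ?_)
    rw [lie_sum]
    exact Finset.sum_eq_zero (fun b _ => hfin a b _ (hmem i hi1 x hx a) _ (hmem j hj1 y hy b))
  have h2 : ∀ x : W, lift p ι (dOp p W (emb p x)) = dOp p W (emb p (ι x)) := by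
    intro x
    have e1 : ∀ u : Conv p W, dOp p W u = p • u - nrm p (shift p W) u := by
      intro u
      rw [← natCast_end_apply]
      rfl
    have e2 : lift p ι (emb p x) = emb p (ι x) := by
      apply conv_ext; intro c
      rw [lift_apply, emb_apply, emb_apply]
      split_ifs
      · rfl
      · rw [map_zero]
    rw [e1, e1, map_sub, map_nsmul, e2]
    congr 1
    unfold nrm
    rw [Pool.Agent.Lib.MP_2b9f9a_al.sum_apply, Pool.Agent.Lib.MP_2b9f9a_al.sum_apply, map_sum,
      ← e2]
    refine Finset.sum_congr rfl (fun a _ => ?_)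
    apply conv_ext; intro c
    rw [chi_shift_apply, lift_apply, lift_apply, chi_shift_apply]
  rw [h2, h2, dOp_lie hD, lie_dOp hD, dOp_dOp hD, emb_lie] at h1
  have h3 := htM _ h1
  have h4 := congrArg (evalHom (1 : ZMod p)) h3
  have h5 : dOp p W (emb p ⁅ι x, ι y⁆) (1 : ZMod p) = 0 := h4
  rw [dOp_emb] at h5
  exact neg_eq_zero.mp h5

end Pool.Agent.DL17
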