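import Pool.Agent.Lib.MP_2b9f9a_al.DL.NT_38
import Pool.Agent.Lib.MP_2b9f9a_al.DL.AB17
import Pool.Agent.Lib.MP_2b9f9a_al.DL.Key_49
import Pool.Agent.Lib.MP_2b9f9a_al.DL.Comb_19
import Pool.Agent.Lib.MP_2b9f9a_al.DL.D5_27
import Pool.Agent.Lib.MP_2b9f9a_al.DL.PB_43
import Pool.Agent.Lib.MP_2b9f9a_al.DL.FS_42
import Pool.Agent.Lib.MP_2b9f9a_al.DL.LT_2
import Pool.Agent.Lib.MP_2b9f9a_al.DL.Sel17
import Pool.Agent.Lib.MP_2b9f9a_al.DL.Fin_30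
import Pool.Agent.Lib.MP_2b9f9a_al.DL.W_7
import Pool.Agent.Lib.MP_2b9f9a_al.DL.WF_41
import Pool.Agent.Lib.MP_2b9f9a_al.DL.GL_78
import Pool.Agent.Lib.MP_2b9f9a_al.DL.MF_12
import Pool.Agent.Lib.MP_2b9f9a_al.DL.Grp_28
import Pool.Agent.Lib.MP_2b9f9a_al.DL.Pr86
import Pool.Agent.Lib.MP_2b9f9a_al.DL.Nil31
import Pool.Agent.Lib.MP_2b9f9a_al.PX.Fpf28
import Pool.Agent.Lib.MP_2b9f9a_al.PX.Cov28

/-!
# Assembly of DL17.
-/

set_option autoImplicit false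

namespace Pool.Agent.DL17

theorem dc : StDC := stDC_27 (stAB_17 stNT_38) stKey_49 stComb_19

theorem lt : StLT := stLT_2 dc

theorem fin : StFin := stFin_30 (stSel_17 lt) (stFS_42 stPB_43)

theorem wf : StWF := stWF_41 (stW_7 fin)

theorem grp : StGrp := stGrp_28 stMF_12 Pool.Agent.PX.stFpf_28 Pool.Agent.PX.stCov_28

theorem pr : StPr := stPr_86 stGL_78 stMF_12 grp wf

/-- The theorem. -/
theorem nil : StNil := stNil_31 pr

end Pool.Agent.DL17
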