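import Pool.Agent.Lib.MP_2b9f9a_al.DL.Stmts17

/-!
# D10 of DL17 (MP_2b9f9a): the conclusion for graded families
-/

set_option autoImplicit false

namespace Pool.Agent.DL17

open Pool.Agent.Lib.MP_2b9f9a_al

namespace Fin30

variable {p : ℕ} {M Γ : Type} [LieRing M] [Group Γ]

theorem fil_anti {τ : Γ →* (ZMod p)ˣ} {σ : Γ →* AddMonoid.End M} {L : ℕ → Fam (ZMod p) M}
    (hF : Fil τ σ L) {i j : ℕ} (hi : 1 ≤ i) (hij : i ≤ j) : L j ≤ L i := by
  induction hij with
  | refl => exact le_rfl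
  | step h ih => exact (hF.le _ (hi.trans h)).trans ih

/-- the virtual copy of `L i` -/
def XI (L : ℕ → Fam (ZMod p) M) (ι : AddMonoid.End M) (i : ℕ) : Fam (ZMod p) M := fun a =>
  (L i a).map ι

theorem mem_XI {L : ℕ → Fam (ZMod p) M} {ι : AddMonoid.End M} {i : ℕ} {a : ZMod p} {z : M} :
    z ∈ XI L ι i a ↔ ∃ x ∈ L i a, ι x = z := AddSubgroup.mem_map

/-- `Z_N` -/
def Zf (m : ℕ) (L : ℕ → Fam (ZMod p) M) (ι : AddMonoid.End M) (N : ℕ) : Fam (ZMod p) M := fun a =>
  AddSubgroup.closure {z | ∃ i j, m ≤ i ∧ m ≤ j ∧ N ≤ i + j ∧ z ∈ br (XI L ι i) (XI L ι j) a}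

theorem le_Zf {m : ℕ} {L : ℕ → Fam (ZMod p) M} {ι : AddMonoid.End M} {N i j : ℕ} (hi : m ≤ i)
    (hj : m ≤ j) (h : N ≤ i + j) : br (XI L ι i) (XI L ι j) ≤ Zf m L ι N :=
  fun _ _ hz => AddSubgroup.subset_closure ⟨i, j, hi, hj, h, hz⟩

theorem Zf_le {m : ℕ} {L : ℕ → Fam (ZMod p) M} {ι : AddMonoid.End M} {N : ℕ}
    {Y : Fam (ZMod p) M}
    (h : ∀ i j, m ≤ i → m ≤ j → N ≤ i + j → br (XI L ι i) (XI L ι j) ≤ Y) : Zf m L ι N ≤ Y := by
  intro a
  refine (AddSubgroup.closure_le _).2 ?_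
  rintro z ⟨i, j, hi, hj, hN, hz⟩
  exact h i j hi hj hN a hz

end Fin30

open Fin30

theorem stFin_30 (hSel : StSel) (hFS : StFS) : StFin := by
  intro h c
  obtain ⟨m, hm1, hsel⟩ := hSel h c
  obtain ⟨n, k, hfs⟩ := hFS h
  refine ⟨m, 2 * m + 2 * n + k * n, hm1, ?_⟩
  intro p _ M Γ _ _ _ τ σ L ι E P hcard hV
  classical
  have hF := hV.fil
  set T : Fam (ZMod p) M := L 1 with hT
  set R : Finset (ZMod p) := Finset.univ.image (fun g : Γ => ((τ g : (ZMod p)ˣ) : ZMod p)) with hR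
  have hRc : R.card ≤ h := by
    refine Finset.card_image_le.trans ?_
    rw [Finset.card_univ, hcard]
  have hRs : (R : Set (ZMod p)) = Set.range fun g : Γ => ((τ g : (ZMod p)ˣ) : ZMod p) := by
    ext x
    simp [hR]
  have hanti : ∀ {i j : ℕ}, m ≤ i → i ≤ j → XI L ι j ≤ XI L ι i := by
    intro i j hi hij a z hz
    obtain ⟨x, hx, rfl⟩ := mem_XI.1 hz
    exact mem_XI.2 ⟨x, fil_anti hF (hm1.trans hi) hij a hx, rfl⟩
  have hLm : L m ≤ L 1 := fil_anti hF le_rfl hm1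
  have hX0 : ∀ x ∈ XI L ι m 0, x = 0 := by
    intro z hz
    obtain ⟨x, hx, rfl⟩ := mem_XI.1 hz
    rw [hF.sub.zero x (hLm 0 hx), map_zero]
  have hbr : br (XI L ι m) (XI L ι m) ≤ E := by
    intro a
    apply br_le
    rintro b b' z z' rfl hz hz'
    obtain ⟨x, hx, rfl⟩ := mem_XI.1 hz
    obtain ⟨x', hx', rfl⟩ := mem_XI.1 hz'
    exact hV.esub.lie _ _ _ _ (hV.ιE _ _ (hLm _ hx)) (hV.ιE _ _ (hLm _ hx'))
  have hinv : ∀ i, m ≤ i → Inv (XI L ι i) T := by
    intro i hi a b z y hz hy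
    obtain ⟨x, hx, rfl⟩ := mem_XI.1 hz
    rw [← hV.ιlie a b x y (fil_anti hF hm1 hi a hx) hy]
    exact mem_XI.2 ⟨_, hF.le i (hm1.trans hi) _ (hF.lie i (hm1.trans hi) a b x y hx hy), rfl⟩
  obtain ⟨fs1, fs2⟩ := hfs p M R T (XI L ι m) hRc hF.sub hX0
    (fun z hz => hV.esub.zero z (hbr 0 hz)) (hinv m le_rfl) (by
      intro a b hab z hz z' hz'
      obtain ⟨x, hx, rfl⟩ := mem_XI.1 hz
      obtain ⟨x', hx', rfl⟩ := mem_XI.1 hz'
      rw [hRs] at hab
      exact hsel m le_rfl p M Γ τ σ L ι E P hcard hV a b hab x hx x' hx')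
  -- deep elements are long commutators
  have hdeep : ∀ (l i : ℕ), m ≤ i → XI L ι (i + l) ≤ iter (XI L ι i) T l := by
    intro l
    induction l with
    | zero =>
      intro i _
      exact le_rfl
    | succ l ih =>
      intro i hi a z hz
      obtain ⟨x, hx, rfl⟩ := mem_XI.1 hz
      have h1 : x ∈ br (L (i + l)) (L 1) a := hF.gen (i + l) (by omega) a hx
      have h2 : ∀ x ∈ br (L (i + l)) (L 1) a, ι x ∈ br (iter (XI L ι i) T l) T a := by
        intro x hx
        unfold br at hx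
        induction hx using AddSubgroup.closure_induction with
        | mem z hz =>
          obtain ⟨b, x, hx, y, hy, rfl⟩ := hz
          rw [hV.ιlie b (a - b) x y (fil_anti hF hm1 (by omega) b hx) hy]
          refine mem_br' (ih i hi b (mem_XI.2 ⟨x, hx, rfl⟩)) hy (by abel)
        | zero => rw [map_zero]; exact zero_mem _
        | add x y _ _ hx hy => rw [map_add]; exact add_mem hx hy
        | neg x _ hx => rw [map_neg]; exact neg_mem hx
      exact h2 x h1
  -- one step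
  have hone : ∀ i j, m ≤ i → m ≤ j → m + n ≤ i → ∀ a b z z', z ∈ XI L ι i a → z' ∈ XI L ι j b →
      ⁅z, z'⁆ ∈ br (br (XI L ι (i - n)) (XI L ι j)) T (a + b) := by
    intro i j hi hj hin a b z z' hz hz'
    have h1 : m ≤ i - n := by omega
    have h2 := hdeep n (i - n) h1
    rw [Nat.sub_add_cancel (by omega : n ≤ i)] at h2
    exact fs1 (XI L ι (i - n)) (XI L ι j) (hanti le_rfl h1) (hanti le_rfl hj) (hinv _ h1)
      (hinv _ hj) a b z z' (h2 a hz) hz'
  have hstep : ∀ N, 2 * m + 2 * n ≤ N + n → Zf m L ι (N + n) ≤ br (Zf m L ι N) T := by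
    intro N hN
    refine Zf_le fun i j hi hj hij => ?_
    intro a
    apply br_le
    rintro b b' z z' rfl hz hz'
    rcases le_or_gt (m + n) i with h1 | h1
    · exact br_mono (le_Zf (by omega) hj (by omega)) le_rfl _ (hone i j hi hj h1 b b' z z' hz hz')
    · have h2 : m + n ≤ j := by omega
      have h3 := hone j i hj hi h2 b' b z' z hz' hz
      have h4 := br_mono (le_Zf (m := m) (L := L) (ι := ι) (N := N) (by omega : m ≤ j - n) hi
        (by omega)) (le_refl T) _ h3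
      rw [add_comm b' b] at h4
      rw [← lie_skew]
      exact neg_mem h4
  have hall : ∀ l N, 2 * m + 2 * n + l * n ≤ N →
      Zf m L ι N ≤ iter (br (XI L ι m) (XI L ι m)) T l := by
    intro l
    induction l with
    | zero =>
      intro N _
      refine Zf_le fun i j hi hj _ => ?_
      exact br_mono (hanti le_rfl hi) (hanti le_rfl hj)
    | succ l ih =>
      intro N hN
      have h1 : (l + 1) * n = l * n + n := by ring
      have h2 := hstep (N - n) (by omega)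
      rw [Nat.sub_add_cancel (by omega : n ≤ N)] at h2
      exact h2.trans (br_mono (ih (N - n) (by omega)) le_rfl)
  intro i j hi hj hN a b x hx y hy
  refine fs2 (a + b) _ (hall k _ le_rfl (a + b) (le_Zf hi hj hN (a + b) ?_))
  exact mem_br (mem_XI.2 ⟨x, hx, rfl⟩) (mem_XI.2 ⟨y, hy, rfl⟩)

end Pool.Agent.DL17
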