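import Pool.Agent.Lib.MP_2b9f9a_al.DL.Key_49

/-!
# LemmaA of DL78 (MP_2b9f9a)
-/

set_option autoImplicit false

namespace Pool.Agent.DL17

open Pool.Agent.Lib.MP_2b9f9a_al

namespace LemA22

open D5h27 Key49

variable {p : ℕ} {M V Γ α : Type} [LieRing M] [AddCommGroup V] [Group Γ] [DecidableEq α]

/-- A letter: a set of labels, a weight, an element. -/
abbrev Lt (p : ℕ) (M α : Type) := Finset α × ZMod p × M

/-- Action of a word. -/
def wa (l : List (Lt p M α)) (x : M) : M := l.foldl (fun x e => ⁅x, e.2.2⁆) x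

/-- The word `l` leads from the set of labels `I` to the set of labels `J`. -/
def Adm (X : Finset α → Fam (ZMod p) M) : List (Lt p M α) → Finset α → Finset α → Prop
  | [], I, J => I = J
  | e :: l, I, J => Disjoint I e.1 ∧ e.2.2 ∈ X e.1 e.2.1 ∧ Adm X l (I ∪ e.1) J

/-- The hypotheses of LemmaA. -/
structure LA [Fintype Γ] (S : Finset (ZMod p)) (τ : Γ →* (ZMod p)ˣ) (σ : Γ →* AddMonoid.End M)
    (X : Finset α → Fam (ZMod p) M) (κ : M →+ V) (R : Finset α) (l0 : α) : Prop where
  mem : l0 ∈ R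
  inj : Function.Injective τ
  slie : ∀ g x y, σ g ⁅x, y⁆ = ⁅σ g x, σ g y⁆
  smap : ∀ g I, I ⊆ R → ∀ a x, x ∈ X I a → σ g x ∈ X I (((τ g : (ZMod p)ˣ) : ZMod p) * a)
  zero : ∀ I, I ⊆ R → ∀ x ∈ X I 0, x = 0
  lie : ∀ I J, I ⊆ R → J ⊆ R → Disjoint I J → ∀ a b x y, x ∈ X I a → y ∈ X J b →
    ⁅x, y⁆ ∈ X (I ∪ J) (a + b)
  supp : ∀ a ∉ S, ∀ x ∈ X R a, κ x = 0
  kill : ∀ I J, Disjoint I J → I ∪ J = R → l0 ∈ I → ∀ a b x z, x ∈ X I a → z ∈ X J b →
    κ ⁅x, tr σ z⁆ = 0

theorem wa_cons (e : Lt p M α) (l : List (Lt p M α)) (x : M) :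
    wa (e :: l) x = wa l ⁅x, e.2.2⁆ := rfl

theorem wa_append (u v : List (Lt p M α)) (x : M) : wa (u ++ v) x = wa v (wa u x) := by
  unfold wa
  rw [List.foldl_append]

theorem wa_add (l : List (Lt p M α)) : ∀ x y : M, wa l (x + y) = wa l x + wa l y := by
  induction l with
  | nil => intro x y; rfl
  | cons q l ih => intro x y; rw [wa_cons, wa_cons, wa_cons, add_lie, ih]

theorem wa_neg (l : List (Lt p M α)) : ∀ x : M, wa l (-x) = - wa l x := by
  induction l with
  | nil => intro x; rfl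
  | cons q l ih => intro x; rw [wa_cons, wa_cons, neg_lie, ih]

theorem wa_zero (l : List (Lt p M α)) : wa l (0 : M) = 0 := by
  induction l with
  | nil => rfl
  | cons q l ih => rw [wa_cons, zero_lie, ih]

/-- Exchange of two letters. -/
theorem wa_swap (u v : List (Lt p M α)) (e e' : Lt p M α) (I : Finset α) (c : ZMod p) (x : M) :
    wa (u ++ e :: e' :: v) x
      = wa (u ++ e' :: e :: v) x + wa (u ++ (I, c, ⁅e.2.2, e'.2.2⁆) :: v) x := by
  rw [wa_append, wa_append, wa_append, wa_cons, wa_cons, wa_cons, wa_cons, wa_cons, ← wa_add,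
    lie3]

theorem adm_append {X : Finset α → Fam (ZMod p) M} {u v : List (Lt p M α)} {J : Finset α} :
    ∀ {I : Finset α}, Adm X (u ++ v) I J ↔ ∃ K, Adm X u I K ∧ Adm X v K J := by
  induction u with
  | nil =>
    intro I
    constructor
    · intro h; exact ⟨I, rfl, h⟩
    · rintro ⟨K, rfl, h⟩; exact h
  | cons e u ih =>
    intro I
    constructor
    · rintro ⟨h1, h2, h3⟩
      obtain ⟨K, h4, h5⟩ := ih.mp h3
      exact ⟨K, ⟨h1, h2, h4⟩, h5⟩
    · rintro ⟨K, ⟨h1, h2, h4⟩, h5⟩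
      exact ⟨h1, h2, ih.mpr ⟨K, h4, h5⟩⟩

theorem adm_sub {X : Finset α → Fam (ZMod p) M} {l : List (Lt p M α)} {J : Finset α} :
    ∀ {I : Finset α}, Adm X l I J → I ⊆ J := by
  induction l with
  | nil => intro I h; exact le_of_eq h
  | cons e l ih =>
    rintro I ⟨_, _, h⟩
    exact Finset.subset_union_left.trans (ih h)

theorem adm_card {X : Finset α → Fam (ZMod p) M} {l : List (Lt p M α)} {J : Finset α} :
    ∀ {I : Finset α}, (∀ e ∈ l, e.1.Nonempty) → Adm X l I J → l.length + I.card ≤ J.card := by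
  induction l with
  | nil =>
    intro I _ h
    have h : I = J := h
    rw [h]; simp
  | cons e l ih =>
    rintro I hl ⟨h1, _, h⟩
    have h2 := ih (fun e' he' => hl e' (List.mem_cons_of_mem _ he')) h
    rw [Finset.card_union_of_disjoint h1] at h2
    have h3 : 0 < e.1.card := Finset.card_pos.mpr (hl e List.mem_cons_self)
    rw [List.length_cons]
    omega

/-- Merging two letters. -/
def mg (e e' : Lt p M α) : Lt p M α := (e.1 ∪ e'.1, e.2.1 + e'.2.1, ⁅e.2.2, e'.2.2⁆)

theorem adm_swap {X : Finset α → Fam (ZMod p) M} {v : List (Lt p M α)} {e e' : Lt p M α}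
    {I J : Finset α} (h : Adm X (e :: e' :: v) I J) : Adm X (e' :: e :: v) I J := by
  obtain ⟨h1, h2, h3, h4, h5⟩ := h
  rw [Finset.disjoint_union_left] at h3
  refine ⟨h3.1, h4, ?_, h2, ?_⟩
  · rw [Finset.disjoint_union_left]
    exact ⟨h1, h3.2.symm⟩
  · rw [Finset.union_right_comm]
    exact h5

section
variable [Fintype Γ] {S : Finset (ZMod p)} {τ : Γ →* (ZMod p)ˣ} {σ : Γ →* AddMonoid.End M}
  {X : Finset α → Fam (ZMod p) M} {κ : M →+ V} {R : Finset α} {l0 : α}

theorem adm_merge (h : LA S τ σ X κ R l0) {v : List (Lt p M α)} {e e' : Lt p M α}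
    {I J : Finset α} (hJ : J ⊆ R) (ha : Adm X (e :: e' :: v) I J) :
    Adm X (mg e e' :: v) I J := by
  obtain ⟨h1, h2, h3, h4, h5⟩ := ha
  have hs := (adm_sub h5).trans hJ
  rw [Finset.disjoint_union_left] at h3
  refine ⟨?_, ?_, ?_⟩
  · show Disjoint I (e.1 ∪ e'.1)
    rw [Finset.disjoint_union_right]
    exact ⟨h1, h3.1⟩
  · show ⁅e.2.2, e'.2.2⁆ ∈ X (e.1 ∪ e'.1) (e.2.1 + e'.2.1)
    refine h.lie _ _ ?_ ?_ h3.2 _ _ _ _ h2 h4
    · exact (Finset.subset_union_right.trans Finset.subset_union_left).trans hs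
    · exact Finset.subset_union_right.trans hs
  · show Adm X v (I ∪ (e.1 ∪ e'.1)) J
    rw [← Finset.union_assoc]
    exact h5

theorem adm_mem (h : LA S τ σ X κ R l0) {l : List (Lt p M α)} {J : Finset α} (hJ : J ⊆ R) :
    ∀ {I : Finset α} {a : ZMod p} {x : M}, Adm X l I J → x ∈ X I a → ∃ c, wa l x ∈ X J c := by
  induction l with
  | nil =>
    intro I a x hI hx
    have hI : I = J := hI
    rw [← hI]
    exact ⟨a, hx⟩
  | cons e l ih =>
    rintro I a x ⟨h1, h2, h3⟩ hx
    have hs := (adm_sub h3).trans hJ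
    rw [wa_cons]
    exact ih h3 (h.lie _ _ (Finset.subset_union_left.trans hs) (Finset.subset_union_right.trans hs)
      h1 _ _ _ _ hx h2)

theorem good [Fact p.Prime] (h : LA S τ σ X κ R l0) {I J : Finset α} (hIJ : Disjoint I J)
    (hR : I ∪ J = R) (hl : l0 ∈ I) {a b : ZMod p} (hb : b ∉ bad S τ) {x u : M} (hx : x ∈ X I a)
    (hu : u ∈ X J b) : κ ⁅x, u⁆ = 0 := by
  classical
  have hI : I ⊆ R := hR ▸ Finset.subset_union_left
  have hJ : J ⊆ R := hR ▸ Finset.subset_union_right
  have hlie : ∀ {c y}, y ∈ X J c → ⁅x, y⁆ ∈ X R (a + c) := by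
    intro c y hy
    have := h.lie _ _ hI hJ hIJ _ _ _ _ hx hy
    rwa [hR] at this
  by_cases hab : a + b ∈ S
  · have h1 := h.kill I J hIJ hR hl a b x u hx hu
    unfold tr at h1
    rw [lie_sum, map_sum, Finset.sum_eq_single (1 : Γ)] at h1
    · rw [map_one] at h1
      exact h1
    · intro g _ hg
      apply h.supp (a + ((τ g : (ZMod p)ˣ) : ZMod p) * b) _ _ (hlie (h.smap g J hJ b u hu))
      intro hmem
      apply hb
      unfold bad
      rw [Finset.mem_biUnion]
      refine ⟨g, by simp [hg], ?_⟩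
      rw [Finset.mem_image]
      refine ⟨(a + ((τ g : (ZMod p)ˣ) : ZMod p) * b, a + b), ?_, ?_⟩
      · rw [Finset.mem_product]; exact ⟨hmem, hab⟩
      · have hne : (((τ g : (ZMod p)ˣ) : ZMod p)) - 1 ≠ 0 := by
          intro h0
          apply hg
          apply h.inj
          rw [map_one]
          apply Units.ext
          rw [Units.val_one]
          exact sub_eq_zero.mp h0
        rw [mul_inv_eq_iff_eq_mul₀ hne]
        ring
    · intro h0; exact absurd (Finset.mem_univ _) h0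
  · exact h.supp _ hab _ (hlie hu)

/-- The support of the first letter of a word with `m` further letters. -/
def SW (S B : Finset (ZMod p)) : ℕ → Finset (ZMod p)
  | 0 => S
  | m + 1 => SW S B m ∪ ((SW S B m) ×ˢ B).image fun q => q.1 - q.2

theorem SW_mono (S B : Finset (ZMod p)) {m m' : ℕ} (h : m ≤ m') : SW S B m ⊆ SW S B m' := by
  induction m' with
  | zero =>
    have : m = 0 := by omega
    subst this
    exact subset_rfl
  | succ m' ih =>
    rcases Nat.lt_or_ge m (m' + 1) with h1 | h1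
    · exact (ih (by omega)).trans Finset.subset_union_left
    · have : m = m' + 1 := by omega
      subst this
      exact subset_rfl

theorem SW_card (S B : Finset (ZMod p)) {N K : ℕ} (hS : S.card ≤ N) (hB : B.card ≤ K) (m : ℕ) :
    (SW S B m).card ≤ N * (1 + K) ^ m := by
  induction m with
  | zero => simpa [SW] using hS
  | succ m ih =>
    refine (Finset.card_union_le _ _).trans ?_
    have h1 : (((SW S B m) ×ˢ B).image fun q => q.1 - q.2).card ≤ N * (1 + K) ^ m * K := by
      refine Finset.card_image_le.trans ?_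
      rw [Finset.card_product]
      exact Nat.mul_le_mul ih hB
    calc (SW S B m).card + (((SW S B m) ×ˢ B).image fun q => q.1 - q.2).card
        ≤ N * (1 + K) ^ m + N * (1 + K) ^ m * K := Nat.add_le_add ih h1
      _ = N * (1 + K) ^ (m + 1) := by ring

/-- Moving a good letter to the right end. -/
theorem move22 [Fact p.Prime] (h : LA S τ σ X κ R l0) {I : Finset α} (hl : l0 ∈ I)
    {a : ZMod p} {ξ : M} (hξ : ξ ∈ X I a) {m : ℕ}
    (hm : ∀ l : List (Lt p M α), l.length = m → Adm X l I R → κ (wa l ξ) = 0)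
    (v : List (Lt p M α)) :
    ∀ (u : List (Lt p M α)) (e : Lt p M α), e.2.1 ∉ bad S τ → (u ++ v).length = m →
      Adm X (u ++ e :: v) I R → κ (wa (u ++ e :: v) ξ) = 0 := by
  induction v with
  | nil =>
    intro u e he _ hadm
    obtain ⟨K, h1, h2⟩ := adm_append.mp hadm
    obtain ⟨h3, h4, h5⟩ := h2
    have h5 : K ∪ e.1 = R := h5
    have hK : K ⊆ R := h5 ▸ Finset.subset_union_left
    obtain ⟨c, hc⟩ := adm_mem h hK h1 hξ
    rw [wa_append]
    exact good h h3 h5 (adm_sub h1 hl) he hc h4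
  | cons e' v ih =>
    intro u e he hlen hadm
    rw [wa_swap u v e e' (e.1 ∪ e'.1) (e.2.1 + e'.2.1) ξ, map_add]
    have h1 : κ (wa (u ++ e' :: e :: v) ξ) = 0 := by
      have h2 := ih (u ++ [e']) e he (by simpa using hlen) (by
        obtain ⟨K, h1, h2⟩ := adm_append.mp hadm
        have h3 := adm_append.mpr ⟨K, h1, adm_swap h2⟩
        simpa using h3)
      simpa using h2
    have h2 : κ (wa (u ++ mg e e' :: v) ξ) = 0 := by
      apply hm
      · simp only [List.length_append, List.length_cons] at hlen ⊢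
        omega
      · obtain ⟨K, h1, h2⟩ := adm_append.mp hadm
        exact adm_append.mpr ⟨K, h1, adm_merge h subset_rfl h2⟩
    rw [h1, zero_add]
    exact h2

/-- (W) -/
theorem supp22 [Fact p.Prime] (h : LA S τ σ X κ R l0) (m : ℕ) :
    ∀ (I : Finset α), l0 ∈ I → ∀ a, a ∉ SW S (bad S τ) m → ∀ ξ ∈ X I a,
      ∀ l : List (Lt p M α), l.length = m → Adm X l I R → κ (wa l ξ) = 0 := by
  induction m with
  | zero =>
    intro I _ a ha ξ hξ l hl hadm
    have : l = [] := List.length_eq_zero_iff.mp hl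
    subst this
    have hI : I = R := hadm
    rw [hI] at hξ
    exact h.supp a ha ξ hξ
  | succ m ih =>
    intro I hI a ha ξ hξ l hl hadm
    obtain ⟨e, l', rfl⟩ : ∃ e l', l = e :: l' := by
      cases l with
      | nil => simp at hl
      | cons e l' => exact ⟨e, l', rfl⟩
    have hl' : l'.length = m := by simpa using hl
    have ha' : a ∉ SW S (bad S τ) m := fun h1 => ha (Finset.mem_union_left _ h1)
    by_cases hb : e.2.1 ∈ bad S τ
    · obtain ⟨h1, h2, h3⟩ := hadm
      have hs := adm_sub h3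
      rw [wa_cons]
      refine ih (I ∪ e.1) (Finset.mem_union_left _ hI) (a + e.2.1) ?_ _ (h.lie _ _
        (Finset.subset_union_left.trans hs) (Finset.subset_union_right.trans hs) h1 _ _ _ _ hξ h2)
        l' hl' h3
      intro h4
      apply ha
      refine Finset.mem_union_right _ ?_
      rw [Finset.mem_image]
      exact ⟨(a + e.2.1, e.2.1), Finset.mem_product.mpr ⟨h4, hb⟩, by ring⟩
    · exact move22 h hI hξ (fun l hl hadm => ih I hI a ha' ξ hξ l hl hadm) l' [] e hb
        (by simpa using hl') hadm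

/-- The words: nonempty sets, then at least `P` letters of `T`. -/
def Form (X : Finset α → Fam (ZMod p) M) (R : Finset α) (l0 : α) (P : ℕ)
    (l : List (Lt p M α)) : Prop :=
  ∃ lz lu, l = lz ++ lu ∧ (∀ e ∈ lz, e.1.Nonempty) ∧ (∀ e ∈ lu, e.1 = ∅) ∧ P ≤ lu.length ∧
    Adm X l {l0} R

/-- The family `U_P`. -/
def UP (X : Finset α → Fam (ZMod p) M) (κ : M →+ V) (R : Finset α) (l0 : α) (P : ℕ) :
    Fam (ZMod p) M := fun a =>
  { carrier := {ξ | ξ ∈ X {l0} a ∧ ∀ l : List (Lt p M α), Form X R l0 P l → κ (wa l ξ) = 0}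
    zero_mem' := ⟨zero_mem _, fun l _ => by rw [wa_zero, map_zero]⟩
    add_mem' := by
      rintro x y ⟨hx, hx'⟩ ⟨hy, hy'⟩
      exact ⟨add_mem hx hy, fun l hl => by rw [wa_add, map_add, hx' l hl, hy' l hl, add_zero]⟩
    neg_mem' := by
      rintro x ⟨hx, hx'⟩
      exact ⟨neg_mem hx, fun l hl => by rw [wa_neg, map_neg, hx' l hl, neg_zero]⟩ }

theorem lie_T (h : LA S τ σ X κ R l0) {I : Finset α} (hI : I ⊆ R) {a b : ZMod p} {x y : M}
    (hx : x ∈ X I a) (hy : y ∈ X ∅ b) : ⁅x, y⁆ ∈ X I (a + b) := by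
  have := h.lie I ∅ hI (Finset.empty_subset _) (Finset.disjoint_empty_right _) _ _ _ _ hx hy
  rwa [Finset.union_empty] at this

theorem T_lie (h : LA S τ σ X κ R l0) {I : Finset α} (hI : I ⊆ R) {a b : ZMod p} {x y : M}
    (hx : x ∈ X ∅ a) (hy : y ∈ X I b) : ⁅x, y⁆ ∈ X I (a + b) := by
  have := h.lie ∅ I (Finset.empty_subset _) hI (Finset.disjoint_empty_left _) _ _ _ _ hx hy
  rwa [Finset.empty_union] at this

theorem adm_repl (h : LA S τ σ X κ R l0) {u w : List (Lt p M α)} {e : Lt p M α}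
    {I J : Finset α} (hJ : J ⊆ R) (hadm : Adm X (u ++ e :: w) I J) {c : ZMod p} {v : M}
    (hv : v ∈ X ∅ c) : Adm X (u ++ (e.1, c + e.2.1, ⁅v, e.2.2⁆) :: w) I J := by
  obtain ⟨K, h1, h2, h3, h4⟩ := adm_append.mp hadm
  have hs := (adm_sub h4).trans hJ
  exact adm_append.mpr ⟨K, h1, h2, T_lie h (Finset.subset_union_right.trans hs) hv h3, h4⟩

theorem form_repl (h : LA S τ σ X κ R l0) {P : ℕ} {u w : List (Lt p M α)} {e : Lt p M α}
    (hf : Form X R l0 P (u ++ e :: w)) {c : ZMod p} {v : M}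
    (hv : v ∈ X ∅ c) : Form X R l0 P (u ++ (e.1, c + e.2.1, ⁅v, e.2.2⁆) :: w) := by
  obtain ⟨lz, lu, h1, h2, h3, h4, h5⟩ := hf
  have hadm := adm_repl h subset_rfl h5 hv
  rcases List.append_eq_append_iff.mp h1 with ⟨as, h6, h7⟩ | ⟨bs, h6, h7⟩
  · -- `lz = u ++ as`, `e :: w = as ++ lu`
    cases as with
    | nil =>
      simp only [List.append_nil, List.nil_append] at h6 h7
      refine ⟨lz, (e.1, c + e.2.1, ⁅v, e.2.2⁆) :: w, by rw [h6], h2, ?_, ?_, hadm⟩
      · intro e' he'
        rw [List.mem_cons] at he'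
        rcases he' with rfl | he'
        · exact h3 e (h7 ▸ List.mem_cons_self)
        · exact h3 e' (h7 ▸ List.mem_cons_of_mem _ he')
      · rw [← h7] at h4
        simpa using h4
    | cons e1 as =>
      simp only [List.cons_append, List.cons.injEq] at h7
      obtain ⟨rfl, h7⟩ := h7
      refine ⟨u ++ (e.1, c + e.2.1, ⁅v, e.2.2⁆) :: as, lu, by rw [h7]; simp, ?_, h3, h4, hadm⟩
      intro e' he'
      rw [List.mem_append, List.mem_cons] at he'
      rcases he' with he' | rfl | he'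
      · exact h2 e' (by rw [h6]; simp [he'])
      · exact h2 e (by rw [h6]; simp)
      · exact h2 e' (by rw [h6]; simp [he'])
  · -- `u = lz ++ bs`, `lu = bs ++ e :: w`
    refine ⟨lz, bs ++ (e.1, c + e.2.1, ⁅v, e.2.2⁆) :: w, by rw [h6]; simp, h2, ?_, ?_, hadm⟩
    · intro e' he'
      rw [List.mem_append, List.mem_cons] at he'
      rcases he' with he' | rfl | he'
      · exact h3 e' (by rw [h7]; simp [he'])
      · exact h3 e (by rw [h7]; simp)
      · exact h3 e' (by rw [h7]; simp [he'])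
    · rw [h7] at h4
      simpa using h4

theorem form_snoc {P : ℕ} {l : List (Lt p M α)}
    (hf : Form X R l0 P l) {c : ZMod p} {v : M} (hv : v ∈ X ∅ c) :
    Form X R l0 P (l ++ [(∅, c, v)]) := by
  obtain ⟨lz, lu, h1, h2, h3, h4, h5⟩ := hf
  refine ⟨lz, lu ++ [(∅, c, v)], by rw [h1]; simp, h2, ?_, ?_, ?_⟩
  · intro e he
    rw [List.mem_append, List.mem_singleton] at he
    rcases he with he | rfl
    · exact h3 e he
    · rfl
  · rw [List.length_append]; omega
  · rw [adm_append]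
    exact ⟨R, h5, Finset.disjoint_empty_right _, hv, Finset.union_empty _⟩

/-- `U_P` is `T`-invariant. -/
theorem UP_inv (h : LA S τ σ X κ R l0) (P : ℕ) : Inv (UP X κ R l0 P) (X ∅) := by
  intro a c ξ v hξ hv
  have hl0 : ({l0} : Finset α) ⊆ R := Finset.singleton_subset_iff.mpr h.mem
  refine ⟨lie_T h hl0 hξ.1 hv, ?_⟩
  have key : ∀ w u : List (Lt p M α), Form X R l0 P (u ++ w) →
      κ (wa (u ++ ((∅ : Finset α), c, v) :: w) ξ) = 0 := by
    intro w
    induction w with
    | nil =>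
      intro u hf
      rw [List.append_nil] at hf
      exact hξ.2 _ (form_snoc hf hv)
    | cons e w ih =>
      intro u hf
      rw [wa_swap u w (∅, c, v) e e.1 (c + e.2.1) ξ, map_add]
      have h1 : κ (wa (u ++ e :: ((∅ : Finset α), c, v) :: w) ξ) = 0 := by
        have h2 := ih (u ++ [e]) (by simpa using hf)
        simpa using h2
      rw [h1, zero_add]
      exact hξ.2 _ (form_repl h hf hv)
  intro l hl
  have := key l [] hl
  simpa [wa_cons] using this

theorem wa_iter (h : LA S τ σ X κ R l0) : ∀ (l : List (Lt p M α)), (∀ e ∈ l, e.1 = ∅) →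
    Adm X l R R → ∀ (n : ℕ) (a : ZMod p) (x : M), x ∈ iter (X R) (X ∅) n a →
    ∃ c, wa l x ∈ iter (X R) (X ∅) (n + l.length) c := by
  intro l
  induction l with
  | nil => intro _ _ n a x hx; exact ⟨a, hx⟩
  | cons e l ih =>
    intro hl hadm n a x hx
    have he := hl e List.mem_cons_self
    obtain ⟨_, h2, h3⟩ := hadm
    rw [he] at h2
    rw [he, Finset.union_empty] at h3
    have h1 : ⁅x, e.2.2⁆ ∈ iter (X R) (X ∅) (n + 1) (a + e.2.1) := mem_br hx h2
    obtain ⟨c, hc⟩ := ih (fun q' hq' => hl q' (List.mem_cons_of_mem _ hq')) h3 (n + 1) _ _ h1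
    refine ⟨c, ?_⟩
    rw [List.length_cons, wa_cons]
    have e' : n + (l.length + 1) = n + 1 + l.length := by omega
    rw [e']
    exact hc

theorem adm_empty {l : List (Lt p M α)} {J : Finset α} : ∀ {I : Finset α}, (∀ e ∈ l, e.1 = ∅) →
    Adm X l I J → I = J := by
  induction l with
  | nil => intro I _ h; exact h
  | cons e l ih =>
    rintro I hl ⟨_, _, h⟩
    rw [hl e List.mem_cons_self, Finset.union_empty] at h
    exact ih (fun e' he' => hl e' (List.mem_cons_of_mem _ he')) h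

end

end LemA22

open D5h27 LemA22 in
/-- LemmaA of DL78: the statement. -/
def StLemA : Prop := ∀ h N r : ℕ, ∃ q : ℕ, ∀ (p : ℕ) [Fact p.Prime] (M V Γ α : Type)
  [LieRing M] [AddCommGroup V] [Group Γ] [Fintype Γ] [DecidableEq α] (S : Finset (ZMod p))
  (τ : Γ →* (ZMod p)ˣ) (σ : Γ →* AddMonoid.End M) (X : Finset α → Fam (ZMod p) M) (κ : M →+ V)
  (R : Finset α) (l0 : α), Fintype.card Γ = h → S.card ≤ N → R.card ≤ r →
  LA S τ σ X κ R l0 → ∀ (l : List (Lt p M α)), Adm X l {l0} R → (∀ e ∈ l, e.1.Nonempty) →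
  ∀ a, ∀ ξ ∈ iter (X {l0}) (X ∅) q a, κ (wa l ξ) = 0

open D5h27 LemA22 in
/-- LemmaA of DL78. -/
theorem stLemA_22 (hDC : StDC) : StLemA := by
  intro h N r
  obtain ⟨n, hn⟩ := hDC h N
  set cb : ℕ := N * (1 + h * (N * N)) ^ (r + n) with hcb
  refine ⟨n * nilBound cb, ?_⟩
  intro p _ M V Γ α _ _ _ _ _ S τ σ X κ R l0 hh hS hR hLA l hadm hne a ξ hξ
  have hl0 : ({l0} : Finset α) ⊆ R := Finset.singleton_subset_iff.mpr hLA.mem
  have hsub : IsSub (X ∅) := ⟨hLA.zero ∅ (Finset.empty_subset _),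
    fun a b x y hx hy => lie_T hLA (Finset.empty_subset _) hx hy⟩
  have hInvR : Inv (X R) (X ∅) := fun a b x y hx hy => lie_T hLA subset_rfl hx hy
  have hInv0 : Inv (X {l0}) (X ∅) := fun a b x y hx hy => lie_T hLA hl0 hx hy
  have hMD : MD S τ σ (X ∅) (X R) κ :=
    { sub := hsub
      act := ⟨hLA.slie, fun g a x hx => hLA.smap g ∅ (Finset.empty_subset _) a x hx⟩
      inj := hLA.inj
      zero := hLA.zero R subset_rfl
      inv := hInvR
      supp := hLA.supp
      kill := fun a b x u hx hu => hLA.kill R ∅ (Finset.disjoint_empty_right _)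
        (Finset.union_empty _) hLA.mem a b x u hx hu }
  have hDCn := hn p M V Γ S τ σ (X ∅) (X R) κ hh hS hMD
  -- the base
  have hbase : X {l0} ≤ UP X κ R l0 n := by
    intro a ξ hξ
    refine ⟨hξ, ?_⟩
    rintro l ⟨lz, lu, rfl, h2, h3, h4, h5⟩
    obtain ⟨K, h6, h7⟩ := adm_append.mp h5
    have hK : K = R := adm_empty h3 h7
    subst hK
    obtain ⟨c, hc⟩ := adm_mem hLA subset_rfl h6 hξ
    obtain ⟨d, hd⟩ := wa_iter hLA lu h3 h7 0 c _ hc
    rw [Nat.zero_add] at hd
    have h8 : iter (X K) (X ∅) lu.length ≤ iter (X K) (X ∅) n :=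
      iter_le_of_le (inv_iter hInvR hsub.lie n) le_rfl h4
    rw [wa_append]
    exact hDCn d _ (h8 d hd)
  have hstep : ∀ i, iter (UP X κ R l0 (n - i)) (X ∅) (nilBound cb) ≤ UP X κ R l0 (n - (i + 1)) := by
    intro i
    by_cases hi : i < n
    · obtain ⟨P, hP⟩ : ∃ P, n - i = P + 1 := ⟨n - i - 1, by omega⟩
      have hP' : n - (i + 1) = P := by omega
      have hPn : P < n := by omega
      rw [hP, hP']
      apply nil_action cb ((SW S (bad S τ) (r + n)).erase 0)
        (Finset.card_erase_le.trans (SW_card S _ hS (card_bad hh hS) _))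
        (Finset.notMem_erase 0 _) (UP X κ R l0 (P + 1)) (UP X κ R l0 P) (X ∅) hsub
      · intro b x hx
        refine ⟨hx.1, ?_⟩
        rintro l ⟨lz, lu, h1, h2, h3, h4, h5⟩
        exact hx.2 l ⟨lz, lu, h1, h2, h3, by omega, h5⟩
      · intro b hb x hx
        by_cases hb0 : b = 0
        · subst hb0
          have : x = 0 := hLA.zero _ hl0 x hx.1
          subst this
          exact zero_mem _
        · refine ⟨hx.1, ?_⟩
          rintro l ⟨lz, lu, h1, h2, h3, h4, h5⟩
          by_cases hlu : P + 1 ≤ lu.length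
          · exact hx.2 l ⟨lz, lu, h1, h2, h3, hlu, h5⟩
          · have h6 : lu.length = P := by omega
            have h7 : lz.length ≤ r := by
              rw [h1] at h5
              obtain ⟨K, h8, h9⟩ := adm_append.mp h5
              have h10 := adm_card h2 h8
              have h11 := Finset.card_le_card (adm_sub h9)
              omega
            refine supp22 hLA l.length {l0} (Finset.mem_singleton_self _) b ?_ x hx.1 l rfl h5
            intro h8
            apply hb
            refine Finset.mem_erase.mpr ⟨hb0, SW_mono S _ ?_ h8⟩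
            rw [h1, List.length_append]
            omega
      · exact UP_inv hLA _
      · exact UP_inv hLA _
    · have h1 : n - i = 0 := by omega
      have h2 : n - (i + 1) = 0 := by omega
      rw [h1, h2]
      exact iter_le_self (UP_inv hLA 0) _
  have hchain := iter_chain (X := X {l0}) (T := X ∅) (R := fun i => UP X κ R l0 (n - i))
    (m := nilBound cb) (by simpa using hbase) hstep n
  have h1 := hchain a hξ
  have h2 : ξ ∈ UP X κ R l0 0 a := by simpa using h1
  exact h2.2 l ⟨l, [], by simp, hne, by simp, Nat.zero_le _, hadm⟩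

namespace LemA22

open D5h27

variable {p : ℕ} {M V Γ α : Type} [LieRing M] [AddCommGroup V] [Group Γ] [DecidableEq α]

/-- The span of the words that lead from `l0` to `I`. -/
def YY (X : Finset α → Fam (ZMod p) M) (l0 : α) (q : ℕ) (I : Finset α) : Fam (ZMod p) M :=
  fun b => AddSubgroup.closure {y | ∃ (l : List (Lt p M α)) (a : ZMod p) (ξ : M),
    y = wa l ξ ∧ ξ ∈ iter (X {l0}) (X ∅) q a ∧ Adm X l {l0} I ∧ (∀ e ∈ l, e.1.Nonempty) ∧
    a + (l.map (fun e => e.2.1)).sum = b}

theorem YY_base (X : Finset α → Fam (ZMod p) M) (l0 : α) (q : ℕ) :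
    iter (X {l0}) (X ∅) q ≤ YY X l0 q {l0} := by
  intro a ξ hξ
  refine AddSubgroup.subset_closure ⟨[], a, ξ, rfl, hξ, rfl, ?_, by simp⟩
  intro e he
  cases he

theorem YY_step (X : Finset α → Fam (ZMod p) M) (l0 : α) (q : ℕ) {I J : Finset α}
    (hIJ : Disjoint I J) (hJ : J.Nonempty) : br (YY X l0 q I) (X J) ≤ YY X l0 q (I ∪ J) := by
  intro c
  apply br_le
  rintro a b x z hab hx hz
  unfold YY at hx
  induction hx using AddSubgroup.closure_induction with
  | mem x hx =>
    obtain ⟨l, a', ξ, rfl, h1, h2, h3, h4⟩ := hx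
    refine AddSubgroup.subset_closure ⟨l ++ [(J, b, z)], a', ξ, ?_, h1, ?_, ?_, ?_⟩
    · rw [wa_append]; rfl
    · rw [adm_append]
      exact ⟨I, h2, hIJ, hz, rfl⟩
    · intro e he
      rw [List.mem_append, List.mem_singleton] at he
      rcases he with he | rfl
      · exact h3 e he
      · exact hJ
    · rw [List.map_append, List.sum_append, ← hab, ← h4]
      simp only [List.map_cons, List.map_nil, List.sum_cons, List.sum_nil]
      ring
  | zero => rw [zero_lie]; exact zero_mem _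
  | add x y _ _ hx hy => rw [add_lie]; exact add_mem hx hy
  | neg x _ hx => rw [neg_lie]; exact neg_mem hx

end LemA22

open D5h27 LemA22 in
/-- LemmaA of DL78 in elimination form. -/
def StLemY : Prop := ∀ h N r : ℕ, ∃ q : ℕ, ∀ (p : ℕ) [Fact p.Prime] (M V Γ α : Type)
  [LieRing M] [AddCommGroup V] [Group Γ] [Fintype Γ] [DecidableEq α] (S : Finset (ZMod p))
  (τ : Γ →* (ZMod p)ˣ) (σ : Γ →* AddMonoid.End M) (X : Finset α → Fam (ZMod p) M) (κ : M →+ V)
  (R : Finset α) (l0 : α), Fintype.card Γ = h → S.card ≤ N → R.card ≤ r →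
  LA S τ σ X κ R l0 → ∃ Y : Finset α → Fam (ZMod p) M, iter (X {l0}) (X ∅) q ≤ Y {l0} ∧
    (∀ I J, Disjoint I J → J.Nonempty → br (Y I) (X J) ≤ Y (I ∪ J)) ∧
    ∀ a, ∀ y ∈ Y R a, κ y = 0

open D5h27 LemA22 in
/-- LemmaA of DL78 in elimination form. -/
theorem stLemY_22 (hDC : StDC) : StLemY := by
  intro h N r
  obtain ⟨q, hq⟩ := stLemA_22 hDC h N r
  refine ⟨q, ?_⟩
  intro p _ M V Γ α _ _ _ _ _ S τ σ X κ R l0 hh hS hR hLA
  refine ⟨YY X l0 q, YY_base X l0 q, fun I J hIJ hJ => YY_step X l0 q hIJ hJ, ?_⟩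
  intro a y hy
  unfold YY at hy
  induction hy using AddSubgroup.closure_induction with
  | mem y hy =>
    obtain ⟨l, a', ξ, rfl, h1, h2, h3, _⟩ := hy
    exact hq p M V Γ α S τ σ X κ R l0 hh hS hR hLA l h2 h3 a' ξ h1
  | zero => exact map_zero κ
  | add x y _ _ hx hy => rw [map_add, hx, hy, add_zero]
  | neg x _ hx => rw [map_neg, hx, neg_zero]

end Pool.Agent.DL17
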