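import Pool.Agent.Lib.MP_2b9f9a_al.DL.Stmts17

/-!
# D1: number theory
-/

set_option autoImplicit false

namespace Pool.Agent.DL17

namespace NT38

open Polynomial

/-- the primitive root of unity in `ℂ` -/
noncomputable def ze (h : ℕ) : ℂ := Complex.exp (2 * Real.pi * Complex.I / h)

theorem ze_prim {h : ℕ} (hh : h ≠ 0) : IsPrimitiveRoot (ze h) h := Complex.isPrimitiveRoot_exp h hh

/-- integer multiples of rational polynomials -/
theorem clear (a : ℚ[X]) : ∃ (D : ℤ) (A : ℤ[X]), D ≠ 0 ∧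
    A.map (Int.castRingHom ℚ) = C (D : ℚ) * a := by
  obtain ⟨b, hb0, hb⟩ := IsLocalization.integerNormalization_spec (nonZeroDivisors ℤ) a
  refine ⟨b, IsLocalization.integerNormalization (nonZeroDivisors ℤ) a,
    nonZeroDivisors.ne_zero hb0, ?_⟩
  have h1 : (algebraMap ℤ ℚ) = Int.castRingHom ℚ := rfl
  rw [h1] at hb
  rw [hb]
  ext n
  rw [coeff_smul, coeff_C_mul]
  change ((b : ℤ) • a.coeff n) = _
  rw [zsmul_eq_mul]

/-- a polynomial that does not vanish at the complex root of unity vanishes at primitive roots of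
finitely many characteristics only -/
theorem const {h : ℕ} (hh : h ≠ 0) (f : ℤ[X]) (hf : aeval (ze h) f ≠ 0) :
    ∃ D : ℤ, D ≠ 0 ∧ ∀ (p : ℕ) [Fact p.Prime] (g : ZMod p), IsPrimitiveRoot g h →
      aeval g f = 0 → (D : ZMod p) = 0 := by
  have hirr := cyclotomic.irreducible_rat (Nat.pos_of_ne_zero hh)
  have hnd : ¬ cyclotomic h ℚ ∣ f.map (Int.castRingHom ℚ) := by
    rintro ⟨c, hc⟩
    apply hf
    have h1 : aeval (ze h) (f.map (Int.castRingHom ℚ)) = aeval (ze h) f := by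
      have : (Int.castRingHom ℚ) = algebraMap ℤ ℚ := rfl
      rw [this, aeval_map_algebraMap]
    rw [← h1, hc, map_mul]
    have h2 : aeval (ze h) (cyclotomic h ℚ) = 0 := by
      have h3 := (ze_prim hh).isRoot_cyclotomic (Nat.pos_of_ne_zero hh)
      rw [aeval_def, ← eval_map, map_cyclotomic]
      exact h3
    rw [h2, zero_mul]
  obtain ⟨a, b, hab⟩ := (hirr.coprime_iff_not_dvd).2 hnd
  obtain ⟨D1, A, hD1, hA⟩ := clear a
  obtain ⟨D2, B, hD2, hB⟩ := clear b
  refine ⟨D1 * D2, mul_ne_zero hD1 hD2, ?_⟩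
  have hZ : C D2 * A * cyclotomic h ℤ + C D1 * B * f = C (D1 * D2) := by
    apply map_injective (Int.castRingHom ℚ) Int.cast_injective
    rw [Polynomial.map_add, Polynomial.map_mul, Polynomial.map_mul, Polynomial.map_mul,
      Polynomial.map_mul, hA, hB, map_cyclotomic, map_C, map_C, map_C]
    have e1 : (Int.castRingHom ℚ) (D1 * D2) = (D1 : ℚ) * D2 := by simp
    have e2 : (Int.castRingHom ℚ) D1 = (D1 : ℚ) := rfl
    have e3 : (Int.castRingHom ℚ) D2 = (D2 : ℚ) := rfl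
    rw [e1, e2, e3, C_mul]
    calc C (D2 : ℚ) * (C (D1 : ℚ) * a) * cyclotomic h ℚ +
          C (D1 : ℚ) * (C (D2 : ℚ) * b) * f.map (Int.castRingHom ℚ)
        = C (D1 : ℚ) * C (D2 : ℚ) * (a * cyclotomic h ℚ + b * f.map (Int.castRingHom ℚ)) := by ring
      _ = C (D1 : ℚ) * C (D2 : ℚ) := by rw [hab, mul_one]
  intro p _ g hg hfg
  have h1 := congrArg (aeval g) hZ
  have h2 : aeval g (cyclotomic h ℤ) = 0 := by
    have h3 := hg.isRoot_cyclotomic (Nat.pos_of_ne_zero hh)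
    rw [aeval_def, ← eval_map, map_cyclotomic]
    exact h3
  have e1 : aeval g (C (D1 * D2) : ℤ[X]) = ((D1 * D2 : ℤ) : ZMod p) := by
    rw [aeval_C]
    rfl
  rw [e1, map_add, map_mul, map_mul (aeval g) (C D1 * B) f, h2, hfg, mul_zero, mul_zero,
    add_zero] at h1
  exact h1.symm

theorem re_lt {h e : ℕ} (h1 : 1 ≤ e) (h2 : e < h) : (ze h ^ e).re < 1 := by
  have hh : h ≠ 0 := by omega
  have hz := ze_prim hh
  have hn : ‖ze h ^ e‖ = 1 := by
    rw [norm_pow, hz.norm'_eq_one hh, one_pow]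
  have hle : (ze h ^ e).re ≤ 1 := by
    rw [← hn]
    exact Complex.re_le_norm _
  refine lt_of_le_of_ne hle fun heq => ?_
  have him : (ze h ^ e).im = 0 := by
    have h3 := Complex.sq_norm (ze h ^ e)
    rw [hn, Complex.normSq_apply, heq] at h3
    have h4 : (ze h ^ e).im * (ze h ^ e).im = 0 := by linarith
    exact mul_self_eq_zero.1 h4
  have h5 : ze h ^ e = 1 := Complex.ext (by rw [heq]; rfl) (by rw [him]; rfl)
  exact hz.pow_ne_one_of_pos_of_lt (by omega) h2 h5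

theorem delta (h : ℕ) : ∃ δ : ℝ, 0 < δ ∧ ∀ e, 1 ≤ e → e < h → (ze h ^ e).re ≤ 1 - δ := by
  by_cases hne : (Finset.Ico 1 h).Nonempty
  · obtain ⟨e0, he0, hmax⟩ := Finset.exists_max_image (Finset.Ico 1 h)
      (fun e => (ze h ^ e).re) hne
    rw [Finset.mem_Ico] at he0
    refine ⟨1 - (ze h ^ e0).re, by linarith [re_lt he0.1 he0.2], fun e h1 h2 => ?_⟩
    have := hmax e (Finset.mem_Ico.2 ⟨h1, h2⟩)
    linarith
  · refine ⟨1, one_pos, fun e h1 h2 => ?_⟩
    exact absurd ⟨e, Finset.mem_Ico.2 ⟨h1, h2⟩⟩ hne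

theorem neg_one_le_re {h e : ℕ} (hh : h ≠ 0) : -1 ≤ (ze h ^ e).re := by
  have hn : ‖ze h ^ e‖ = 1 := by
    rw [norm_pow, (ze_prim hh).norm'_eq_one hh, one_pow]
  have := Complex.abs_re_le_norm (ze h ^ e)
  rw [hn, abs_le] at this
  exact this.1

/-- sums of `r` and of `r'` terms are different, `r'` much larger than `r` -/
theorem disj {h r r' : ℕ} (hh : h ≠ 0) {δ : ℝ}
    (hδ : ∀ e, 1 ≤ e → e < h → (ze h ^ e).re ≤ 1 - δ) (hr : 2 * (r : ℝ) < δ * r')
    (e : Fin r → ℕ) (e' : Fin r' → ℕ) (h' : ∀ i, 1 ≤ e' i ∧ e' i < h) :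
    ∃ P : ℕ, ∀ p, P < p → p.Prime → ∀ g : ZMod p, IsPrimitiveRoot g h →
      ∑ i, (g ^ e i - 1) ≠ ∑ i, (g ^ e' i - 1) := by
  set f : ℤ[X] := ∑ i, (X ^ e i - 1) - ∑ i, (X ^ e' i - 1) with hf
  have hev : ∀ {A : Type} [CommRing A] (x : A), aeval x f =
      ∑ i, (x ^ e i - 1) - ∑ i, (x ^ e' i - 1) := by
    intro A _ x
    simp [hf]
  have hne : aeval (ze h) f ≠ 0 := by
    intro h0
    rw [hev] at h0
    have h1 := congrArg Complex.re h0
    rw [Complex.sub_re, Complex.re_sum, Complex.re_sum, Complex.zero_re] at h1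
    have h2 : -(2 * (r : ℝ)) ≤ ∑ i, (ze h ^ e i - 1).re := by
      calc -(2 * (r : ℝ)) = ∑ _i : Fin r, (-2 : ℝ) := by
            rw [Finset.sum_const, Finset.card_univ, Fintype.card_fin, nsmul_eq_mul]
            ring
        _ ≤ _ := by
            refine Finset.sum_le_sum fun i _ => ?_
            rw [Complex.sub_re, Complex.one_re]
            have := neg_one_le_re (e := e i) hh
            linarith
    have h3 : ∑ i, (ze h ^ e' i - 1).re ≤ -(δ * r') := by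
      calc ∑ i, (ze h ^ e' i - 1).re ≤ ∑ _i : Fin r', (-δ : ℝ) := by
            refine Finset.sum_le_sum fun i _ => ?_
            rw [Complex.sub_re, Complex.one_re]
            have := hδ (e' i) (h' i).1 (h' i).2
            linarith
        _ = _ := by
            rw [Finset.sum_const, Finset.card_univ, Fintype.card_fin, nsmul_eq_mul]
            ring
    linarith
  obtain ⟨D, hD, hP⟩ := const hh f hne
  refine ⟨D.natAbs, fun p hp hpp g hg heq => ?_⟩
  have : Fact p.Prime := ⟨hpp⟩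
  have h1 := hP p g hg (by rw [hev, heq, sub_self])
  rw [ZMod.intCast_zmod_eq_zero_iff_dvd] at h1
  have h2 := Nat.le_of_dvd (Int.natAbs_pos.2 hD) (Int.natCast_dvd.1 h1)
  omega

theorem unif {ι : Type} [Finite ι] (Q : ι → ℕ → Prop) (h : ∀ x, ∃ P, ∀ p, P < p → Q x p) :
    ∃ P, ∀ x p, P < p → Q x p := by
  choose f hf using h
  obtain ⟨P, hP⟩ := (Set.finite_range f).bddAbove
  exact ⟨P, fun x p hp => hf x p (lt_of_le_of_lt (hP ⟨x, rfl⟩) hp)⟩

end NT38

open NT38 in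
theorem stNT_38 : StNT := by
  intro h N
  by_cases hh : h = 0
  · refine ⟨0, 0, fun p hp _ R hR => ?_⟩
    have : Fact p.Prime := ⟨hp⟩
    exfalso
    rw [hh] at hR
    have : 0 < Nat.card R := Nat.card_pos
    omega
  obtain ⟨δ, hδ0, hδ⟩ := delta h
  obtain ⟨K, hK⟩ := exists_nat_gt (2 / δ)
  have hK' : 2 < δ * K := by
    rw [div_lt_iff₀ hδ0] at hK
    linarith
  have hK1 : 1 ≤ K := by
    rcases Nat.eq_zero_or_pos K with h0 | h0
    · rw [h0, Nat.cast_zero, mul_zero] at hK'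
      linarith
    · exact h0
  -- uniform bound
  have hU : ∃ P, ∀ (x : Σ ij : Fin (N + 1) × Fin (N + 1),
      (Fin (K ^ (ij.1 : ℕ)) → Fin h) × (Fin (K ^ (ij.2 : ℕ)) → Fin h)) (p : ℕ), P < p →
      (x.1.1 < x.1.2 → (∀ i, 1 ≤ (x.2.2 i : ℕ)) → p.Prime → ∀ g : ZMod p, IsPrimitiveRoot g h →
        ∑ i, (g ^ (x.2.1 i : ℕ) - 1) ≠ ∑ i, (g ^ (x.2.2 i : ℕ) - 1)) := by
    refine unif _ ?_
    rintro ⟨⟨i, j⟩, e, e'⟩
    by_cases hij : i < j
    · by_cases he : ∀ i, 1 ≤ (e' i : ℕ)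
      · have hr : 2 * ((K ^ (i : ℕ) : ℕ) : ℝ) < δ * ((K ^ (j : ℕ) : ℕ) : ℝ) := by
          have h1 : K ^ ((i : ℕ) + 1) ≤ K ^ (j : ℕ) := Nat.pow_le_pow_right hK1 hij
          have h2 : ((K ^ ((i : ℕ) + 1) : ℕ) : ℝ) ≤ ((K ^ (j : ℕ) : ℕ) : ℝ) := by
            exact_mod_cast h1
          have h3 : (0 : ℝ) < ((K ^ (i : ℕ) : ℕ) : ℝ) := by
            exact_mod_cast Nat.pow_pos hK1
          rw [pow_succ, Nat.cast_mul] at h2
          nlinarith
        obtain ⟨P, hP⟩ := disj hh hδ hr (fun i => (e i : ℕ)) (fun i => (e' i : ℕ))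
          (fun i => ⟨he i, (e' i).2⟩)
        exact ⟨P, fun p hp _ _ hpp g hg => hP p hp hpp g hg⟩
      · exact ⟨0, fun p _ _ he' => absurd he' he⟩
    · exact ⟨0, fun p _ h' => absurd h' hij⟩
  obtain ⟨P, hP⟩ := hU
  refine ⟨K ^ N, P, fun p hp hPp R hR S hS => ?_⟩
  have : Fact p.Prime := ⟨hp⟩
  -- the primitive root
  obtain ⟨γ, hγ⟩ := IsCyclic.exists_generator (α := R)
  have hord : orderOf γ = h := by
    rw [orderOf_eq_card_of_forall_mem_zpowers hγ, hR]
  have hg : IsPrimitiveRoot (((γ : R) : (ZMod p)ˣ) : ZMod p) h := by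
    rw [IsPrimitiveRoot.coe_units_iff]
    have h1 := IsPrimitiveRoot.orderOf γ
    rw [hord] at h1
    exact (IsPrimitiveRoot.coe_submonoidClass_iff (N := R)).2 h1
  set g : ZMod p := (((γ : R) : (ZMod p)ˣ) : ZMod p) with hgdef
  have hexp : ∀ k : (ZMod p)ˣ, k ∈ R → k ≠ 1 → ∃ e : Fin h, 1 ≤ (e : ℕ) ∧ (k : ZMod p) = g ^ (e : ℕ) := by
    intro k hk hk1
    have h1 : (k : ZMod p) ^ h = 1 := by
      have h2 : (⟨k, hk⟩ : R) ^ Nat.card R = 1 := pow_card_eq_one'
      rw [hR] at h2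
      have h3 := congrArg (fun x : R => ((x : (ZMod p)ˣ) : ZMod p)) h2
      simpa using h3
    have : NeZero h := ⟨hh⟩
    obtain ⟨i, hi, hik⟩ := hg.eq_pow_of_pow_eq_one h1
    refine ⟨⟨i, hi⟩, ?_, hik.symm⟩
    change 1 ≤ i
    rcases Nat.eq_zero_or_pos i with h0 | h0
    · exfalso
      rw [h0, pow_zero] at hik
      exact hk1 (Units.ext hik.symm)
    · exact h0
  by_contra hcon
  push Not at hcon
  -- an element of `S` for each `j`
  have hs : ∀ j : Fin (N + 1), ∃ k : Fin (K ^ (j : ℕ)) → (ZMod p)ˣ, (∀ i, k i ∈ R ∧ k i ≠ 1) ∧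
      ∑ i, ((k i : ZMod p) - 1) ∈ S := by
    intro j
    exact hcon (K ^ (j : ℕ)) (Nat.pow_pos hK1)
      (Nat.pow_le_pow_right hK1 (Nat.lt_succ_iff.1 j.2))
  choose k hk hkS using hs
  have hinj : Function.Injective (fun j : Fin (N + 1) => ∑ i, ((k j i : ZMod p) - 1)) := by
    have key : ∀ i j : Fin (N + 1), i < j → ∑ l, ((k i l : ZMod p) - 1) ≠
        ∑ l, ((k j l : ZMod p) - 1) := by
      intro i j hij
      choose e he1 he2 using fun l => hexp (k i l) (hk i l).1 (hk i l).2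
      choose e' he1' he2' using fun l => hexp (k j l) (hk j l).1 (hk j l).2
      have h1 := hP ⟨(i, j), e, e'⟩ p hPp hij he1' hp g hg
      have e3 : ∑ l, ((k i l : ZMod p) - 1) = ∑ l, (g ^ (e l : ℕ) - 1) :=
        Finset.sum_congr rfl fun l _ => by rw [he2 l]
      have e4 : ∑ l, ((k j l : ZMod p) - 1) = ∑ l, (g ^ (e' l : ℕ) - 1) :=
        Finset.sum_congr rfl fun l _ => by rw [he2' l]
      rw [e3, e4]
      exact h1
    intro i j hij
    by_contra hne
    rcases lt_or_gt_of_ne hne with h1 | h1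
    · exact key i j h1 hij
    · exact key j i h1 hij.symm
  have hcard := Finset.card_le_card_of_injOn (s := (Finset.univ : Finset (Fin (N + 1))))
    (t := S) (fun j : Fin (N + 1) => ∑ i, ((k j i : ZMod p) - 1)) (fun j _ => hkS j)
    (fun i _ j _ hij => hinj hij)
  rw [Finset.card_univ, Fintype.card_fin] at hcard
  omega

end Pool.Agent.DL17
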