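import Pool.Agent.Lib.MP_2b9f9a_al.DL.Grp_28
import Pool.Agent.Lib.MP_2b9f9a_al.DL.W_7
import Pool.Agent.Lib.MP_2b9f9a_al.DL.WF_41
import Pool.Agent.Lib.MP_2b9f9a_al.PX.Fpf28

/-!
# DL78 (MP_2b9f9a), section 4, general part: the Lie ring of a filtered group, transfer maps,
test elements
-/

set_option autoImplicit false

namespace Pool.Agent.DL78

open Pool.Agent.Lib.MP_2b9f9a_al Pool.Agent.DL17
open Pool.Agent.PX (Fro lc StFpf StCov dsg)

namespace R28

section graded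

variable {G I W Λ : Type} [Group G] [AddCommMonoid I] [LieRing W] [Group Λ]
  [MulDistribMulAction Λ G] {A B : I → Subgroup G} {cls : I → G → W} {act : Λ →* AddMonoid.End W}

/-- the classes of the elements of `K` -/
def im (cls : I → G → W) (i : I) (K : Subgroup G) : AddSubgroup W :=
  AddSubgroup.closure {z | ∃ g ∈ K, z = cls i g}

omit [AddCommMonoid I] in
theorem cls_im {i : I} {K : Subgroup G} {g : G} (hg : g ∈ K) : cls i g ∈ im cls i K :=
  AddSubgroup.subset_closure ⟨g, hg, rfl⟩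

theorem mem_im (h : GrM A B cls act) {i : I} {K : Subgroup G} (hK : K ≤ A i) {w : W}
    (hw : w ∈ im cls i K) : ∃ g ∈ K, w = cls i g := by
  unfold im at hw
  induction hw using AddSubgroup.closure_induction with
  | mem x hx => obtain ⟨g, hg, rfl⟩ := hx; exact ⟨g, hg, rfl⟩
  | zero => exact ⟨1, one_mem _, (Grp28.one h i).symm⟩
  | add x y _ _ hx hy =>
    obtain ⟨g, hg, rfl⟩ := hx
    obtain ⟨g', hg', rfl⟩ := hy
    exact ⟨g * g', mul_mem hg hg', (h.mul i g (hK hg) g' (hK hg')).symm⟩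
  | neg x _ hx =>
    obtain ⟨g, hg, rfl⟩ := hx
    exact ⟨g⁻¹, inv_mem hg, (Grp28.inv h i (hK hg)).symm⟩

omit [AddCommMonoid I] in
theorem im_mono {i : I} {K K' : Subgroup G} (h : K ≤ K') : im cls i K ≤ im cls i K' :=
  AddSubgroup.closure_mono (by rintro z ⟨g, hg, rfl⟩; exact ⟨g, h hg, rfl⟩)

theorem im_bot (h : GrM A B cls act) {i : I} {w : W} (hw : w ∈ im cls i (⊥ : Subgroup G)) :
    w = 0 := by
  obtain ⟨g, hg, rfl⟩ := mem_im h (i := i) (K := ⊥) bot_le hw
  rw [Subgroup.mem_bot] at hg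
  rw [hg, Grp28.one h]

theorem im_lie (h : GrM A B cls act) {i j : I} {K K' K'' : Subgroup G} (hK : K ≤ A i)
    (hK' : K' ≤ A j) (hc : ⁅K, K'⁆ ≤ K'') {x y : W} (hx : x ∈ im cls i K)
    (hy : y ∈ im cls j K') : ⁅x, y⁆ ∈ im cls (i + j) K'' := by
  obtain ⟨g, hg, rfl⟩ := mem_im h hK hx
  obtain ⟨g', hg', rfl⟩ := mem_im h hK' hy
  rw [h.brk i j g (hK hg) g' (hK' hg')]
  have h1 := hc (Subgroup.commutator_mem_commutator hg hg')
  rw [commutatorElement_def] at h1
  exact cls_im h1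

theorem im_act (h : GrM A B cls act) {i : I} {K : Subgroup G} (hK : K ≤ A i) (γ : Λ)
    (hinv : ∀ g ∈ K, γ • g ∈ K) {x : W} (hx : x ∈ im cls i K) : act γ x ∈ im cls i K := by
  obtain ⟨g, hg, rfl⟩ := mem_im h hK hx
  rw [h.act_cls γ i g (hK hg)]
  exact cls_im (hinv g hg)

omit [AddCommMonoid I] in
theorem im_map {ν : W →+ W} {i j : I} {K : Subgroup G} (hν : ∀ g ∈ K, ν (cls i g) = cls j g)
    {x : W} (hx : x ∈ im cls i K) : ν x ∈ im cls j K := by
  unfold im at hx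
  induction hx using AddSubgroup.closure_induction with
  | mem x hx => obtain ⟨g, hg, rfl⟩ := hx; rw [hν g hg]; exact cls_im hg
  | zero => rw [map_zero]; exact zero_mem _
  | add x y _ _ hx hy => rw [map_add]; exact add_mem hx hy
  | neg x _ hx => rw [map_neg]; exact neg_mem hx

omit [AddCommMonoid I] in
theorem im_lift {ν : W →+ W} {i j : I} {K : Subgroup G} (hν : ∀ g ∈ K, ν (cls i g) = cls j g)
    {x : W} (hx : x ∈ im cls j K) : ∃ y ∈ im cls i K, ν y = x := by
  unfold im at hx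
  induction hx using AddSubgroup.closure_induction with
  | mem x hx => obtain ⟨g, hg, rfl⟩ := hx; exact ⟨cls i g, cls_im hg, hν g hg⟩
  | zero => exact ⟨0, zero_mem _, map_zero _⟩
  | add x y _ _ hx hy =>
    obtain ⟨a, ha, rfl⟩ := hx
    obtain ⟨b, hb, rfl⟩ := hy
    exact ⟨a + b, add_mem ha hb, map_add _ _ _⟩
  | neg x _ hx =>
    obtain ⟨a, ha, rfl⟩ := hx
    exact ⟨-a, neg_mem ha, map_neg _ _⟩

/-- The maps between the components. -/
theorem exists_map (hm : MF A B) (h : GrM A B cls act)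
    (hA : ∀ (γ : Λ) i, ∀ g ∈ A i, γ • g ∈ A i) (D : I → Prop) (m : I → I)
    (h1 : ∀ i, D i → A i ≤ A (m i)) (h2 : ∀ i, D i → B i ≤ B (m i)) :
    ∃ ν : AddMonoid.End W, (∀ i, D i → ∀ g ∈ A i, ν (cls i g) = cls (m i) g) ∧
      (∀ i, ¬ D i → ∀ g ∈ A i, ν (cls i g) = 0) ∧ ∀ γ w, ν (act γ w) = act γ (ν w) := by
  classical
  obtain ⟨ν₀, hν₀⟩ := h.univ W (fun i g => if D i then cls (m i) g else 0) (by
    intro i g hg g' hg'
    by_cases e : D i
    · simp only [e, if_true]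
      exact h.mul (m i) g (h1 i e hg) g' (h1 i e hg')
    · simp only [e, if_false, add_zero]) (by
    intro i g hg
    by_cases e : D i
    · simp only [e, if_true]
      exact (h.zero (m i) g (hm.le _ (h2 i e hg))).2 (h2 i e hg)
    · simp only [e, if_false])
  obtain ⟨ν, hν⟩ : ∃ ν : AddMonoid.End W, ∀ i, ∀ g ∈ A i,
      ν (cls i g) = if D i then cls (m i) g else 0 := ⟨ν₀, hν₀⟩
  have e1 : ∀ i, D i → ∀ g ∈ A i, ν (cls i g) = cls (m i) g := by
    intro i hi g hg
    rw [hν i g hg, if_pos hi]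
  have e2 : ∀ i, ¬ D i → ∀ g ∈ A i, ν (cls i g) = 0 := by
    intro i hi g hg
    rw [hν i g hg, if_neg hi]
  refine ⟨ν, e1, e2, fun γ w => ?_⟩
  induction w using Grp28.span_ind h with
  | h0 => simp only [map_zero]
  | hadd x y hx hy => rw [map_add, map_add, map_add, map_add, hx, hy]
  | hneg x hx => rw [map_neg, map_neg, map_neg, map_neg, hx]
  | hcls i g hg =>
    rw [h.act_cls γ i g hg]
    by_cases e : D i
    · rw [e1 i e _ (hA γ i g hg), e1 i e g hg, h.act_cls γ (m i) g (h1 i e hg)]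
    · rw [e2 i e _ (hA γ i g hg), e2 i e g hg, map_zero]

end graded

section group

variable {r : ℕ} [Fact r.Prime] {Γ P I W : Type} [Group Γ] [Finite Γ] [Group P] [Finite P]
  [MulDistribMulAction Γ P] [AddCommMonoid I] [LieRing W] {A B : I → Subgroup P}
  {cls : I → P → W} {act : Γ →* AddMonoid.End W} {F H : Subgroup Γ}

/-- `F` acts without fixed points. -/
theorem fpf (hFpf : StFpf) (hm : MF A B) (h : GrM A B cls act)
    (hA : ∀ (γ : Γ) i, ∀ g ∈ A i, γ • g ∈ A i) (hB : ∀ (γ : Γ) i, ∀ g ∈ B i, γ • g ∈ B i)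
    (hP : IsPGroup r P) (hFro : Fro P F H) :
    ∀ y ∈ F, y ≠ 1 → ∀ v : W, act y v = v → v = 0 := by
  obtain ⟨π, h1, h2⟩ := Grp28.proj hm h
  intro y hy hy1 v hv
  apply Grp28.zero_of h h1 h2
  intro i
  obtain ⟨g, hg, e⟩ := Grp28.comp h h1 h2 i v
  have e1 : act y (cls i g) = cls i g := by
    rw [← e, ← Grp28.act_pi h hA h1 h2, hv]
  rw [h.act_cls y i g hg] at e1
  have e2 : cls i (g⁻¹ * (y • g)) = 0 := by
    rw [h.mul i _ (inv_mem hg) _ (hA y i g hg), Grp28.inv h i hg, e1, neg_add_cancel]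
  have e3 := (h.zero i _ (mul_mem (inv_mem hg) (hA y i g hg))).1 e2
  have := hm.nB i
  have e4 := hFpf r Γ P F H hP hFro (B i) (fun γ g' hg' => hB γ i g' hg') y hy hy1 g e3
  rw [e]
  exact (h.zero i g hg).2 e4

/-- Classes fixed by `H` are classes of elements fixed by `H`. -/
theorem cover (hCov : StCov) (hm : MF A B) (h : GrM A B cls act)
    (hA : ∀ (γ : Γ) i, ∀ g ∈ A i, γ • g ∈ A i) (hB : ∀ (γ : Γ) i, ∀ g ∈ B i, γ • g ∈ B i)
    (hP : IsPGroup r P) (hFro : Fro P F H) {i : I} {w : W} (hw : w ∈ im cls i (A i))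
    (hx : ∀ x ∈ H, act x w = w) : w ∈ im cls i (Grp28.fix (P := P) H ⊓ A i) := by
  obtain ⟨g, hg, rfl⟩ := mem_im h le_rfl hw
  have hgN : ∀ x ∈ H, g⁻¹ * (x • g) ∈ B i := by
    intro x hxH
    have e1 := hx x hxH
    rw [h.act_cls x i g hg] at e1
    have e2 : cls i (g⁻¹ * (x • g)) = 0 := by
      rw [h.mul i _ (inv_mem hg) _ (hA x i g hg), Grp28.inv h i hg, e1, neg_add_cancel]
    exact (h.zero i _ (mul_mem (inv_mem hg) (hA x i g hg))).1 e2
  have := hm.nB i
  obtain ⟨n, hn, hgn⟩ := hCov r Γ P F H hP hFro (B i) (fun γ g' hg' => hB γ i g' hg') g hgN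
  have e4 : cls i (g * n) = cls i g := by
    rw [h.mul i g hg n (hm.le _ hn), (h.zero i n (hm.le _ hn)).2 hn, add_zero]
  rw [← e4]
  exact cls_im ⟨hgn, mul_mem hg (hm.le _ hn)⟩

end group

/-! ### The zeta level -/

section zeta

variable {p : ℕ} [Fact p.Prime] {W Λ : Type} [LieRing W] [Group Λ]

/-- the homogeneous functions with values in `K` -/
abbrev fm (φ : AddMonoid.End W) (K : AddSubgroup W) : Fam (ZMod p) (Conv p W) :=
  W7.fam (shift p W) (lift p φ) K

theorem fm_mono {φ : AddMonoid.End W} {K K' : AddSubgroup W} (h : K ≤ K') {a : ZMod p}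
    {u : Conv p W} (hu : u ∈ fm φ K a) : u ∈ fm φ K' a :=
  ⟨hu.1, fun c => h (hu.2 c)⟩

/-- `ν` commutes with `φ`. -/
theorem lift_eig {φ ν : AddMonoid.End W} (hν : ∀ w, ν (φ w) = φ (ν w)) {a : ZMod p}
    {u : Conv p W} (hu : u ∈ eig (shift p W) (lift p φ) a) :
    lift p ν u ∈ eig (shift p W) (lift p φ) a := by
  rw [mem_eig] at hu ⊢
  have h1 : lift p φ * lift p ν = lift p ν * lift p φ := by
    rw [← lift_mul, ← lift_mul]
    congr 1
    exact AddMonoidHom.ext (fun x => (hν x).symm)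
  rw [← end_mul_apply, h1, end_mul_apply, hu]
  apply conv_ext; intro c
  rw [chi_shift_apply, lift_apply, lift_apply, chi_shift_apply]

theorem fm_map {φ ν : AddMonoid.End W} (hν : ∀ w, ν (φ w) = φ (ν w)) {K K' : AddSubgroup W}
    (h : ∀ x ∈ K, ν x ∈ K') {a : ZMod p} {u : Conv p W} (hu : u ∈ fm φ K a) :
    lift p ν u ∈ fm φ K' a :=
  ⟨lift_eig hν hu.1, fun c => by rw [lift_apply]; exact h _ (hu.2 c)⟩

theorem lift_proj {φ ν : AddMonoid.End W} (hν : ∀ w, ν (φ w) = φ (ν w)) (a : ZMod p)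
    (u : Conv p W) : lift p ν (proj (shift p W) (lift p φ) a u) =
      proj (shift p W) (lift p φ) a (lift p ν u) := by
  have h0 : Commute (lift p ν) (lift p φ) := by
    change lift p ν * lift p φ = lift p φ * lift p ν
    rw [← lift_mul, ← lift_mul]
    congr 1
    exact AddMonoidHom.ext (fun x => hν x)
  have h1 : ∀ b : ZMod p, Commute (lift p ν) (chi (shift p W) b) := by
    intro b
    change lift p ν * chi (shift p W) b = chi (shift p W) b * lift p ν
    apply AddMonoidHom.ext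
    intro v
    apply conv_ext; intro c
    change lift p ν (chi (shift p W) b v) c = chi (shift p W) b (lift p ν v) c
    rw [chi_shift_apply, lift_apply, lift_apply, chi_shift_apply]
  have h2 : Commute (lift p ν) (proj (shift p W) (lift p φ) a) := by
    unfold proj
    refine Commute.sum_right _ _ _ (fun i _ => ?_)
    exact Commute.mul_right (h1 _) (h0.pow_right _)
  have h3 := h2.eq
  rw [← end_mul_apply, h3, end_mul_apply]

/-- Homogeneous elements can be lifted. -/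
theorem fm_lift {φ ν : AddMonoid.End W} (hD : Datum p (shift p W) (lift p φ))
    (hν : ∀ w, ν (φ w) = φ (ν w)) {K K' : AddSubgroup W} (hφ : ∀ x ∈ K, φ x ∈ K)
    (h : ∀ y ∈ K', ∃ x ∈ K, ν x = y) {q : ℤ} (hq : ∀ x : W, q • (p • x) = x) {a : ZMod p}
    {u : Conv p W} (hu : u ∈ fm φ K' a) : ∃ v ∈ fm φ K a, lift p ν v = u := by
  choose x hx hx' using fun c : ZMod p => h (u c) (hu.2 c)
  let w : Conv p W := fun c => x c
  have hw : lift p ν w = u := by
    apply conv_ext; intro c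
    rw [lift_apply]
    exact hx' c
  refine ⟨q • proj (shift p W) (lift p φ) a w, zsmul_mem ?_ q, ?_⟩
  · exact ⟨proj_mem hD a w, W7.proj_val hφ (fun c => hx c) a⟩
  · rw [map_zsmul, lift_proj hν, hw, proj_eig hD hu.1, if_pos rfl, W7.inv_p_conv hq]

theorem fm_lie {φ : AddMonoid.End W} (hD : Datum p (shift p W) (lift p φ))
    {K K' K'' : AddSubgroup W} (h : ∀ x ∈ K, ∀ y ∈ K', ⁅x, y⁆ ∈ K'') {a b : ZMod p}
    {u v : Conv p W} (hu : u ∈ fm φ K a) (hv : v ∈ fm φ K' b) : ⁅u, v⁆ ∈ fm φ K'' (a + b) :=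
  ⟨eig_lie hD a b u v hu.1 hv.1, W7.lie_val h hu.2 hv.2⟩

theorem fm_zero {φ : AddMonoid.End W} (hD : Datum p (shift p W) (lift p φ))
    {K : AddSubgroup W} {u : Conv p W} (hu : u ∈ fm φ K 0) : u = 0 :=
  (eig_isSub hD).zero u hu.1

/-- If all homogeneous elements vanish then so does `K`. -/
theorem fm_bot {φ : AddMonoid.End W} (hD : Datum p (shift p W) (lift p φ))
    {K : AddSubgroup W} (hφ : ∀ x ∈ K, φ x ∈ K) (h : ∀ a, ∀ u ∈ fm (p := p) φ K a, u = 0) {x : W}
    (hx : x ∈ K) : x = 0 := by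
  have h1 : dOp p W (emb p x) = 0 := by
    rw [← W7.sum_proj_apply hD]
    exact Finset.sum_eq_zero fun a _ =>
      h a _ ⟨proj_mem hD a _, W7.proj_val hφ (W7.emb_val hx) a⟩
  have h2 := congrArg (fun u : Conv p W => u 1) h1
  simp only [dOp_emb, conv_zero] at h2
  exact neg_eq_zero.mp h2

section act

variable {Γ : Type} [Group Γ]

/-- the action on homogeneous elements -/
theorem fm_sig {φ : AddMonoid.End W} {act : Γ →* AddMonoid.End W} {τ : Γ →* (ZMod p)ˣ}
    (hD : Datum p (shift p W) (lift p φ))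
    (hact : ∀ g, φ * act g = act g * φ ^ (((τ g : (ZMod p)ˣ) : ZMod p)).val)
    {K : AddSubgroup W} (hK : ∀ g, ∀ x ∈ K, act g x ∈ K) (g : Γ) (a : ZMod p) {u : Conv p W}
    (hu : u ∈ fm φ K a) : W7.sig p act g u ∈ fm φ K (((τ g : (ZMod p)ˣ) : ZMod p) * a) := by
  refine ⟨?_, fun c => hK g _ (hu.2 c)⟩
  have hu1 := hu.1
  rw [mem_eig] at hu1 ⊢
  have h1 : lift p φ * lift p (act g) =
      lift p (act g) * (lift p φ) ^ (((τ g : (ZMod p)ˣ) : ZMod p)).val := by
    rw [← lift_mul, hact, lift_mul, lift_pow]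
  change lift p φ (lift p (act g) u) = chi (shift p W) _ (lift p (act g) u)
  rw [← end_mul_apply, h1, end_mul_apply, eig_pow hD hu.1, ← chi_mul hD, mul_comm]
  apply conv_ext; intro c
  rw [chi_shift_apply, lift_apply, lift_apply, chi_shift_apply]

theorem fm_act {φ : AddMonoid.End W} {act : Γ →* AddMonoid.End W} {τ : Γ →* (ZMod p)ˣ}
    (hD : Datum p (shift p W) (lift p φ))
    (hact : ∀ g, φ * act g = act g * φ ^ (((τ g : (ZMod p)ˣ) : ZMod p)).val)
    (hlie : ∀ g x y, act g ⁅x, y⁆ = ⁅act g x, act g y⁆)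
    {K : AddSubgroup W} (hK : ∀ g, ∀ x ∈ K, act g x ∈ K) :
    Act τ (W7.sig p act) (fm φ K) :=
  ⟨fun g u v => lift_lie (hlie g) u v, fun g a u hu => fm_sig hD hact hK g a hu⟩

theorem lift_sig {act : Γ →* AddMonoid.End W} {ν : AddMonoid.End W}
    (hν : ∀ g w, ν (act g w) = act g (ν w)) (g : Γ) (u : Conv p W) :
    lift p ν (W7.sig p act g u) = W7.sig p act g (lift p ν u) := by
  apply conv_ext; intro c
  rw [lift_apply, W7.sig_apply, W7.sig_apply, lift_apply, hν]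

theorem lift_tr [Fintype Γ] {act : Γ →* AddMonoid.End W} {ν : AddMonoid.End W}
    (hν : ∀ g w, ν (act g w) = act g (ν w)) (u : Conv p W) :
    lift p ν (tr (W7.sig p act) u) = tr (W7.sig p act) (lift p ν u) := by
  unfold tr
  rw [map_sum]
  exact Finset.sum_congr rfl fun g _ => lift_sig hν g u

/-- the weight component of a trace -/
theorem proj_tr [Fintype Γ] {φ : AddMonoid.End W} {act : Γ →* AddMonoid.End W}
    {τ : Γ →* (ZMod p)ˣ} (hD : Datum p (shift p W) (lift p φ))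
    (hact : ∀ g, φ * act g = act g * φ ^ (((τ g : (ZMod p)ˣ) : ZMod p)).val)
    (hτ : Function.Injective τ) {a : ZMod p} {u : Conv p W}
    (hu : u ∈ eig (shift p W) (lift p φ) a) :
    proj (shift p W) (lift p φ) a (tr (W7.sig p act) u) = p • u := by
  by_cases ha : a = 0
  · subst ha
    rw [(eig_isSub hD).zero u hu]
    have : tr (W7.sig p act) (0 : Conv p W) = 0 := by
      unfold tr
      exact Finset.sum_eq_zero fun g _ => map_zero _
    rw [this, map_zero, smul_zero]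
  · unfold tr
    rw [map_sum, Finset.sum_eq_single 1]
    · rw [map_one, end_one_apply, proj_eig hD hu, if_pos rfl]
    · intro g _ hg
      have h1 : W7.sig p act g u ∈ fm φ ⊤ (((τ g : (ZMod p)ˣ) : ZMod p) * a) :=
        fm_sig hD hact (fun g x _ => AddSubgroup.mem_top _) g a ⟨hu, fun _ => AddSubgroup.mem_top _⟩
      rw [proj_eig hD h1.1, if_neg]
      intro h2
      apply hg
      apply hτ
      rw [map_one]
      apply Units.ext
      rw [Units.val_one]
      exact mul_right_cancel₀ ha (by rw [h2, one_mul])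
    · intro h; exact absurd (Finset.mem_univ _) h

end act

end zeta

/-! ### Test elements -/

section test

variable {p : ℕ} [Fact p.Prime] {W : Type} [LieRing W]

/-- sums of `m` homogeneous elements with values in `K`, and with values in `C` -/
def tst (φ : AddMonoid.End W) (K C : AddSubgroup W) (m : ℕ) : Set (Conv p W) :=
  {x | (∀ c : ZMod p, x c ∈ C) ∧ ∃ (s : Fin m → ZMod p) (y : Fin m → Conv p W),
    (∀ k, y k ∈ fm φ K (s k)) ∧ x = ∑ k, y k}

theorem tst_mono {φ : AddMonoid.End W} {K C K' C' : AddSubgroup W} (hK : K ≤ K') (hC : C ≤ C')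
    {m : ℕ} {x : Conv p W} (hx : x ∈ tst φ K C m) : x ∈ tst φ K' C' m := by
  obtain ⟨h1, s, y, h2, h3⟩ := hx
  exact ⟨fun c => hC (h1 c), s, y, fun k => fm_mono hK (h2 k), h3⟩

theorem tst_le {φ : AddMonoid.End W} {K C : AddSubgroup W} {m m' : ℕ} (hm : m ≤ m')
    {x : Conv p W} (hx : x ∈ tst φ K C m) : x ∈ tst φ K C m' := by
  obtain ⟨h1, s, y, h2, h3⟩ := hx
  obtain ⟨k, rfl⟩ := Nat.exists_eq_add_of_le hm
  refine ⟨h1, Fin.append s (fun _ => 0), Fin.append y (fun _ => 0), ?_, ?_⟩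
  · intro i
    refine Fin.addCases (fun i => ?_) (fun i => ?_) i
    · rw [Fin.append_left, Fin.append_left]; exact h2 i
    · rw [Fin.append_right, Fin.append_right]; exact zero_mem _
  · rw [Fin.sum_univ_add, h3]
    simp only [Fin.append_left, Fin.append_right, Finset.sum_const_zero, add_zero]

theorem tst_lie {φ : AddMonoid.End W} (hD : Datum p (shift p W) (lift p φ))
    {K C K' C' K'' C'' : AddSubgroup W} (hK : ∀ x ∈ K, ∀ y ∈ K', ⁅x, y⁆ ∈ K'')
    (hC : ∀ x ∈ C, ∀ y ∈ C', ⁅x, y⁆ ∈ C'') {m m' : ℕ} {x x' : Conv p W}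
    (hx : x ∈ tst φ K C m) (hx' : x' ∈ tst φ K' C' m') : ⁅x, x'⁆ ∈ tst φ K'' C'' (m * m') := by
  obtain ⟨h1, s, y, h2, h3⟩ := hx
  obtain ⟨h1', s', y', h2', h3'⟩ := hx'
  refine ⟨W7.lie_val hC h1 h1', fun k => s (finProdFinEquiv.symm k).1 +
    s' (finProdFinEquiv.symm k).2, fun k => ⁅y (finProdFinEquiv.symm k).1,
    y' (finProdFinEquiv.symm k).2⁆, fun k => fm_lie hD hK (h2 _) (h2' _), ?_⟩
  rw [h3, h3', sum_lie]
  simp only [lie_sum]
  rw [← Fintype.sum_prod_type (fun q : Fin m × Fin m' => ⁅y q.1, y' q.2⁆)]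
  exact (Equiv.sum_comp finProdFinEquiv.symm (fun q : Fin m × Fin m' => ⁅y q.1, y' q.2⁆)).symm

theorem tst_map {φ ν : AddMonoid.End W} (hν : ∀ w, ν (φ w) = φ (ν w))
    {K C K' C' : AddSubgroup W} (hK : ∀ x ∈ K, ν x ∈ K') (hC : ∀ x ∈ C, ν x ∈ C') {m : ℕ}
    {x : Conv p W} (hx : x ∈ tst φ K C m) : lift p ν x ∈ tst φ K' C' m := by
  obtain ⟨h1, s, y, h2, h3⟩ := hx
  refine ⟨fun c => by rw [lift_apply]; exact hC _ (h1 c), s, fun k => lift p ν (y k),
    fun k => fm_map hν hK (h2 k), ?_⟩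
  rw [h3, map_sum]

theorem tst_tr {Γ : Type} [Group Γ] [Fintype Γ] {φ : AddMonoid.End W}
    {act : Γ →* AddMonoid.End W} {τ : Γ →* (ZMod p)ˣ}
    (hD : Datum p (shift p W) (lift p φ))
    (hact : ∀ g, φ * act g = act g * φ ^ (((τ g : (ZMod p)ˣ) : ZMod p)).val)
    {K C : AddSubgroup W} (hK : ∀ g, ∀ x ∈ K, act g x ∈ K)
    (hC : ∀ x ∈ K, (∀ g, act g x = x) → x ∈ C) {a : ZMod p} {u : Conv p W}
    (hu : u ∈ fm φ K a) : tr (W7.sig p act) u ∈ tst φ K C (Fintype.card Γ) := by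
  refine ⟨fun c => ?_, fun k => ((τ ((Fintype.equivFin Γ).symm k) : (ZMod p)ˣ) : ZMod p) * a,
    fun k => W7.sig p act ((Fintype.equivFin Γ).symm k) u, fun k => fm_sig hD hact hK _ a hu, ?_⟩
  · have := W7.tr_fix act hK hu.2 c
    exact hC _ this.1 this.2
  · unfold tr
    exact (Equiv.sum_comp (Fintype.equivFin Γ).symm (fun g => W7.sig p act g u)).symm

end test

end R28

end Pool.Agent.DL78
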